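import Mathlib

set_option autoImplicit false

namespace Pool.Agent.H819

open Finset

/-- weighted sum of squared ramps at dyadic scales -/
noncomputable def S (N : ℕ) (l x : ℝ) : ℝ :=
  ∑ k ∈ range N, (3 / 4 : ℝ) ^ k * (max (x - 2 ^ k * l) 0) ^ 2

lemma geom34 (N : ℕ) : ∑ k ∈ range N, (3 / 4 : ℝ) ^ k = 4 * (1 - (3 / 4) ^ N) := by
  induction N with
  | zero => simp
  | succ n ih => rw [sum_range_succ, ih, pow_succ]; ring

lemma geom34_le (N : ℕ) : ∑ k ∈ range N, (3 / 4 : ℝ) ^ k ≤ 4 := by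
  rw [geom34]
  have : (0 : ℝ) ≤ (3 / 4) ^ N := by positivity
  linarith

lemma S_double (N : ℕ) (l x : ℝ) :
    S (N + 1) l (2 * x) = (max (2 * x - l) 0) ^ 2 + 3 * S N l x := by
  unfold S
  rw [sum_range_succ']
  simp only [pow_zero, one_mul]
  rw [add_comm]
  congr 1
  rw [mul_sum]
  refine sum_congr rfl (fun k _ => ?_)
  have h : max (2 * x - 2 ^ (k + 1) * l) 0 = 2 * max (x - 2 ^ k * l) 0 := by
    rw [mul_max_of_nonneg _ _ (by norm_num : (0 : ℝ) ≤ 2)]
    congr 1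
    · ring
    · ring
  rw [h, pow_succ]
  ring

lemma S_stable {N : ℕ} {l x : ℝ} (h : x ≤ 2 ^ N * l) : S (N + 1) l x = S N l x := by
  unfold S
  rw [sum_range_succ, max_eq_right (by linarith)]
  ring

lemma S_mono {N : ℕ} {l x y : ℝ} (h : x ≤ y) : S N l x ≤ S N l y := by
  unfold S
  refine sum_le_sum (fun k _ => ?_)
  refine mul_le_mul_of_nonneg_left ?_ (by positivity)
  refine pow_le_pow_left₀ (le_max_right _ _) ?_ 2
  exact max_le_max (by linarith) le_rfl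

lemma S_nonneg {N : ℕ} {l x : ℝ} : 0 ≤ S N l x := by
  unfold S
  exact sum_nonneg (fun k _ => by positivity)

lemma ramp_lip {x y τ : ℝ} (hx : 0 ≤ x) (hxy : x ≤ y) (hτ : 0 ≤ τ) :
    (max (y - τ) 0) ^ 2 ≤ (max (x - τ) 0) ^ 2 + 2 * y * (y - x) := by
  rcases le_total (y - τ) 0 with h1 | h1
  · rw [max_eq_right h1, max_eq_right (by linarith)]
    nlinarith [mul_nonneg (hx.trans hxy) (sub_nonneg.mpr hxy)]
  · rw [max_eq_left h1]
    rcases le_total (x - τ) 0 with h2 | h2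
    · rw [max_eq_right h2]
      nlinarith [mul_nonneg (hx.trans hxy) (sub_nonneg.mpr hxy),
        mul_nonneg h1 (sub_nonneg.mpr hxy)]
    · rw [max_eq_left h2]
      nlinarith [mul_nonneg (hx.trans hxy) (sub_nonneg.mpr hxy)]

lemma S_lip {N : ℕ} {l x y : ℝ} (hl : 0 ≤ l) (hx : 0 ≤ x) (hxy : x ≤ y) :
    S N l y ≤ S N l x + 8 * y * (y - x) := by
  have h : S N l y ≤ S N l x + ∑ k ∈ range N, (3 / 4 : ℝ) ^ k * (2 * y * (y - x)) := by
    unfold S
    rw [← sum_add_distrib]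
    refine sum_le_sum (fun k _ => ?_)
    rw [← mul_add]
    exact mul_le_mul_of_nonneg_left (ramp_lip hx hxy (by positivity)) (by positivity)
  rw [← sum_mul] at h
  have h2 : (∑ k ∈ range N, (3 / 4 : ℝ) ^ k) * (2 * y * (y - x)) ≤ 4 * (2 * y * (y - x)) :=
    mul_le_mul_of_nonneg_right (geom34_le N)
      (mul_nonneg (by linarith) (sub_nonneg.mpr hxy))
  linarith

/-- the functional of a trapezoid -/
noncomputable def E (N : ℕ) (l g t : ℝ) : ℝ :=
  4 * g * t - 2 * g ^ 2 - (S N l (g + t) - S N l t) / 2 + S N l g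

lemma E_noncross {N : ℕ} {l g t : ℝ} (hl : 0 < l) (ht : 0 ≤ t) (htg : t ≤ g) (hgt : g ≤ t + l)
    (hN : t ≤ 2 ^ N * l) : E (N + 1) l g t ≤ 2 * t * l + 8 * l * (t + l) := by
  unfold E
  have h1 : S (N + 1) l (2 * t) ≤ S (N + 1) l (g + t) := S_mono (by linarith)
  rw [S_double] at h1
  have h2 : S (N + 1) l t = S N l t := S_stable hN
  have h3 : S (N + 1) l g ≤ S (N + 1) l t + 8 * g * (g - t) := S_lip hl.le ht htg
  have h4 : 8 * g * (g - t) ≤ 8 * l * (t + l) := by nlinarith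
  have h5 : 2 * t ^ 2 - (max (2 * t - l) 0) ^ 2 / 2 ≤ 2 * t * l := by
    rcases le_total (2 * t - l) 0 with h | h
    · rw [max_eq_right h]; nlinarith
    · rw [max_eq_left h]; nlinarith
  have h6 : 4 * g * t - 2 * g ^ 2 ≤ 2 * t ^ 2 := by nlinarith [sq_nonneg (g - t)]
  linarith

lemma ramp4 {g t τ : ℝ} (hg : 0 ≤ g) (hgt : g ≤ t) :
    0 ≤ (max (g + t - τ) 0) ^ 2 - (max (t - τ) 0) ^ 2 - (max (g + g - τ) 0) ^ 2
      + (max (g - τ) 0) ^ 2 := by
  rcases le_total (g + t - τ) 0 with h1 | h1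
  · rw [max_eq_right h1, max_eq_right (by linarith : t - τ ≤ 0),
      max_eq_right (by linarith : g + g - τ ≤ 0), max_eq_right (by linarith : g - τ ≤ 0)]
    simp
  rcases le_total (g - τ) 0 with h4 | h4
  · rw [max_eq_left h1, max_eq_right h4]
    rcases le_total (t - τ) 0 with h2 | h2 <;> rcases le_total (g + g - τ) 0 with h3 | h3
    · rw [max_eq_right h2, max_eq_right h3]; nlinarith
    · rw [max_eq_right h2, max_eq_left h3]; nlinarith
    · rw [max_eq_left h2, max_eq_right h3]; nlinarith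
    · rw [max_eq_left h2, max_eq_left h3]
      nlinarith [mul_nonneg h3 h2, mul_nonneg hg (sub_nonneg.mpr hgt), sq_nonneg (g - τ)]
  · rw [max_eq_left h1, max_eq_left h4, max_eq_left (by linarith : (0 : ℝ) ≤ t - τ),
      max_eq_left (by linarith : (0 : ℝ) ≤ g + g - τ)]
    nlinarith [mul_nonneg hg (sub_nonneg.mpr hgt)]

lemma ramp4_eq {g t τ : ℝ} (hg : 0 ≤ g) (hgt : g ≤ t) (hτ : τ ≤ g) :
    (max (g + t - τ) 0) ^ 2 - (max (t - τ) 0) ^ 2 - (max (g + g - τ) 0) ^ 2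
      + (max (g - τ) 0) ^ 2 = 2 * g * (t - g) := by
  rw [max_eq_left (by linarith : (0 : ℝ) ≤ g + t - τ), max_eq_left (by linarith : (0 : ℝ) ≤ g - τ),
    max_eq_left (by linarith : (0 : ℝ) ≤ t - τ), max_eq_left (by linarith : (0 : ℝ) ≤ g + g - τ)]
  ring

lemma E_cross {N e : ℕ} {l g t : ℝ} (hl : 0 < l) (hg : 0 ≤ g) (hgt : g ≤ t)
    (he : 2 ^ e * l ≤ g) (heN : e + 1 ≤ N) :
    E N l g t ≤ E N l g g + 4 * g * (t - g) * (3 / 4) ^ (e + 1) := by
  have h : 2 * g * (t - g) * (4 * (1 - (3 / 4) ^ (e + 1))) ≤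
      S N l (g + t) - S N l t - S N l (g + g) + S N l g := by
    have e1 : S N l (g + t) - S N l t - S N l (g + g) + S N l g
        = ∑ k ∈ range N, (3 / 4 : ℝ) ^ k * ((max (g + t - 2 ^ k * l) 0) ^ 2
          - (max (t - 2 ^ k * l) 0) ^ 2 - (max (g + g - 2 ^ k * l) 0) ^ 2
          + (max (g - 2 ^ k * l) 0) ^ 2) := by
      unfold S
      rw [← sum_sub_distrib, ← sum_sub_distrib, ← sum_add_distrib]
      refine sum_congr rfl (fun k _ => by ring)
    rw [e1, ← geom34, mul_sum]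
    refine le_trans ?_ (sum_le_sum_of_subset_of_nonneg (range_subset_range.mpr heN)
      (fun k _ _ => mul_nonneg (by positivity) (ramp4 hg hgt)))
    refine sum_le_sum (fun k hk => ?_)
    have hk' : k ≤ e := by have := mem_range.mp hk; omega
    have h1 : (2 : ℝ) ^ k * l ≤ g :=
      le_trans (mul_le_mul_of_nonneg_right (pow_le_pow_right₀ (by norm_num) hk') hl.le) he
    rw [ramp4_eq hg hgt h1]
    exact le_of_eq (by ring)
  unfold E
  nlinarith

lemma E_window (K : ℕ) {l : ℝ} (hl : 0 < l) :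
    (17 / 8) * 3 ^ K * l ^ 2 + 2 * 2 ^ K * l ^ 2 ≤
      E (K + 2) l (2 ^ K * l) (2 * (2 ^ K * l)) := by
  induction K with
  | zero =>
    unfold E S
    simp only [sum_range_succ, range_zero, sum_empty, zero_add, pow_zero, one_mul, pow_one]
    rw [max_eq_left (by linarith : (0 : ℝ) ≤ l + 2 * l - l),
      max_eq_left (by linarith : (0 : ℝ) ≤ l + 2 * l - 2 * l),
      max_eq_left (by linarith : (0 : ℝ) ≤ 2 * l - l),
      max_eq_right (by linarith : 2 * l - 2 * l ≤ (0 : ℝ)),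
      max_eq_right (by linarith : l - l ≤ (0 : ℝ)),
      max_eq_right (by linarith : l - 2 * l ≤ (0 : ℝ))]
    nlinarith
  | succ K ih =>
    set θ : ℝ := 2 ^ K * l with hθ
    have e1 : (2 : ℝ) ^ (K + 1) * l = 2 * θ := by rw [hθ, pow_succ]; ring
    have hθl : l ≤ θ := by
      rw [hθ]
      have : (1 : ℝ) ≤ 2 ^ K := one_le_pow₀ (by norm_num)
      nlinarith
    have e2 : E (K + 1 + 2) l (2 * θ) (2 * (2 * θ))
        = 3 * E (K + 2) l θ (2 * θ) - 2 * θ * l + l ^ 2 := by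
      unfold E
      have d1 : (2 * θ + 2 * (2 * θ)) = 2 * (θ + 2 * θ) := by ring
      rw [d1, show K + 1 + 2 = (K + 2) + 1 from rfl, S_double (K + 2) l (θ + 2 * θ),
        S_double (K + 2) l (2 * θ), S_double (K + 2) l θ,
        max_eq_left (by linarith : (0 : ℝ) ≤ 2 * (θ + 2 * θ) - l),
        max_eq_left (by linarith : (0 : ℝ) ≤ 2 * (2 * θ) - l),
        max_eq_left (by linarith : (0 : ℝ) ≤ 2 * θ - l)]
      ring
    rw [e1, e2]
    have e3 : θ * l = 2 ^ K * l ^ 2 := by rw [hθ]; ring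
    have e4 : (3 : ℝ) ^ (K + 1) = 3 * 3 ^ K := by rw [pow_succ]; ring
    have e5 : (2 : ℝ) ^ (K + 1) = 2 * 2 ^ K := by rw [pow_succ]; ring
    rw [e4, e5]
    nlinarith [sq_nonneg l]

/-- Riemann sums of ramps -/
lemma ramp_sum_le (J : ℕ) {l : ℝ} (hl : 0 < l) (c : ℝ) :
    l * ∑ j ∈ range J, max (j * l - c) 0 ≤
      ((max (J * l - c) 0) ^ 2 - (max (-c) 0) ^ 2) / 2 := by
  induction J with
  | zero => simp
  | succ J ih =>
    rw [sum_range_succ, mul_add]
    have h : l * max ((J : ℝ) * l - c) 0 ≤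
        ((max (((J + 1 : ℕ) : ℝ) * l - c) 0) ^ 2 - (max ((J : ℝ) * l - c) 0) ^ 2) / 2 := by
      push_cast
      rcases le_total ((J : ℝ) * l - c) 0 with h1 | h1
      · rw [max_eq_right h1]
        have : 0 ≤ (max (((J : ℝ) + 1) * l - c) 0) ^ 2 := by positivity
        linarith
      · rw [max_eq_left h1, max_eq_left (by nlinarith : (0 : ℝ) ≤ ((J : ℝ) + 1) * l - c)]
        nlinarith [sq_nonneg l]
    linarith

lemma le_ramp_sum (J : ℕ) {l : ℝ} (hl : 0 < l) (c : ℝ) :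
    ((max (J * l - c) 0) ^ 2 - (max (-c) 0) ^ 2) / 2 ≤
      l * ∑ j ∈ range J, max (j * l - c) 0 + J * l ^ 2 / 2 := by
  induction J with
  | zero => simp
  | succ J ih =>
    rw [sum_range_succ, mul_add]
    have h : ((max (((J + 1 : ℕ) : ℝ) * l - c) 0) ^ 2 - (max ((J : ℝ) * l - c) 0) ^ 2) / 2 ≤
        l * max ((J : ℝ) * l - c) 0 + l ^ 2 / 2 := by
      push_cast
      rcases le_total ((J : ℝ) * l - c) 0 with h1 | h1
      · rw [max_eq_right h1]
        rcases le_total (((J : ℝ) + 1) * l - c) 0 with h2 | h2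
        · rw [max_eq_right h2]; nlinarith [sq_nonneg l]
        · rw [max_eq_left h2]
          have h3 : ((J : ℝ) + 1) * l - c ≤ l := by nlinarith
          nlinarith
      · rw [max_eq_left h1, max_eq_left (by nlinarith : (0 : ℝ) ≤ ((J : ℝ) + 1) * l - c)]
        nlinarith [sq_nonneg l]
    push_cast at h ⊢
    linarith

lemma tent_eq {x t τ : ℝ} (ht : 0 ≤ t) :
    max (t - |x - τ|) 0 = max (x - (τ - t)) 0 - 2 * max (x - τ) 0 + max (x - (τ + t)) 0 := by
  rcases le_total (x - τ) 0 with h1 | h1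
  · rw [abs_of_nonpos h1, max_eq_right h1, max_eq_right (by linarith : x - (τ + t) ≤ 0)]
    have : t - -(x - τ) = x - (τ - t) := by ring
    rw [this]; ring
  · rw [abs_of_nonneg h1, max_eq_left h1, max_eq_left (by linarith : (0 : ℝ) ≤ x - (τ - t))]
    rcases le_total (x - (τ + t)) 0 with h2 | h2
    · rw [max_eq_right h2, max_eq_left (by linarith : (0 : ℝ) ≤ t - (x - τ))]; ring
    · rw [max_eq_left h2, max_eq_right (by linarith : t - (x - τ) ≤ 0)]; ring

lemma tent_lower (J : ℕ) {l t τ : ℝ} (hl : 0 < l) (ht : 0 ≤ t) (hτ : 0 ≤ τ) :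
    ((max (J * l + t - τ) 0) ^ 2 - (max (t - τ) 0) ^ 2) / 2 - (max (J * l - τ) 0) ^ 2
      - J * l ^ 2 / 2 ≤ l * ∑ j ∈ range J, max (t - |j * l - τ|) 0 := by
  have h0 : ∑ j ∈ range J, max (t - |(j : ℝ) * l - τ|) 0 =
      ∑ j ∈ range J, max ((j : ℝ) * l - (τ - t)) 0 - 2 * ∑ j ∈ range J, max ((j : ℝ) * l - τ) 0
        + ∑ j ∈ range J, max ((j : ℝ) * l - (τ + t)) 0 := by
    rw [mul_sum, ← sum_sub_distrib, ← sum_add_distrib]
    exact sum_congr rfl (fun j _ => tent_eq ht)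
  rw [h0]
  have h1 := le_ramp_sum J hl (τ - t)
  have h2 := ramp_sum_le J hl τ
  have h3 : 0 ≤ l * ∑ j ∈ range J, max ((j : ℝ) * l - (τ + t)) 0 :=
    mul_nonneg hl.le (sum_nonneg (fun _ _ => le_max_right _ _))
  rw [max_eq_right (by linarith : -τ ≤ 0)] at h2
  have e1 : (J : ℝ) * l - (τ - t) = J * l + t - τ := by ring
  have e2 : -(τ - t) = t - τ := by ring
  rw [e1, e2] at h1
  nlinarith

lemma tent_upper (J : ℕ) {l t τ : ℝ} (hl : 0 < l) (ht : J * l ≤ t) (hτ : 0 ≤ τ) :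
    l * ∑ j ∈ range J, max (t - |j * l - τ|) 0 ≤
      ((max (J * l + t - τ) 0) ^ 2 - (max (t - τ) 0) ^ 2) / 2 - (max (J * l - τ) 0) ^ 2
      + J * l ^ 2 := by
  have ht0 : 0 ≤ t := le_trans (by positivity) ht
  have h0 : ∑ j ∈ range J, max (t - |(j : ℝ) * l - τ|) 0 =
      ∑ j ∈ range J, max ((j : ℝ) * l - (τ - t)) 0 - 2 * ∑ j ∈ range J, max ((j : ℝ) * l - τ) 0
        + ∑ j ∈ range J, max ((j : ℝ) * l - (τ + t)) 0 := by
    rw [mul_sum, ← sum_sub_distrib, ← sum_add_distrib]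
    exact sum_congr rfl (fun j _ => tent_eq ht0)
  have h3 : ∑ j ∈ range J, max ((j : ℝ) * l - (τ + t)) 0 = 0 := by
    refine sum_eq_zero (fun j hj => max_eq_right ?_)
    have : (j : ℝ) ≤ J := by exact_mod_cast (mem_range.mp hj).le
    nlinarith
  rw [h0, h3]
  have h1 := ramp_sum_le J hl (τ - t)
  have h2 := le_ramp_sum J hl τ
  rw [max_eq_right (by linarith : -τ ≤ 0)] at h2
  have e1 : (J : ℝ) * l - (τ - t) = J * l + t - τ := by ring
  have e2 : -(τ - t) = t - τ := by ring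
  rw [e1, e2] at h1
  nlinarith

end Pool.Agent.H819
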