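import Mathlib
import Pool.Agent.H819.Gasket1

set_option autoImplicit false

namespace Pool.Agent.H819

open Finset

/-- positions at scale `τ` attached to the triangle `(a, b, z)` -/
noncomputable def A (M L : ℕ) (l u : ℝ) (a b : ℕ) (z τ : ℝ) : Finset (ℕ × ℕ) :=
  open Classical in
  (range M ×ˢ range L).filter (fun c => a ≤ c.1 ∧ b ≤ c.2 ∧ c.1 * l + b * u < z ∧
    a * l + c.2 * u < z ∧ a * l + b * u + τ ≤ c.1 * l + c.2 * u ∧ c.1 * l + c.2 * u < z + τ)

lemma mem_A {M L : ℕ} {l u : ℝ} {a b : ℕ} {z τ : ℝ} {c : ℕ × ℕ} :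
    c ∈ A M L l u a b z τ ↔ (c.1 < M ∧ c.2 < L) ∧ a ≤ c.1 ∧ b ≤ c.2 ∧ c.1 * l + b * u < z ∧
    a * l + c.2 * u < z ∧ a * l + b * u + τ ≤ c.1 * l + c.2 * u ∧ c.1 * l + c.2 * u < z + τ := by
  unfold A
  simp only [mem_filter, mem_product, mem_range]

lemma A_disj {M L : ℕ} {l u : ℝ} (hl : 0 < l) (hu : 0 < u) {a b a' b' : ℕ} {z z' τ : ℝ}
    (h : min z z' ≤ (max a a' : ℕ) * l + (max b b' : ℕ) * u) :
    Disjoint (A M L l u a b z τ) (A M L l u a' b' z' τ) := by
  rw [Finset.disjoint_left]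
  rintro ⟨m, n⟩ h1 h2
  rw [mem_A] at h1 h2
  obtain ⟨_, ha, hb, h3, h4, h5, h6⟩ := h1
  obtain ⟨_, ha', hb', h3', h4', h5', h6'⟩ := h2
  simp only at *
  have p1 : (a : ℝ) * l ≤ m * l := mul_le_mul_of_nonneg_right (by exact_mod_cast ha) hl.le
  have p2 : (a' : ℝ) * l ≤ m * l := mul_le_mul_of_nonneg_right (by exact_mod_cast ha') hl.le
  have p3 : (b : ℝ) * u ≤ n * u := mul_le_mul_of_nonneg_right (by exact_mod_cast hb) hu.le
  have p4 : (b' : ℝ) * u ≤ n * u := mul_le_mul_of_nonneg_right (by exact_mod_cast hb') hu.le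
  rcases le_total a a' with e1 | e1 <;> rcases le_total b b' with e2 | e2 <;>
    rcases le_total z z' with e3 | e3
  all_goals
    first
    | rw [max_eq_right e1] at h
    | rw [max_eq_left e1] at h
  all_goals
    first
    | rw [max_eq_right e2] at h
    | rw [max_eq_left e2] at h
  all_goals
    first
    | rw [min_eq_left e3] at h
    | rw [min_eq_right e3] at h
  all_goals linarith

lemma A_sub {M L : ℕ} {l u : ℝ} (hl : 0 < l) (hu : 0 < u) {a b : ℕ} {z Z τ : ℝ} (hz : z ≤ Z) :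
    A M L l u a b z τ ⊆ A M L l u 0 0 Z τ := by
  rintro ⟨m, n⟩ h1
  rw [mem_A] at h1 ⊢
  obtain ⟨h0, ha, hb, h3, h4, h5, h6⟩ := h1
  simp only at *
  have p0 : (0 : ℝ) ≤ a * l := by positivity
  have p1 : (0 : ℝ) ≤ b * u := by positivity
  refine ⟨h0, Nat.zero_le _, Nat.zero_le _, ?_, ?_, ?_, ?_⟩
  · push_cast; linarith
  · push_cast; linarith
  · push_cast; linarith
  · linarith

/-- counting multiples in an interval -/
lemma card_Ico_ge {u x y : ℝ} (hu : 0 < u) (hx : 0 ≤ x) :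
    (y - x) / u - 1 ≤ ((Ico ⌈x / u⌉₊ ⌈y / u⌉₊).card : ℝ) := by
  rw [Nat.card_Ico]
  have h1 : (⌈x / u⌉₊ : ℝ) < x / u + 1 := Nat.ceil_lt_add_one (by positivity)
  have h2 : y / u ≤ ⌈y / u⌉₊ := Nat.le_ceil _
  have h3 : (⌈y / u⌉₊ : ℝ) ≤ ((⌈y / u⌉₊ - ⌈x / u⌉₊ : ℕ) : ℝ) + ⌈x / u⌉₊ := by
    exact_mod_cast Nat.sub_le_iff_le_add.mp le_rfl
  have h4 : (y - x) / u = y / u - x / u := by ring
  linarith

lemma card_Ico_le {u x y : ℝ} (hu : 0 < u) (hy : 0 ≤ y) :
    ((Ico ⌈x / u⌉₊ ⌈y / u⌉₊).card : ℝ) ≤ max (y - x) 0 / u + 1 := by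
  rw [Nat.card_Ico]
  rcases le_total ⌈y / u⌉₊ ⌈x / u⌉₊ with h | h
  · rw [Nat.sub_eq_zero_of_le h]
    have : 0 ≤ max (y - x) 0 / u := by positivity
    push_cast; linarith
  · rw [Nat.cast_sub h]
    have h1 : x / u ≤ ⌈x / u⌉₊ := Nat.le_ceil _
    have h2 : (⌈y / u⌉₊ : ℝ) < y / u + 1 := Nat.ceil_lt_add_one (by positivity)
    have h3 : (y - x) / u ≤ max (y - x) 0 / u := div_le_div_of_nonneg_right (le_max_left _ _) hu.le
    have h4 : (y - x) / u = y / u - x / u := by ring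
    linarith

lemma mem_Ico_ceil {u x y : ℝ} (hu : 0 < u) (n : ℕ) :
    n ∈ Ico ⌈x / u⌉₊ ⌈y / u⌉₊ ↔ x ≤ n * u ∧ n * u < y := by
  rw [mem_Ico, Nat.ceil_le, Nat.lt_ceil, div_le_iff₀ hu, lt_div_iff₀ hu]

/-- lower bound through columns -/
lemma card_A_ge {M L : ℕ} {l u : ℝ} (hl : 0 < l) (hu : 0 < u) {a b : ℕ} {z τ : ℝ}
    (hL : z ≤ L * u) (J : ℕ) (hJ : a + J ≤ M)
    (hJt : ∀ j < J, (j : ℝ) * l < z - a * l - b * u) :
    ∑ j ∈ range J, (max ((z - a * l - b * u) - |j * l - τ|) 0 / u - 1) ≤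
      ((A M L l u a b z τ).card : ℝ) := by
  classical
  set t : ℝ := z - a * l - b * u with ht
  have hsub : ((range J).sigma (fun j => Ico ⌈(b * u + max (τ - j * l) 0) / u⌉₊
      ⌈(b * u + (t + min (τ - j * l) 0)) / u⌉₊)).card ≤ (A M L l u a b z τ).card := by
    refine card_le_card_of_injOn (fun x => (a + x.1, x.2)) ?_ ?_
    · rintro ⟨j, n⟩ hx
      simp only [coe_sigma, Set.mem_sigma_iff, mem_coe, mem_range] at hx
      obtain ⟨hj, hn⟩ := hx
      rw [mem_Ico_ceil hu] at hn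
      obtain ⟨h1, h2⟩ := hn
      have h3 := hJt j hj
      have m1 : (0 : ℝ) ≤ max (τ - j * l) 0 := le_max_right _ _
      have m2 : τ - j * l ≤ max (τ - j * l) 0 := le_max_left _ _
      have m3 : min (τ - j * l) 0 ≤ 0 := min_le_right _ _
      have m4 : min (τ - j * l) 0 ≤ τ - j * l := min_le_left _ _
      have p0 : (0 : ℝ) ≤ a * l := by positivity
      have hbn : b ≤ n := by
        have : (b : ℝ) * u ≤ n * u := by linarith
        exact_mod_cast le_of_mul_le_mul_right this hu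
      have hnL : n < L := by
        have : (n : ℝ) * u < L * u := by linarith
        exact_mod_cast lt_of_mul_lt_mul_right this hu.le
      simp only [mem_coe]
      rw [mem_A]
      refine ⟨⟨by simp only; omega, hnL⟩, by simp, hbn, ?_, ?_, ?_, ?_⟩
      · push_cast; linarith
      · simp only; linarith
      · push_cast; linarith
      · push_cast; linarith
    · rintro ⟨j, n⟩ _ ⟨j', n'⟩ _ h
      simp only [Prod.mk.injEq] at h
      obtain ⟨h1, h2⟩ := h
      have : j = j' := by omega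
      subst this; subst h2; rfl
  rw [card_sigma] at hsub
  refine le_trans ?_ (show ((∑ j ∈ range J, (Ico ⌈(b * u + max (τ - j * l) 0) / u⌉₊
      ⌈(b * u + (t + min (τ - j * l) 0)) / u⌉₊).card : ℕ) : ℝ) ≤ _ by exact_mod_cast hsub)
  push_cast
  refine sum_le_sum (fun j _ => ?_)
  have h1 := card_Ico_ge (u := u) (x := b * u + max (τ - j * l) 0)
    (y := b * u + (t + min (τ - j * l) 0)) hu (by positivity)
  have h2 : (b * u + (t + min (τ - j * l) 0)) - (b * u + max (τ - j * l) 0) = t - |j * l - τ| := by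
    rcases le_total (τ - j * l) 0 with h | h
    · rw [max_eq_right h, min_eq_left h, abs_of_nonneg (by linarith)]; ring
    · rw [max_eq_left h, min_eq_right h, abs_of_nonpos (by linarith)]; ring
  rw [h2] at h1
  rcases le_total (t - |j * l - τ|) 0 with h | h
  · rw [max_eq_right h]
    have : (0 : ℝ) ≤ ((Ico ⌈(b * u + max (τ - j * l) 0) / u⌉₊
      ⌈(b * u + (t + min (τ - j * l) 0)) / u⌉₊).card : ℝ) := Nat.cast_nonneg _
    simp only [zero_div]
    linarith
  · rw [max_eq_left h]; exact h1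

/-- upper bound through columns -/
lemma card_A_le {M L : ℕ} {l u : ℝ} (hu : 0 < u) {a b : ℕ} {z τ : ℝ} (hτ : 0 ≤ τ)
    (J : ℕ) (hJt : ∀ m : ℕ, m < M → a ≤ m → m * l + b * u < z → m < a + J)
    (ht : 0 ≤ z - a * l - b * u) (hJt' : ∀ j < J, (j : ℝ) * l ≤ z - a * l - b * u) :
    ((A M L l u a b z τ).card : ℝ) ≤
      ∑ j ∈ range J, (max ((z - a * l - b * u) - |j * l - τ|) 0 / u + 1) := by
  classical
  set t : ℝ := z - a * l - b * u with ht'
  have hsub : (A M L l u a b z τ).card ≤ ((range J).sigma (fun j =>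
      Ico ⌈(b * u + max (τ - j * l) 0) / u⌉₊
      ⌈(b * u + (t + min (τ - j * l) 0)) / u⌉₊)).card := by
    refine card_le_card_of_injOn (fun x => (⟨x.1 - a, x.2⟩ : Σ _ : ℕ, ℕ)) ?_ ?_
    · rintro ⟨m, n⟩ hx
      simp only [mem_coe] at hx
      rw [mem_A] at hx
      obtain ⟨⟨hm, hn⟩, ha, hb, h3, h4, h5, h6⟩ := hx
      simp only at *
      have hmJ := hJt m hm ha h3
      simp only [coe_sigma, Set.mem_sigma_iff, mem_coe, mem_range]
      refine ⟨by omega, ?_⟩
      rw [mem_Ico_ceil hu, Nat.cast_sub ha]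
      have p3 : (b : ℝ) * u ≤ n * u := mul_le_mul_of_nonneg_right (by exact_mod_cast hb) hu.le
      constructor
      · rcases le_total (τ - (m - a : ℝ) * l) 0 with h | h
        · rw [max_eq_right h]; linarith
        · rw [max_eq_left h]; linarith
      · rcases le_total (τ - (m - a : ℝ) * l) 0 with h | h
        · rw [min_eq_left h]; linarith
        · rw [min_eq_right h]; linarith
    · rintro ⟨m, n⟩ h1 ⟨m', n'⟩ h2 h
      simp only [mem_coe] at h1 h2
      rw [mem_A] at h1 h2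
      have e1 := h1.2.1
      have e2 := h2.2.1
      simp only [Sigma.mk.injEq, heq_eq_eq] at h
      simp only at e1 e2
      obtain ⟨h3, h4⟩ := h
      have : m = m' := by omega
      subst this; subst h4; rfl
  rw [card_sigma] at hsub
  refine le_trans (show ((A M L l u a b z τ).card : ℝ) ≤ ((∑ j ∈ range J,
      (Ico ⌈(b * u + max (τ - j * l) 0) / u⌉₊
      ⌈(b * u + (t + min (τ - j * l) 0)) / u⌉₊).card : ℕ) : ℝ) by exact_mod_cast hsub) ?_
  push_cast
  refine sum_le_sum (fun j hj => ?_)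
  have hj' := hJt' j (mem_range.mp hj)
  have h0 : 0 ≤ t + min (τ - j * l) 0 := by
    rcases le_total (τ - j * l) 0 with h | h
    · rw [min_eq_left h]; linarith
    · rw [min_eq_right h]; linarith
  have h1 := card_Ico_le (u := u) (x := b * u + max (τ - j * l) 0)
    (y := b * u + (t + min (τ - j * l) 0)) hu (by positivity)
  have h2 : (b * u + (t + min (τ - j * l) 0)) - (b * u + max (τ - j * l) 0) = t - |j * l - τ| := by
    rcases le_total (τ - j * l) 0 with h | h
    · rw [max_eq_right h, min_eq_left h, abs_of_nonneg (by linarith)]; ring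
    · rw [max_eq_left h, min_eq_right h, abs_of_nonpos (by linarith)]; ring
  rw [h2] at h1
  exact h1

end Pool.Agent.H819
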