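import Mathlib
import Pool.Agent.H819.Gasket2

set_option autoImplicit false

namespace Pool.Agent.H819

open Finset

lemma lin_sum (J : ℕ) (l t : ℝ) :
    l * ∑ j ∈ range J, (t - j * l) = (J * l) * t - (J * l) ^ 2 / 2 + (J * l) * l / 2 := by
  induction J with
  | zero => simp
  | succ J ih => rw [sum_range_succ, mul_add, ih]; push_cast; ring

/-- the cost of one triangle -/
noncomputable def cost (N M L : ℕ) (l u : ℝ) (a b : ℕ) (z : ℝ) : ℝ :=
  4 * (l * u) * ((A M L l u a b z 0).card : ℝ)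
    - l * u * ∑ k ∈ range N, (3 / 4 : ℝ) ^ k * ((A M L l u a b z (2 ^ k * l)).card : ℝ)

lemma cost_le {N M L : ℕ} {l u : ℝ} (hl : 0 < l) (hu : 0 < u) {a b : ℕ} {z : ℝ}
    (hL : z ≤ L * u) (ht : 0 ≤ z - a * l - b * u) (J : ℕ) (hJ : a + J ≤ M)
    (hJt : ∀ j < J, (j : ℝ) * l < z - a * l - b * u)
    (hJm : ∀ m : ℕ, m < M → a ≤ m → m * l + b * u < z → m < a + J) :
    cost N M L l u a b z ≤ E N l (J * l) (z - a * l - b * u) + J * (4 * l ^ 2 + 8 * (l * u)) := by
  set t : ℝ := z - a * l - b * u with ht'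
  have hlu : 0 < l * u := mul_pos hl hu
  -- near count
  have h1 := card_A_le (M := M) (L := L) (a := a) (b := b) (z := z) (τ := 0) (l := l) hu le_rfl J hJm ht
    (fun j hj => (hJt j hj).le)
  have h2 : 4 * (l * u) * ((A M L l u a b z 0).card : ℝ) ≤
      4 * ((J * l) * t - (J * l) ^ 2 / 2 + (J * l) * l / 2) + 4 * J * (l * u) := by
    have h3 : ∑ j ∈ range J, (max ((z - a * l - b * u) - |(j : ℝ) * l - 0|) 0 / u + 1)
        = (∑ j ∈ range J, (t - j * l)) / u + J := by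
      rw [sum_add_distrib, sum_div, sum_const, card_range, nsmul_eq_mul, mul_one]
      congr 1
      refine sum_congr rfl (fun j hj => ?_)
      have h4 := hJt j (mem_range.mp hj)
      have h5 : (0 : ℝ) ≤ j * l := by positivity
      rw [sub_zero, abs_of_nonneg h5, max_eq_left (by linarith)]
    rw [h3] at h1
    have h4 := mul_le_mul_of_nonneg_left h1 (by positivity : 0 ≤ 4 * (l * u))
    refine h4.trans (le_of_eq ?_)
    rw [← lin_sum]
    field_simp
  -- positions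
  have h5 : ∀ k : ℕ, ((max (J * l + t - 2 ^ k * l) 0) ^ 2 - (max (t - 2 ^ k * l) 0) ^ 2) / 2
      - (max (J * l - 2 ^ k * l) 0) ^ 2 - J * l ^ 2 / 2 - J * (l * u) ≤
      l * u * ((A M L l u a b z (2 ^ k * l)).card : ℝ) := by
    intro k
    have h6 := card_A_ge (M := M) (L := L) (τ := 2 ^ k * l) hl hu hL J hJ hJt
    have h7 := tent_lower J hl ht (by positivity : (0 : ℝ) ≤ 2 ^ k * l)
    rw [← ht'] at h6
    have h8 := mul_le_mul_of_nonneg_left h6 hlu.le
    have h9 : l * u * ∑ j ∈ range J, (max (t - |(j : ℝ) * l - 2 ^ k * l|) 0 / u - 1)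
        = l * ∑ j ∈ range J, max (t - |(j : ℝ) * l - 2 ^ k * l|) 0 - J * (l * u) := by
      rw [sum_sub_distrib, ← sum_div, sum_const, card_range, nsmul_eq_mul, mul_one]
      field_simp
    rw [h9] at h8
    linarith
  have h6 : (S N l (J * l + t) - S N l t) / 2 - S N l (J * l)
      - 4 * (J * l ^ 2 / 2 + J * (l * u)) ≤
      l * u * ∑ k ∈ range N, (3 / 4 : ℝ) ^ k * ((A M L l u a b z (2 ^ k * l)).card : ℝ) := by
    have h7 : ∑ k ∈ range N, (3 / 4 : ℝ) ^ k *
        (((max (J * l + t - 2 ^ k * l) 0) ^ 2 - (max (t - 2 ^ k * l) 0) ^ 2) / 2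
      - (max (J * l - 2 ^ k * l) 0) ^ 2 - J * l ^ 2 / 2 - J * (l * u)) ≤
        ∑ k ∈ range N, (3 / 4 : ℝ) ^ k * (l * u * ((A M L l u a b z (2 ^ k * l)).card : ℝ)) :=
      sum_le_sum (fun k _ => mul_le_mul_of_nonneg_left (h5 k) (by positivity))
    have h8 : ∑ k ∈ range N, (3 / 4 : ℝ) ^ k *
        (((max (J * l + t - 2 ^ k * l) 0) ^ 2 - (max (t - 2 ^ k * l) 0) ^ 2) / 2
      - (max (J * l - 2 ^ k * l) 0) ^ 2 - J * l ^ 2 / 2 - J * (l * u)) =
        (S N l (J * l + t) - S N l t) / 2 - S N l (J * l)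
        - (∑ k ∈ range N, (3 / 4 : ℝ) ^ k) * (J * l ^ 2 / 2 + J * (l * u)) := by
      unfold S
      rw [sum_mul, ← sum_sub_distrib, sum_div, ← sum_sub_distrib, ← sum_sub_distrib]
      refine sum_congr rfl (fun k _ => by ring)
    have h9 : ∑ k ∈ range N, (3 / 4 : ℝ) ^ k * (l * u * ((A M L l u a b z (2 ^ k * l)).card : ℝ))
        = l * u * ∑ k ∈ range N, (3 / 4 : ℝ) ^ k * ((A M L l u a b z (2 ^ k * l)).card : ℝ) := by
      rw [mul_sum]; exact sum_congr rfl (fun k _ => by ring)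
    have h10 := mul_le_mul_of_nonneg_right (geom34_le N)
      (by positivity : (0 : ℝ) ≤ J * l ^ 2 / 2 + J * (l * u))
    linarith
  unfold cost E
  nlinarith

lemma window_ge {N M L : ℕ} {l u Z : ℝ} (hl : 0 < l) (hu : 0 < u) (hL : Z ≤ L * u)
    (hM : M * l < Z) :
    E N l (M * l) Z - M * (4 * l ^ 2 + 8 * (l * u)) ≤ cost N M L l u 0 0 Z := by
  have hlu : 0 < l * u := mul_pos hl hu
  have hZ : 0 ≤ Z := le_trans (by positivity) hM.le
  have e0 : Z - ((0 : ℕ) : ℝ) * l - ((0 : ℕ) : ℝ) * u = Z := by simp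
  have hJ : ∀ j < M, (j : ℝ) * l < Z - ((0 : ℕ) : ℝ) * l - ((0 : ℕ) : ℝ) * u := by
    intro j hj
    rw [e0]
    have : (j : ℝ) ≤ M := by exact_mod_cast hj.le
    have := mul_le_mul_of_nonneg_right this hl.le
    linarith
  have h1 := card_A_ge (M := M) (L := L) (a := 0) (b := 0) (z := Z) (τ := 0) hl hu hL M (by omega) hJ
  have h2 : 4 * ((M * l) * Z - (M * l) ^ 2 / 2) - 4 * M * (l * u) ≤
      4 * (l * u) * ((A M L l u 0 0 Z 0).card : ℝ) := by
    have h3 : ∑ j ∈ range M, (max ((Z - ((0 : ℕ) : ℝ) * l - ((0 : ℕ) : ℝ) * u)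
        - |(j : ℝ) * l - 0|) 0 / u - 1) = (∑ j ∈ range M, (Z - j * l)) / u - M := by
      rw [sum_sub_distrib, sum_div, sum_const, card_range, nsmul_eq_mul, mul_one]
      congr 1
      refine sum_congr rfl (fun j hj => ?_)
      have h4 := hJ j (mem_range.mp hj)
      rw [e0] at h4 ⊢
      have h5 : (0 : ℝ) ≤ j * l := by positivity
      rw [sub_zero, abs_of_nonneg h5, max_eq_left (by linarith)]
    rw [h3] at h1
    have h4 := mul_le_mul_of_nonneg_left h1 (by positivity : 0 ≤ 4 * (l * u))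
    have h5 : 4 * (l * u) * ((∑ j ∈ range M, (Z - j * l)) / u - M)
        = 4 * (l * ∑ j ∈ range M, (Z - j * l)) - 4 * M * (l * u) := by
      field_simp
    rw [h5, lin_sum] at h4
    have h6 : 0 ≤ (M : ℝ) * l * l / 2 := by positivity
    linarith
  have h5 : ∀ k : ℕ, l * u * ((A M L l u 0 0 Z (2 ^ k * l)).card : ℝ) ≤
      ((max (M * l + Z - 2 ^ k * l) 0) ^ 2 - (max (Z - 2 ^ k * l) 0) ^ 2) / 2
      - (max (M * l - 2 ^ k * l) 0) ^ 2 + M * l ^ 2 + M * (l * u) := by
    intro k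
    have h6 := card_A_le (M := M) (L := L) (a := 0) (b := 0) (z := Z) (τ := 2 ^ k * l) (l := l) hu
      (by positivity) M (fun m hm _ _ => by omega) (by rw [e0]; exact hZ)
      (fun j hj => (hJ j hj).le)
    rw [e0] at h6
    have h7 := tent_upper M hl hM.le (by positivity : (0 : ℝ) ≤ 2 ^ k * l)
    have h8 := mul_le_mul_of_nonneg_left h6 hlu.le
    have h9 : l * u * ∑ j ∈ range M, (max (Z - |(j : ℝ) * l - 2 ^ k * l|) 0 / u + 1)
        = l * ∑ j ∈ range M, max (Z - |(j : ℝ) * l - 2 ^ k * l|) 0 + M * (l * u) := by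
      rw [sum_add_distrib, ← sum_div, sum_const, card_range, nsmul_eq_mul, mul_one]
      field_simp
    rw [h9] at h8
    linarith
  have h6 : l * u * ∑ k ∈ range N, (3 / 4 : ℝ) ^ k * ((A M L l u 0 0 Z (2 ^ k * l)).card : ℝ) ≤
      (S N l (M * l + Z) - S N l Z) / 2 - S N l (M * l) + 4 * (M * l ^ 2 + M * (l * u)) := by
    have h7 : ∑ k ∈ range N, (3 / 4 : ℝ) ^ k * (l * u * ((A M L l u 0 0 Z (2 ^ k * l)).card : ℝ)) ≤
        ∑ k ∈ range N, (3 / 4 : ℝ) ^ k *
        (((max (M * l + Z - 2 ^ k * l) 0) ^ 2 - (max (Z - 2 ^ k * l) 0) ^ 2) / 2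
      - (max (M * l - 2 ^ k * l) 0) ^ 2 + M * l ^ 2 + M * (l * u)) :=
      sum_le_sum (fun k _ => mul_le_mul_of_nonneg_left (h5 k) (by positivity))
    have h8 : ∑ k ∈ range N, (3 / 4 : ℝ) ^ k *
        (((max (M * l + Z - 2 ^ k * l) 0) ^ 2 - (max (Z - 2 ^ k * l) 0) ^ 2) / 2
      - (max (M * l - 2 ^ k * l) 0) ^ 2 + M * l ^ 2 + M * (l * u)) =
        (S N l (M * l + Z) - S N l Z) / 2 - S N l (M * l)
        + (∑ k ∈ range N, (3 / 4 : ℝ) ^ k) * (M * l ^ 2 + M * (l * u)) := by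
      unfold S
      rw [sum_mul, ← sum_sub_distrib, sum_div, ← sum_sub_distrib, ← sum_add_distrib]
      refine sum_congr rfl (fun k _ => by ring)
    have h9 : ∑ k ∈ range N, (3 / 4 : ℝ) ^ k * (l * u * ((A M L l u 0 0 Z (2 ^ k * l)).card : ℝ))
        = l * u * ∑ k ∈ range N, (3 / 4 : ℝ) ^ k * ((A M L l u 0 0 Z (2 ^ k * l)).card : ℝ) := by
      rw [mul_sum]; exact sum_congr rfl (fun k _ => by ring)
    have h10 := mul_le_mul_of_nonneg_right (geom34_le N)
      (by positivity : (0 : ℝ) ≤ M * l ^ 2 + M * (l * u))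
    linarith
  unfold cost E
  nlinarith

/-- bound of the cost of a triangle in the window -/
lemma cost_bound {K L : ℕ} {l u : ℝ} (hl : 0 < l) (hu : 0 < u) {a b : ℕ} {z : ℝ}
    (hL : 2 * (2 ^ K * l) ≤ L * u) (hz : z ≤ 2 * (2 ^ K * l)) (ha : a < 2 ^ K)
    (ht : a * l + b * u < z)
    (hcr : (2 : ℝ) ^ K * l + b * u < z → 32 * (2 ^ K - a) ≤ 2 ^ K) :
    cost (K + 2) (2 ^ K) L l u a b z ≤ (14 * l + 8 * u) * ((z - a * l - b * u) + l)
      + (64 / 81) * l * (3 / 2) ^ K * max (z - b * u - 2 ^ K * l) 0 := by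
  set t : ℝ := z - a * l - b * u with ht'
  have ht0 : 0 < t := by rw [ht']; linarith
  have p0 : (0 : ℝ) ≤ a * l := by positivity
  have p1 : (0 : ℝ) ≤ b * u := by positivity
  have htK : t ≤ 2 ^ (K + 1) * l := by rw [pow_succ, ht']; linarith
  rcases le_or_gt z (2 ^ K * l + b * u) with hnc | hc
  · -- non-crossing
    rw [max_eq_right (by linarith), mul_zero, add_zero]
    set J := ⌈t / l⌉₊ with hJ
    have hJ1 : t ≤ J * l := by
      have := Nat.le_ceil (t / l)
      rwa [div_le_iff₀ hl] at this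
    have hJ2 : (J : ℝ) * l < t + l := by
      have h := Nat.ceil_lt_add_one (a := t / l) (by positivity)
      have h2 := mul_lt_mul_of_pos_right h hl
      rwa [add_mul, div_mul_cancel₀ _ hl.ne', one_mul] at h2
    have hJM : a + J ≤ 2 ^ K := by
      have h1 : J ≤ 2 ^ K - a := by
        rw [hJ, Nat.ceil_le, div_le_iff₀ hl, Nat.cast_sub ha.le]
        push_cast; rw [ht']; linarith
      omega
    have h := cost_le (N := K + 2) (M := 2 ^ K) (a := a) (b := b) (z := z) hl hu (hz.trans hL) ht0.le J hJM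
      (fun j hj => by
        have h1 : (j : ℝ) < t / l := Nat.lt_ceil.mp hj
        rwa [lt_div_iff₀ hl] at h1)
      (fun m _ hm hmz => by
        have h1 : ((m - a : ℕ) : ℝ) < t / l := by
          rw [lt_div_iff₀ hl, Nat.cast_sub hm, ht']; linarith
        have := Nat.lt_ceil.mpr h1
        omega)
    have h2 := E_noncross (N := K + 1) hl ht0.le hJ1 hJ2.le htK
    rw [← ht'] at h
    have h3 : (J : ℝ) * (4 * l ^ 2 + 8 * (l * u)) ≤ (t + l) * (4 * l + 8 * u) := by
      have : (J : ℝ) * (4 * l ^ 2 + 8 * (l * u)) = (J * l) * (4 * l + 8 * u) := by ring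
      rw [this]
      exact mul_le_mul_of_nonneg_right hJ2.le (by positivity)
    have h4 : 2 * t * l + 8 * l * (t + l) ≤ 10 * l * (t + l) := by nlinarith
    nlinarith
  · -- crossing
    have hcr' := hcr hc
    rw [max_eq_left (by linarith)]
    set G := 2 ^ K - a with hG
    have hG1 : 1 ≤ G := by omega
    have hGR : (G : ℝ) = 2 ^ K - a := by rw [hG, Nat.cast_sub ha.le]; push_cast; ring
    have hgt : (G : ℝ) * l ≤ t := by rw [hGR, ht']; linarith
    have htg : t - G * l = z - b * u - 2 ^ K * l := by rw [hGR, ht']; ring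
    have h := cost_le (N := K + 2) (M := 2 ^ K) (a := a) (b := b) (z := z) hl hu (hz.trans hL) ht0.le G (by omega)
      (fun j hj => by
        have h1 : (j : ℝ) < G := by exact_mod_cast hj
        have := mul_lt_mul_of_pos_right h1 hl
        linarith)
      (fun m hm _ _ => by omega)
    rw [← ht'] at h
    set e := Nat.log 2 G with he
    have he1 : 2 ^ e ≤ G := Nat.pow_log_le_self 2 (by omega)
    have he2 : G < 2 ^ (e + 1) := Nat.lt_pow_succ_log_self (by norm_num) G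
    have he3 : e + 5 ≤ K := by
      have h1 : 2 ^ (e + 5) ≤ 2 ^ K := by
        calc 2 ^ (e + 5) = 32 * 2 ^ e := by rw [pow_add]; norm_num; ring
          _ ≤ 32 * G := by omega
          _ ≤ 2 ^ K := hcr'
      exact (Nat.pow_le_pow_iff_right (by norm_num)).mp h1
    have he1R : (2 : ℝ) ^ e * l ≤ G * l :=
      mul_le_mul_of_nonneg_right (by exact_mod_cast he1) hl.le
    have h1 := E_cross (N := K + 2) (e := e) hl (by positivity) hgt he1R (by omega)
    have hGK : (G : ℝ) * l ≤ 2 ^ (K + 1) * l := hgt.trans htK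
    have h2 := E_noncross (N := K + 1) hl (by positivity : (0 : ℝ) ≤ G * l) le_rfl (by linarith) hGK
    have h3 : (G : ℝ) * (4 * l ^ 2 + 8 * (l * u)) ≤ (t + l) * (4 * l + 8 * u) := by
      have : (G : ℝ) * (4 * l ^ 2 + 8 * (l * u)) = (G * l) * (4 * l + 8 * u) := by ring
      rw [this]
      exact mul_le_mul_of_nonneg_right (by linarith) (by positivity)
    have h4 : (G : ℝ) * (3 / 4) ^ (e + 1) ≤ (3 / 2) ^ (e + 1) := by
      have h5 : (G : ℝ) ≤ 2 ^ (e + 1) := by exact_mod_cast he2.le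
      calc (G : ℝ) * (3 / 4) ^ (e + 1) ≤ 2 ^ (e + 1) * (3 / 4) ^ (e + 1) :=
            mul_le_mul_of_nonneg_right h5 (by positivity)
        _ = (3 / 2) ^ (e + 1) := by rw [← mul_pow]; norm_num
    have h5 : (3 / 2 : ℝ) ^ (e + 1) * (81 / 16) ≤ (3 / 2) ^ K := by
      calc (3 / 2 : ℝ) ^ (e + 1) * (81 / 16) = (3 / 2) ^ (e + 1 + 4) := by
            rw [pow_add _ (e + 1) 4]; norm_num
        _ ≤ (3 / 2) ^ K := pow_le_pow_right₀ (by norm_num) (by omega)
    have h6 : 4 * (G * l) * (t - G * l) * (3 / 4) ^ (e + 1) ≤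
        (64 / 81) * l * (3 / 2) ^ K * (t - G * l) := by
      have h7 : 0 ≤ t - G * l := by linarith
      have h8 : 4 * (G * l) * (t - G * l) * (3 / 4) ^ (e + 1)
          = 4 * l * (t - G * l) * (G * (3 / 4) ^ (e + 1)) := by ring
      rw [h8]
      have h9 : 4 * l * (t - G * l) * ((G : ℝ) * (3 / 4) ^ (e + 1)) ≤
          4 * l * (t - G * l) * (16 / 81 * (3 / 2) ^ K) :=
        mul_le_mul_of_nonneg_left (by linarith) (by positivity)
      refine h9.trans (le_of_eq (by ring))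
    rw [← htg]
    have h7 : 2 * (G * l) * l + 8 * l * (G * l + l) ≤ 10 * l * (t + l) := by nlinarith
    nlinarith

end Pool.Agent.H819
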