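import Mathlib
import Pool.Agent.H819.Gasket3

set_option autoImplicit false

namespace Pool.Agent.H819

open Finset

lemma sum_cross {ι : Type*} [DecidableEq ι] (I : Finset ι) (a b : ι → ℕ) (z : ι → ℝ)
    {K : ℕ} {l u : ℝ} (hl : 0 < l) (hu : 0 < u)
    (hz : ∀ i ∈ I, z i ≤ 2 * (2 ^ K * l)) (ha : ∀ i ∈ I, a i < 2 ^ K)
    (hdis : ∀ i ∈ I, ∀ j ∈ I, i ≠ j →
      min (z i) (z j) ≤ (max (a i) (a j) : ℕ) * l + (max (b i) (b j) : ℕ) * u) :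
    ∑ i ∈ I, max (z i - b i * u - 2 ^ K * l) 0 ≤ 2 ^ K * l + u := by
  set B : ι → Finset ℕ := fun i => Ico (b i) ⌈(z i - 2 ^ K * l) / u⌉₊ with hB
  have hmem : ∀ i n, n ∈ B i ↔ b i ≤ n ∧ n * u < z i - 2 ^ K * l := by
    intro i n
    rw [hB, mem_Ico, Nat.lt_ceil, lt_div_iff₀ hu]
  have h1 : ∀ i ∈ I, max (z i - b i * u - 2 ^ K * l) 0 ≤ u * ((B i).card : ℝ) := by
    intro i _
    have h2 : (0 : ℝ) ≤ (B i).card := Nat.cast_nonneg _
    refine max_le ?_ (by positivity)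
    have h3 : (z i - 2 ^ K * l) / u ≤ ⌈(z i - 2 ^ K * l) / u⌉₊ := Nat.le_ceil _
    have h4 : ((⌈(z i - 2 ^ K * l) / u⌉₊ : ℕ) : ℝ) ≤ ((B i).card : ℝ) + b i := by
      rw [hB]; simp only [Nat.card_Ico]
      exact_mod_cast Nat.sub_le_iff_le_add.mp le_rfl
    rw [div_le_iff₀ hu] at h3
    nlinarith
  have h2 : (I.biUnion B).card = ∑ i ∈ I, (B i).card := by
    refine card_biUnion (fun i hi j hj hij => ?_)
    change Disjoint (B i) (B j)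
    rw [Finset.disjoint_left]
    intro n h3 h4
    rw [hmem] at h3 h4
    have h5 := hdis i hi j hj hij
    have h6 : ((max (a i) (a j) : ℕ) : ℝ) ≤ 2 ^ K := by
      have : max (a i) (a j) ≤ 2 ^ K := max_le (ha i hi).le (ha j hj).le
      exact_mod_cast this
    have h7 : ((max (b i) (b j) : ℕ) : ℝ) ≤ n := by exact_mod_cast max_le h3.1 h4.1
    have h8 := mul_le_mul_of_nonneg_right h6 hl.le
    have h9 := mul_le_mul_of_nonneg_right h7 hu.le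
    have h10 : n * u + 2 ^ K * l < min (z i) (z j) := lt_min (by linarith [h3.2]) (by linarith [h4.2])
    linarith
  have h3 : I.biUnion B ⊆ range ⌈(2 ^ K * l) / u⌉₊ := by
    intro n hn
    rw [mem_biUnion] at hn
    obtain ⟨i, hi, hn⟩ := hn
    rw [hmem] at hn
    rw [mem_range, Nat.lt_ceil, lt_div_iff₀ hu]
    linarith [hz i hi, hn.2]
  have h4 := card_le_card h3
  rw [h2, card_range] at h4
  have h5 : ((⌈(2 ^ K * l) / u⌉₊ : ℕ) : ℝ) < (2 ^ K * l) / u + 1 := Nat.ceil_lt_add_one (by positivity)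
  calc ∑ i ∈ I, max (z i - b i * u - 2 ^ K * l) 0 ≤ ∑ i ∈ I, u * ((B i).card : ℝ) := sum_le_sum h1
    _ = u * ((∑ i ∈ I, (B i).card : ℕ) : ℝ) := by rw [← mul_sum]; push_cast; rfl
    _ ≤ u * ((⌈(2 ^ K * l) / u⌉₊ : ℕ) : ℝ) :=
        mul_le_mul_of_nonneg_left (by exact_mod_cast h4) hu.le
    _ ≤ u * ((2 ^ K * l) / u + 1) := mul_le_mul_of_nonneg_left h5.le hu.le
    _ = 2 ^ K * l + u := by field_simp

theorem core {ι : Type*} [DecidableEq ι] (I : Finset ι) (a b : ι → ℕ) (z : ι → ℝ)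
    {K L : ℕ} {l u : ℝ} (hl : 0 < l) (hu : 0 < u) (hL : 2 * (2 ^ K * l) ≤ L * u)
    (hz : ∀ i ∈ I, z i ≤ 2 * (2 ^ K * l)) (ha : ∀ i ∈ I, a i < 2 ^ K)
    (ht : ∀ i ∈ I, a i * l + b i * u < z i)
    (hdis : ∀ i ∈ I, ∀ j ∈ I, i ≠ j →
      min (z i) (z j) ≤ (max (a i) (a j) : ℕ) * l + (max (b i) (b j) : ℕ) * u)
    (hcr : ∀ i ∈ I, (2 : ℝ) ^ K * l + b i * u < z i → 32 * (2 ^ K - a i) ≤ 2 ^ K) :
    (4 / 3) * 3 ^ K * l ^ 2 ≤
      4 * (l * u) * (((A (2 ^ K) L l u 0 0 (2 * (2 ^ K * l)) 0).card : ℝ)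
        - ∑ i ∈ I, ((A (2 ^ K) L l u (a i) (b i) (z i) 0).card : ℝ))
      + (3 / 2) ^ K * (l * u) + 2 ^ K * (4 * l ^ 2 + 8 * (l * u))
      + (14 * l + 8 * u) * ∑ i ∈ I, ((z i - a i * l - b i * u) + l) := by
  set Z : ℝ := 2 * (2 ^ K * l) with hZ
  have hpow : (0 : ℝ) < 2 ^ K := by positivity
  have hKl : (0 : ℝ) < 2 ^ K * l := by positivity
  have hw := window_ge (N := K + 2) (M := 2 ^ K) (L := L) (Z := Z) hl hu hL (by
    push_cast; rw [hZ]; linarith)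
  have hE := E_window K hl
  rw [← hZ] at hE
  push_cast at hw
  -- positions
  have hpos : ∀ k : ℕ, ∑ i ∈ I, ((A (2 ^ K) L l u (a i) (b i) (z i) (2 ^ k * l)).card : ℝ) ≤
      ((A (2 ^ K) L l u 0 0 Z (2 ^ k * l)).card : ℝ) := by
    intro k
    have h1 : (I.biUnion (fun i => A (2 ^ K) L l u (a i) (b i) (z i) (2 ^ k * l))).card
        = ∑ i ∈ I, (A (2 ^ K) L l u (a i) (b i) (z i) (2 ^ k * l)).card :=
      card_biUnion (fun i hi j hj hij => A_disj hl hu (hdis i hi j hj hij))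
    have h2 : I.biUnion (fun i => A (2 ^ K) L l u (a i) (b i) (z i) (2 ^ k * l)) ⊆
        A (2 ^ K) L l u 0 0 Z (2 ^ k * l) :=
      biUnion_subset.mpr (fun i hi => A_sub hl hu (hz i hi))
    have h3 := card_le_card h2
    rw [h1] at h3
    exact_mod_cast h3
  have hsum : ∑ k ∈ range (K + 2), (3 / 4 : ℝ) ^ k *
      ∑ i ∈ I, ((A (2 ^ K) L l u (a i) (b i) (z i) (2 ^ k * l)).card : ℝ) ≤
      ∑ k ∈ range (K + 2), (3 / 4 : ℝ) ^ k * ((A (2 ^ K) L l u 0 0 Z (2 ^ k * l)).card : ℝ) :=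
    sum_le_sum (fun k _ => mul_le_mul_of_nonneg_left (hpos k) (by positivity))
  have hcs : ∑ i ∈ I, cost (K + 2) (2 ^ K) L l u (a i) (b i) (z i)
      = 4 * (l * u) * ∑ i ∈ I, ((A (2 ^ K) L l u (a i) (b i) (z i) 0).card : ℝ)
        - l * u * ∑ k ∈ range (K + 2), (3 / 4 : ℝ) ^ k *
      ∑ i ∈ I, ((A (2 ^ K) L l u (a i) (b i) (z i) (2 ^ k * l)).card : ℝ) := by
    unfold cost
    rw [sum_sub_distrib, ← mul_sum, ← mul_sum, sum_comm]
    congr 2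
    exact sum_congr rfl (fun k _ => by rw [mul_sum])
  have hcb : ∑ i ∈ I, cost (K + 2) (2 ^ K) L l u (a i) (b i) (z i) ≤
      (14 * l + 8 * u) * ∑ i ∈ I, ((z i - a i * l - b i * u) + l)
      + (64 / 81) * l * (3 / 2) ^ K * ∑ i ∈ I, max (z i - b i * u - 2 ^ K * l) 0 := by
    rw [mul_sum, mul_sum, ← sum_add_distrib]
    exact sum_le_sum (fun i hi => cost_bound hl hu hL (hz i hi) (ha i hi) (ht i hi) (hcr i hi))
  have hx := sum_cross I a b z hl hu hz ha hdis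
  have hx2 := mul_le_mul_of_nonneg_left hx (by positivity : (0 : ℝ) ≤ (64 / 81) * l * (3 / 2) ^ K)
  have h32 : (3 / 2 : ℝ) ^ K * 2 ^ K = 3 ^ K := by rw [← mul_pow]; norm_num
  have hx3 : (64 / 81) * l * (3 / 2) ^ K * (2 ^ K * l + u)
      = (64 / 81) * l ^ 2 * 3 ^ K + (64 / 81) * ((3 / 2) ^ K * (l * u)) := by
    rw [← h32]; ring
  rw [hx3] at hx2
  have hlu : 0 < l * u := mul_pos hl hu
  have h3 : (0 : ℝ) ≤ (3 / 2) ^ K * (l * u) := by positivity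
  have h4 : (0 : ℝ) ≤ 3 ^ K * l ^ 2 := by positivity
  have h5 : (0 : ℝ) ≤ 2 ^ K * l ^ 2 := by positivity
  have hw2 : cost (K + 2) (2 ^ K) L l u 0 0 Z
      = 4 * (l * u) * ((A (2 ^ K) L l u 0 0 Z 0).card : ℝ)
        - l * u * ∑ k ∈ range (K + 2), (3 / 4 : ℝ) ^ k *
          ((A (2 ^ K) L l u 0 0 Z (2 ^ k * l)).card : ℝ) := rfl
  have hs2 := mul_le_mul_of_nonneg_left hsum hlu.le
  rw [mul_sub]
  nlinarith

end Pool.Agent.H819
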