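import Mathlib
import Pool.Agent.H706R2.NonConc3

set_option autoImplicit false

namespace Pool.Agent.H819

open Finset Real
open Pool.Agent.H706R2 (dZ dZ_le_of_int round_step)

/-- the values in the quadrant -/
noncomputable def Y (p q : ℕ) (θ : ℝ) (m n : ℕ) : ℝ := θ * (p : ℝ) ^ m * (q : ℝ) ^ n

lemma Y_add (p q : ℕ) (θ : ℝ) (a b i j : ℕ) :
    Y p q θ (a + i) (b + j) = (p : ℝ) ^ i * (q : ℝ) ^ j * Y p q θ a b := by
  unfold Y; rw [pow_add, pow_add]; ring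

lemma Y_swap (p q : ℕ) (θ : ℝ) (m n : ℕ) : Y p q θ m n = Y q p θ n m := by
  unfold Y; ring

lemma dZ_nonneg (x : ℝ) : 0 ≤ dZ x := by unfold dZ; exact abs_nonneg _

lemma round_of {r x : ℝ} (hr : r ≤ 1 / 2) {R : ℤ} (h : |x - R| < r) : round x = R ∧ dZ x < r := by
  have h1 : dZ x ≤ |x - R| := dZ_le_of_int x R
  refine ⟨?_, lt_of_le_of_lt h1 h⟩
  have h2 : |((round x - R : ℤ) : ℝ)| < 1 := by
    have e : ((round x - R : ℤ) : ℝ) = (x - R) - (x - round x) := by push_cast; ring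
    rw [e]
    have h3 := abs_sub (x - R) (x - round x)
    unfold dZ at h1
    linarith
  have h3 : |round x - R| < 1 := by exact_mod_cast h2
  have := Int.abs_lt_one_iff.mp h3
  omega

/-- height of the triangle with corner `(a, b)` -/
noncomputable def zc (p q : ℕ) (r θ Z : ℝ) (a b : ℕ) : ℝ :=
  if dZ (Y p q θ a b) = 0 then Z
  else min Z (a * log p + b * log q + log (r / dZ (Y p q θ a b)))

lemma zc_le (p q : ℕ) (r θ Z : ℝ) (a b : ℕ) : zc p q r θ Z a b ≤ Z := by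
  unfold zc
  split_ifs
  · exact le_rfl
  · exact min_le_left _ _

lemma zc_swap (p q : ℕ) (r θ Z : ℝ) (a b : ℕ) : zc p q r θ Z a b = zc q p r θ Z b a := by
  unfold zc
  rw [Y_swap p q, add_comm ((a : ℝ) * log p)]

lemma lt_zc {p q : ℕ} (hp : 2 ≤ p) (hq : 2 ≤ q) {r θ Z : ℝ} (hr : 0 < r) {a b i j : ℕ}
    (hZ : ((a + i : ℕ) : ℝ) * log p + ((b + j : ℕ) : ℝ) * log q < Z) :
    ((a + i : ℕ) : ℝ) * log p + ((b + j : ℕ) : ℝ) * log q < zc p q r θ Z a b ↔
      |Y p q θ (a + i) (b + j) - (((p : ℤ) ^ i * (q : ℤ) ^ j * round (Y p q θ a b) : ℤ) : ℝ)| < r := by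
  have hpR : (0 : ℝ) < p := by positivity
  have hqR : (0 : ℝ) < q := by positivity
  set d := dZ (Y p q θ a b) with hd
  have hd0 : 0 ≤ d := dZ_nonneg _
  have e : |Y p q θ (a + i) (b + j) - (((p : ℤ) ^ i * (q : ℤ) ^ j * round (Y p q θ a b) : ℤ) : ℝ)|
      = (p : ℝ) ^ i * (q : ℝ) ^ j * d := by
    have h : Y p q θ (a + i) (b + j) - (((p : ℤ) ^ i * (q : ℤ) ^ j * round (Y p q θ a b) : ℤ) : ℝ)
        = (p : ℝ) ^ i * (q : ℝ) ^ j * (Y p q θ a b - round (Y p q θ a b)) := by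
      rw [Y_add]; push_cast; ring
    rw [h, abs_mul, abs_of_pos (by positivity)]
    rfl
  rw [e]
  unfold zc
  split_ifs with h0
  · rw [← hd] at h0
    rw [h0, mul_zero]
    exact ⟨fun _ => hr, fun _ => hZ⟩
  · have hdpos : 0 < d := lt_of_le_of_ne hd0 (Ne.symm h0)
    rw [lt_min_iff]
    have h1 : ((a + i : ℕ) : ℝ) * log p + ((b + j : ℕ) : ℝ) * log q
        < a * log p + b * log q + log (r / d) ↔ log ((p : ℝ) ^ i * (q : ℝ) ^ j) < log (r / d) := by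
      rw [log_mul (by positivity) (by positivity), log_pow, log_pow]
      push_cast
      constructor <;> intro h <;> linarith
    rw [← hd, h1, log_lt_log_iff (by positivity) (by positivity), lt_div_iff₀ hdpos]
    exact ⟨fun h => h.2, fun h => ⟨hZ, h⟩⟩

/-- corners of the triangles of near points in the quadrant -/
def Cor (p q : ℕ) (r θ : ℝ) (a b : ℕ) : Prop :=
  dZ (Y p q θ a b) < r ∧ (∀ a0, a = a0 + 1 → r ≤ dZ (Y p q θ a0 b)) ∧
    (∀ b0, b = b0 + 1 → r ≤ dZ (Y p q θ a b0))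

lemma Cor_swap {p q : ℕ} {r θ : ℝ} {a b : ℕ} (h : Cor p q r θ a b) : Cor q p r θ b a := by
  refine ⟨by rw [Y_swap q p]; exact h.1, ?_, ?_⟩
  · intro b0 hb; rw [Y_swap q p]; exact h.2.2 b0 hb
  · intro a0 ha; rw [Y_swap q p]; exact h.2.1 a0 ha

lemma near_of_dvd {p q : ℕ} (hp : 2 ≤ p) {r θ : ℝ} {a b : ℕ}
    (h : dZ (Y p q θ (a + 1) b) < r) (hdvd : (p : ℤ) ∣ round (Y p q θ (a + 1) b)) :
    dZ (Y p q θ a b) < r := by
  obtain ⟨k, hk⟩ := hdvd
  have hpR : (2 : ℝ) ≤ p := by exact_mod_cast hp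
  have e : Y p q θ (a + 1) b = p * Y p q θ a b := by unfold Y; rw [pow_succ]; ring
  have h1 : |Y p q θ (a + 1) b - round (Y p q θ (a + 1) b)| < r := h
  rw [hk, e] at h1
  have h2 : (p : ℝ) * Y p q θ a b - ((p * k : ℤ) : ℝ) = p * (Y p q θ a b - k) := by push_cast; ring
  rw [h2, abs_mul, abs_of_nonneg (by linarith)] at h1
  have h3 := dZ_le_of_int (Y p q θ a b) k
  have h4 : |Y p q θ a b - k| ≤ p * |Y p q θ a b - k| := by
    nlinarith [abs_nonneg (Y p q θ a b - k)]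
  linarith

lemma left_far {p q : ℕ} (hp : 2 ≤ p) (hq : 2 ≤ q) (hpq : Nat.Coprime p q) {r θ Z : ℝ} (hr : 0 < r)
    (hrp : ((p : ℝ) + 1) * r ≤ 1) {a0 b : ℕ} (hc : Cor p q r θ (a0 + 1) b) (j : ℕ)
    (hj : ((a0 + 1 : ℕ) : ℝ) * log p + ((b + j : ℕ) : ℝ) * log q < zc p q r θ Z (a0 + 1) b) :
    r ≤ dZ (Y p q θ a0 (b + j)) := by
  have hpR : (2 : ℝ) ≤ p := by exact_mod_cast hp
  have hr2 : r ≤ 1 / 2 := by nlinarith
  by_contra hcon
  push Not at hcon
  have h1 := (lt_zc (i := 0) (j := j) hp hq hr (lt_of_lt_of_le hj (zc_le p q r θ Z (a0 + 1) b))).mp hj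
  obtain ⟨h2, h3⟩ := round_of hr2 h1
  rw [pow_zero, one_mul, Nat.add_zero] at h2
  rw [Nat.add_zero] at h3
  have e : Y p q θ (a0 + 1) (b + j) = p * Y p q θ a0 (b + j) := by unfold Y; rw [pow_succ]; ring
  have h4 := round_step (p := p) hrp hcon (by rw [← e]; exact h3)
  rw [← e, h2] at h4
  have h5 : (p : ℤ) ∣ (q : ℤ) ^ j * round (Y p q θ (a0 + 1) b) := by
    rw [h4]; exact dvd_mul_right _ _
  have h6 : IsCoprime (p : ℤ) ((q : ℤ) ^ j) := (Nat.isCoprime_iff_coprime.mpr hpq).pow_right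
  have h7 := h6.dvd_of_dvd_mul_left h5
  have h8 := near_of_dvd hp hc.1 h7
  have h9 := hc.2.1 a0 rfl
  linarith

lemma bottom_far {p q : ℕ} (hp : 2 ≤ p) (hq : 2 ≤ q) (hpq : Nat.Coprime p q) {r θ Z : ℝ}
    (hr : 0 < r) (hrq : ((q : ℝ) + 1) * r ≤ 1) {a b0 : ℕ} (hc : Cor p q r θ a (b0 + 1)) (i : ℕ)
    (hj : ((a + i : ℕ) : ℝ) * log p + ((b0 + 1 : ℕ) : ℝ) * log q < zc p q r θ Z a (b0 + 1)) :
    r ≤ dZ (Y p q θ (a + i) b0) := by
  rw [zc_swap, add_comm] at hj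
  have := left_far hq hp hpq.symm hr hrq (Cor_swap hc) i hj
  rwa [Y_swap q p] at this

lemma disj_half {p q : ℕ} (hp : 2 ≤ p) (hq : 2 ≤ q) (hpq : Nat.Coprime p q) {r θ Z : ℝ} (hr : 0 < r)
    (hrp : ((p : ℝ) + 1) * r ≤ 1) {a b a' b' : ℕ}
    (hc' : Cor p q r θ a' b') (haa : a < a')
    (h1 : ((max a a' : ℕ) : ℝ) * log p + ((max b b' : ℕ) : ℝ) * log q < zc p q r θ Z a b)
    (h2 : ((max a a' : ℕ) : ℝ) * log p + ((max b b' : ℕ) : ℝ) * log q < zc p q r θ Z a' b') :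
    False := by
  have hpR : (2 : ℝ) ≤ p := by exact_mod_cast hp
  have hr2 : r ≤ 1 / 2 := by nlinarith
  have hZ := lt_of_lt_of_le h1 (zc_le p q r θ Z a b)
  obtain ⟨i, hi⟩ : ∃ i, a' = a + (i + 1) := ⟨a' - a - 1, by omega⟩
  obtain ⟨j, hj⟩ := Nat.exists_eq_add_of_le (le_max_left b b')
  obtain ⟨j', hj'⟩ := Nat.exists_eq_add_of_le (le_max_right b b')
  have hm : max a a' = a' := max_eq_right haa.le
  rw [hm] at h1 h2 hZ
  have h3 : |Y p q θ (a + (i + 1)) (b + j)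
      - (((p : ℤ) ^ (i + 1) * (q : ℤ) ^ j * round (Y p q θ a b) : ℤ) : ℝ)| < r := by
    refine (lt_zc hp hq hr (Z := Z) ?_).mp ?_
    · rw [← hi, ← hj]; exact hZ
    · rw [← hi, ← hj]; exact h1
  have h4 : |Y p q θ (a' + 0) (b' + j')
      - (((p : ℤ) ^ 0 * (q : ℤ) ^ j' * round (Y p q θ a' b') : ℤ) : ℝ)| < r := by
    refine (lt_zc hp hq hr (Z := Z) ?_).mp ?_
    · rw [← hj', Nat.add_zero]; exact hZ
    · rw [← hj', Nat.add_zero]; exact h2
  have h5 := (round_of hr2 h3).1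
  have h6 := (round_of hr2 h4).1
  rw [← hi, ← hj] at h5
  rw [← hj', Nat.add_zero, h5, pow_zero, one_mul] at h6
  have h7 : (p : ℤ) ∣ (q : ℤ) ^ j' * round (Y p q θ a' b') := by
    rw [← h6, pow_succ']
    exact ⟨(p : ℤ) ^ i * (q : ℤ) ^ j * round (Y p q θ a b), by ring⟩
  have h8 : IsCoprime (p : ℤ) ((q : ℤ) ^ j') := (Nat.isCoprime_iff_coprime.mpr hpq).pow_right
  have h9 := h8.dvd_of_dvd_mul_left h7
  have e : a' = (a + i) + 1 := by omega
  have h10 := hc'.2.1 (a + i) e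
  have h11 := hc'.1
  rw [e] at h11 h9
  have := near_of_dvd hp h11 h9
  linarith

lemma disj_corners {p q : ℕ} (hp : 2 ≤ p) (hq : 2 ≤ q) (hpq : Nat.Coprime p q) {r θ Z : ℝ}
    (hr : 0 < r) (hrp : ((p : ℝ) + 1) * r ≤ 1) (hrq : ((q : ℝ) + 1) * r ≤ 1) {a b a' b' : ℕ}
    (hc : Cor p q r θ a b) (hc' : Cor p q r θ a' b') (hne : (a, b) ≠ (a', b')) :
    min (zc p q r θ Z a b) (zc p q r θ Z a' b') ≤
      ((max a a' : ℕ) : ℝ) * log p + ((max b b' : ℕ) : ℝ) * log q := by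
  by_contra hcon
  push Not at hcon
  rw [lt_min_iff] at hcon
  obtain ⟨h1, h2⟩ := hcon
  rcases lt_trichotomy a a' with h | h | h
  · exact disj_half hp hq hpq hr hrp hc' h h1 h2
  · rcases lt_trichotomy b b' with h' | h' | h'
    · rw [zc_swap, add_comm] at h1 h2
      exact disj_half hq hp hpq.symm hr hrq (Cor_swap hc') h' h1 h2
    · exact hne (by rw [h, h'])
    · rw [zc_swap, add_comm, max_comm b b', max_comm a a'] at h1 h2
      exact disj_half hq hp hpq.symm hr hrq (Cor_swap hc) h' h2 h1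
  · rw [max_comm b b', max_comm a a'] at h1 h2
    exact disj_half hp hq hpq hr hrp hc h h2 h1

lemma cover_step {p q : ℕ} (hp : 2 ≤ p) (hq : 2 ≤ q) {r θ Z : ℝ} (hr : 0 < r)
    (hrp : ((p : ℝ) + 1) * r ≤ 1) {a b m n : ℕ} (ha : a ≤ m) (hb : b ≤ n)
    (h : (m : ℝ) * log p + n * log q < zc p q r θ Z a b)
    (hZ : ((m + 1 : ℕ) : ℝ) * log p + n * log q < Z)
    (hn : dZ (Y p q θ (m + 1) n) < r) :
    ((m + 1 : ℕ) : ℝ) * log p + n * log q < zc p q r θ Z a b := by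
  have hpR : (2 : ℝ) ≤ p := by exact_mod_cast hp
  have hr2 : r ≤ 1 / 2 := by nlinarith
  obtain ⟨i, rfl⟩ := Nat.exists_eq_add_of_le ha
  obtain ⟨j, rfl⟩ := Nat.exists_eq_add_of_le hb
  have h1 := (lt_zc hp hq hr (lt_of_lt_of_le h (zc_le p q r θ Z a b))).mp h
  obtain ⟨h2, h3⟩ := round_of hr2 h1
  have e : Y p q θ (a + i + 1) (b + j) = p * Y p q θ (a + i) (b + j) := by
    unfold Y; rw [pow_succ]; ring
  have h4 := round_step (p := p) hrp h3 (by rw [← e]; exact hn)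
  rw [← e, h2] at h4
  have h5 : |Y p q θ (a + i + 1) (b + j) - round (Y p q θ (a + i + 1) (b + j))| < r := hn
  rw [h4] at h5
  rw [add_assoc]
  rw [add_assoc] at hZ h5
  refine (lt_zc hp hq hr hZ).mpr ?_
  convert h5 using 3
  push_cast
  ring

lemma cover {p q : ℕ} (hp : 2 ≤ p) (hq : 2 ≤ q) {r θ Z : ℝ} (hr : 0 < r)
    (hrp : ((p : ℝ) + 1) * r ≤ 1) (hrq : ((q : ℝ) + 1) * r ≤ 1) (s : ℕ) :
    ∀ m n : ℕ, m + n = s → dZ (Y p q θ m n) < r → (m : ℝ) * log p + n * log q < Z →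
      ∃ a b : ℕ, a ≤ m ∧ b ≤ n ∧ Cor p q r θ a b ∧
        (m : ℝ) * log p + n * log q < zc p q r θ Z a b := by
  have hlq : 0 < log q := log_pos (by exact_mod_cast (by omega : 1 < q))
  have hlp : 0 < log p := log_pos (by exact_mod_cast (by omega : 1 < p))
  induction s using Nat.strong_induction_on with
  | _ s ih =>
    intro m n hs hnear hZ
    by_cases hc : Cor p q r θ m n
    · refine ⟨m, n, le_rfl, le_rfl, hc, ?_⟩
      have h := (lt_zc (i := 0) (j := 0) (a := m) (b := n) (θ := θ) hp hq hr (Z := Z)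
        (by simpa using hZ)).mpr (by have h' := hnear; unfold dZ at h'; simpa using h')
      simpa using h
    · unfold Cor at hc
      rw [not_and_or, not_and_or] at hc
      rcases hc with hc | hc | hc
      · exact absurd hnear hc
      · push Not at hc
        obtain ⟨m0, rfl, h1⟩ := hc
        have hZ' : (m0 : ℝ) * log p + n * log q < Z := by push_cast at hZ; linarith
        obtain ⟨a, b, ha, hb, hcor, h2⟩ := ih (m0 + n) (by omega) m0 n rfl h1 hZ'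
        exact ⟨a, b, by omega, hb, hcor, cover_step hp hq hr hrp ha hb h2 hZ hnear⟩
      · push Not at hc
        obtain ⟨n0, rfl, h1⟩ := hc
        have hZ' : (m : ℝ) * log p + n0 * log q < Z := by push_cast at hZ; linarith
        obtain ⟨a, b, ha, hb, hcor, h2⟩ := ih (m + n0) (by omega) m n0 rfl h1 hZ'
        refine ⟨a, b, ha, by omega, hcor, ?_⟩
        rw [zc_swap, add_comm] at h2 ⊢
        rw [add_comm] at hZ
        rw [Y_swap] at hnear
        exact cover_step hq hp hr hrq hb ha h2 hZ hnear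

end Pool.Agent.H819
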