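import Mathlib
import Pool.Agent.H819.Gasket4
import Pool.Agent.H819.Gasket5

set_option autoImplicit false

namespace Pool.Agent.H819

open Finset Real
open Pool.Agent.H706R2 (dZ dZ_le_of_int round_step)

/-- far points of the window -/
noncomputable def FW (p q : ℕ) (r θ : ℝ) (K L : ℕ) : Finset (ℕ × ℕ) :=
  open Classical in
  (range (2 ^ K) ×ˢ range L).filter (fun c =>
    (c.1 : ℝ) * log p + c.2 * log q < 2 * (2 ^ K * log p) ∧ r ≤ dZ (Y p q θ c.1 c.2))

lemma mem_FW {p q : ℕ} {r θ : ℝ} {K L : ℕ} {c : ℕ × ℕ} :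
    c ∈ FW p q r θ K L ↔ (c.1 < 2 ^ K ∧ c.2 < L) ∧
      (c.1 : ℝ) * log p + c.2 * log q < 2 * (2 ^ K * log p) ∧ r ≤ dZ (Y p q θ c.1 c.2) := by
  unfold FW
  simp only [mem_filter, mem_product, mem_range]

/-- corners in the window -/
noncomputable def IW (p q : ℕ) (r θ : ℝ) (K L : ℕ) : Finset (ℕ × ℕ) :=
  open Classical in
  (range (2 ^ K) ×ˢ range L).filter (fun c =>
    (c.1 : ℝ) * log p + c.2 * log q < 2 * (2 ^ K * log p) ∧ Cor p q r θ c.1 c.2)

lemma mem_IW {p q : ℕ} {r θ : ℝ} {K L : ℕ} {c : ℕ × ℕ} :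
    c ∈ IW p q r θ K L ↔ (c.1 < 2 ^ K ∧ c.2 < L) ∧
      (c.1 : ℝ) * log p + c.2 * log q < 2 * (2 ^ K * log p) ∧ Cor p q r θ c.1 c.2 := by
  unfold IW
  simp only [mem_filter, mem_product, mem_range]

section
variable {p q : ℕ} {r θ : ℝ} {K L : ℕ}

lemma self_lt_zc (hp : 2 ≤ p) (hq : 2 ≤ q) {Z : ℝ} (hr : 0 < r) {a b : ℕ}
    (h : Cor p q r θ a b) (hZ : (a : ℝ) * log p + b * log q < Z) :
    (a : ℝ) * log p + b * log q < zc p q r θ Z a b := by
  have h' := (lt_zc (i := 0) (j := 0) (a := a) (b := b) (θ := θ) hp hq hr (Z := Z)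
        (by simpa using hZ)).mpr (by have h' := h.1; unfold dZ at h'; simpa using h')
  simpa using h'

lemma near_of_lt_zc (hp : 2 ≤ p) (hq : 2 ≤ q) {Z : ℝ} (hr : 0 < r) (hrp : ((p : ℝ) + 1) * r ≤ 1)
    {a b m n : ℕ} (ha : a ≤ m) (hb : b ≤ n)
    (h : (m : ℝ) * log p + n * log q < zc p q r θ Z a b) : dZ (Y p q θ m n) < r := by
  have hpR : (2 : ℝ) ≤ p := by exact_mod_cast hp
  have hr2 : r ≤ 1 / 2 := by nlinarith
  obtain ⟨i, rfl⟩ := Nat.exists_eq_add_of_le ha
  obtain ⟨j, rfl⟩ := Nat.exists_eq_add_of_le hb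
  exact (round_of hr2 ((lt_zc hp hq hr (lt_of_lt_of_le h (zc_le p q r θ Z a b))).mp h)).2

/-- all points of the window are far or in a triangle -/
lemma card_window (hp : 2 ≤ p) (hq : 2 ≤ q) (hr : 0 < r)
    (hrp : ((p : ℝ) + 1) * r ≤ 1) (hrq : ((q : ℝ) + 1) * r ≤ 1) :
    ((A (2 ^ K) L (log p) (log q) 0 0 (2 * (2 ^ K * log p)) 0).card : ℝ)
      - ∑ i ∈ IW p q r θ K L, ((A (2 ^ K) L (log p) (log q) i.1 i.2
        (zc p q r θ (2 * (2 ^ K * log p)) i.1 i.2) 0).card : ℝ) ≤ ((FW p q r θ K L).card : ℝ) := by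
  classical
  have hlq : 0 < log q := log_pos (by exact_mod_cast (by omega : 1 < q))
  have hlp : 0 < log p := log_pos (by exact_mod_cast (by omega : 1 < p))
  have hsub : A (2 ^ K) L (log p) (log q) 0 0 (2 * (2 ^ K * log p)) 0 ⊆
      FW p q r θ K L ∪ (IW p q r θ K L).biUnion (fun i => A (2 ^ K) L (log p) (log q) i.1 i.2
        (zc p q r θ (2 * (2 ^ K * log p)) i.1 i.2) 0) := by
    rintro ⟨m, n⟩ h
    rw [mem_A] at h
    obtain ⟨⟨hm, hn⟩, -, -, -, -, -, h6⟩ := h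
    simp only [add_zero] at hm hn h6
    rw [mem_union]
    by_cases hf : r ≤ dZ (Y p q θ m n)
    · left
      rw [mem_FW]
      exact ⟨⟨hm, hn⟩, h6, hf⟩
    · right
      push Not at hf
      obtain ⟨a, b, ha, hb, hc, hz⟩ := cover hp hq hr hrp hrq (m + n) m n rfl hf h6
      have p1 : (a : ℝ) * log p ≤ m * log p :=
        mul_le_mul_of_nonneg_right (by exact_mod_cast ha) hlp.le
      have p2 : (b : ℝ) * log q ≤ n * log q :=
        mul_le_mul_of_nonneg_right (by exact_mod_cast hb) hlq.le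
      rw [mem_biUnion]
      refine ⟨(a, b), ?_, ?_⟩
      · rw [mem_IW]
        exact ⟨⟨by simp only; omega, by simp only; omega⟩, by simp only; linarith, hc⟩
      · rw [mem_A]
        refine ⟨⟨hm, hn⟩, ha, hb, ?_, ?_, ?_, ?_⟩ <;> simp only <;> linarith
  have h1 := card_le_card hsub
  have h2 := h1.trans (card_union_le _ _)
  have h3 := h2.trans (Nat.add_le_add_left card_biUnion_le _)
  have h4 : ((A (2 ^ K) L (log p) (log q) 0 0 (2 * (2 ^ K * log p)) 0).card : ℝ) ≤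
      ((FW p q r θ K L).card : ℝ) + ∑ i ∈ IW p q r θ K L, ((A (2 ^ K) L (log p) (log q) i.1 i.2
        (zc p q r θ (2 * (2 ^ K * log p)) i.1 i.2) 0).card : ℝ) := by
    exact_mod_cast h3
  linarith

lemma sum_sizes (hp : 2 ≤ p) (hq : 2 ≤ q) (hpq : Nat.Coprime p q) (hr : 0 < r)
    (hrp : ((p : ℝ) + 1) * r ≤ 1) (hrq : ((q : ℝ) + 1) * r ≤ 1)
    (hL : 2 * (2 ^ K * log p) ≤ L * log q) :
    ∑ i ∈ IW p q r θ K L, ((zc p q r θ (2 * (2 ^ K * log p)) i.1 i.2
      - i.1 * log p - i.2 * log q) + log p) ≤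
      (log q + log p) * (((FW p q r θ K L).card : ℝ) + L) := by
  classical
  have hlq : 0 < log q := log_pos (by exact_mod_cast (by omega : 1 < q))
  have hlp : 0 < log p := log_pos (by exact_mod_cast (by omega : 1 < p))
  set Z : ℝ := 2 * (2 ^ K * log p) with hZ
  set R : ℕ × ℕ → Finset ℕ := fun i => Ico i.2 ⌈(zc p q r θ Z i.1 i.2 - i.1 * log p) / log q⌉₊
    with hR
  have hmem : ∀ i n, n ∈ R i ↔ i.2 ≤ n ∧ (i.1 : ℝ) * log p + n * log q < zc p q r θ Z i.1 i.2 := by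
    intro i n
    rw [hR, mem_Ico, Nat.lt_ceil, lt_div_iff₀ hlq]
    constructor <;> rintro ⟨h1, h2⟩ <;> exact ⟨h1, by linarith⟩
  have h1 : ∀ i ∈ IW p q r θ K L, (zc p q r θ Z i.1 i.2 - i.1 * log p - i.2 * log q) + log p ≤
      (log q + log p) * ((R i).card : ℝ) := by
    intro i hi
    rw [mem_IW] at hi
    have h2 := self_lt_zc hp hq hr hi.2.2 hi.2.1
    have h3 : (zc p q r θ Z i.1 i.2 - i.1 * log p) / log q ≤
        ⌈(zc p q r θ Z i.1 i.2 - i.1 * log p) / log q⌉₊ := Nat.le_ceil _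
    have h4 : ((⌈(zc p q r θ Z i.1 i.2 - i.1 * log p) / log q⌉₊ : ℕ) : ℝ) ≤
        ((R i).card : ℝ) + i.2 := by
      rw [hR]; simp only [Nat.card_Ico]
      exact_mod_cast Nat.sub_le_iff_le_add.mp le_rfl
    rw [div_le_iff₀ hlq] at h3
    have h5 : 1 ≤ (R i).card := by
      rw [Nat.one_le_iff_ne_zero, Finset.card_ne_zero]
      exact ⟨i.2, (hmem i i.2).mpr ⟨le_rfl, h2⟩⟩
    have h6 : (1 : ℝ) ≤ ((R i).card : ℝ) := by exact_mod_cast h5
    nlinarith
  have hdisj : ∀ i ∈ IW p q r θ K L, ∀ j ∈ IW p q r θ K L, i ≠ j →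
      Disjoint ((R i).image (fun n => (i.1, n))) ((R j).image (fun n => (j.1, n))) := by
    intro i hi j hj hij
    rw [Finset.disjoint_left]
    rintro ⟨m, n⟩ h2 h3
    rw [mem_image] at h2 h3
    obtain ⟨n1, hn1, e1⟩ := h2
    obtain ⟨n2, hn2, e2⟩ := h3
    simp only [Prod.mk.injEq] at e1 e2
    obtain ⟨rfl, rfl⟩ := e1
    obtain ⟨e3, rfl⟩ := e2
    rw [hmem] at hn1 hn2
    rw [mem_IW] at hi hj
    have h4 := disj_corners (Z := Z) hp hq hpq hr hrp hrq hi.2.2 hj.2.2 (by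
      intro h; exact hij (by simpa using h))
    rw [e3, max_self] at h4
    have h5 : ((max i.2 j.2 : ℕ) : ℝ) ≤ n2 := by exact_mod_cast max_le hn1.1 hn2.1
    have h6 := mul_le_mul_of_nonneg_right h5 hlq.le
    rw [e3] at hn2
    have h7 := lt_min hn1.2 hn2.2
    linarith
  have h2 : ((IW p q r θ K L).biUnion (fun i => (R i).image (fun n => (i.1, n)))).card
      = ∑ i ∈ IW p q r θ K L, (R i).card := by
    rw [card_biUnion hdisj]
    refine sum_congr rfl (fun i _ => card_image_of_injective _ ?_)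
    intro n1 n2 h
    simpa using h
  have h3 : (IW p q r θ K L).biUnion (fun i => (R i).image (fun n => (i.1, n))) ⊆
      (range L).image (fun n => (0, n)) ∪ (FW p q r θ K L).image (fun c => (c.1 + 1, c.2)) := by
    rintro ⟨m, n⟩ h
    rw [mem_biUnion] at h
    obtain ⟨i, hi, h⟩ := h
    rw [mem_image] at h
    obtain ⟨n1, hn1, e1⟩ := h
    simp only [Prod.mk.injEq] at e1
    obtain ⟨rfl, rfl⟩ := e1
    rw [hmem] at hn1
    rw [mem_IW] at hi
    have hz := zc_le p q r θ Z i.1 i.2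
    have h0 : (0 : ℝ) ≤ i.1 * log p := by positivity
    have hnL : n1 < L := by
      have : (n1 : ℝ) * log q < L * log q := by linarith [hn1.2]
      exact_mod_cast lt_of_mul_lt_mul_right this hlq.le
    rw [mem_union]
    rcases Nat.eq_zero_or_pos i.1 with h1 | h1
    · left
      rw [mem_image]
      exact ⟨n1, mem_range.mpr hnL, by rw [h1]⟩
    · right
      rw [mem_image]
      obtain ⟨a0, ha0⟩ : ∃ a0, i.1 = a0 + 1 := ⟨i.1 - 1, by omega⟩
      obtain ⟨j, hj⟩ := Nat.exists_eq_add_of_le hn1.1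
      have hcor := hi.2.2
      rw [ha0] at hcor
      have hlt := hn1.2
      rw [ha0, hj] at hlt
      have hf := left_far hp hq hpq hr hrp hcor j hlt
      refine ⟨(a0, n1), ?_, by rw [ha0]⟩
      rw [mem_FW]
      refine ⟨⟨by have := hi.1.1; simp only; omega, hnL⟩, ?_, ?_⟩
      · have h4 := hn1.2
        have e4 : (i.1 : ℝ) = a0 + 1 := by rw [ha0]; push_cast; ring
        rw [e4] at h4
        simp only
        linarith
      · rw [hj]; exact hf
  have h4 := card_le_card h3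
  rw [h2] at h4
  have h5 := h4.trans (card_union_le _ _)
  have h6 := h5.trans (Nat.add_le_add card_image_le card_image_le)
  rw [card_range] at h6
  calc ∑ i ∈ IW p q r θ K L, ((zc p q r θ Z i.1 i.2 - i.1 * log p - i.2 * log q) + log p)
      ≤ ∑ i ∈ IW p q r θ K L, (log q + log p) * ((R i).card : ℝ) := sum_le_sum h1
    _ = (log q + log p) * ((∑ i ∈ IW p q r θ K L, (R i).card : ℕ) : ℝ) := by
        rw [← mul_sum]; push_cast; rfl
    _ ≤ (log q + log p) * (((FW p q r θ K L).card : ℝ) + L) := by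
        refine mul_le_mul_of_nonneg_left ?_ (by positivity)
        have h7 : ((∑ i ∈ IW p q r θ K L, (R i).card : ℕ) : ℝ) ≤
            ((L + (FW p q r θ K L).card : ℕ) : ℝ) := by exact_mod_cast h6
        push_cast at h7 ⊢
        linarith

/-- the window inequality -/
lemma window_main (hp : 2 ≤ p) (hq : 2 ≤ q) (hpq : Nat.Coprime p q) (hr : 0 < r)
    (hrp : ((p : ℝ) + 1) * r ≤ 1) (hrq : ((q : ℝ) + 1) * r ≤ 1)
    (hL : 2 * (2 ^ K * log p) ≤ L * log q)
    (hcr : ∀ i ∈ IW p q r θ K L, (2 : ℝ) ^ K * log p + i.2 * log q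
      < zc p q r θ (2 * (2 ^ K * log p)) i.1 i.2 → 32 * (2 ^ K - i.1) ≤ 2 ^ K) :
    (4 / 3) * 3 ^ K * (log p) ^ 2 ≤
      (4 * (log p * log q) + (14 * log p + 8 * log q) * (log q + log p)) *
        ((FW p q r θ K L).card : ℝ)
      + (3 / 2) ^ K * (log p * log q) + 2 ^ K * (4 * (log p) ^ 2 + 8 * (log p * log q))
      + (14 * log p + 8 * log q) * (log q + log p) * L := by
  classical
  have hlq : 0 < log q := log_pos (by exact_mod_cast (by omega : 1 < q))
  have hlp : 0 < log p := log_pos (by exact_mod_cast (by omega : 1 < p))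
  have h := core (IW p q r θ K L) (fun i => i.1) (fun i => i.2)
    (fun i => zc p q r θ (2 * (2 ^ K * log p)) i.1 i.2) (K := K) (L := L) hlp hlq hL
    (fun i _ => zc_le _ _ _ _ _ _ _)
    (fun i hi => (mem_IW.mp hi).1.1)
    (fun i hi => self_lt_zc hp hq hr (mem_IW.mp hi).2.2 (mem_IW.mp hi).2.1)
    (fun i hi j hj hij => disj_corners hp hq hpq hr hrp hrq (mem_IW.mp hi).2.2 (mem_IW.mp hj).2.2
      (by intro h; exact hij (by simpa using h)))
    hcr
  have h1 := card_window (θ := θ) (K := K) (L := L) hp hq hr hrp hrq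
  have h2 := sum_sizes (θ := θ) hp hq hpq hr hrp hrq hL
  have h3 := mul_le_mul_of_nonneg_left h1 (by positivity : 0 ≤ 4 * (log p * log q))
  have h4 := mul_le_mul_of_nonneg_left h2 (by positivity : 0 ≤ 14 * log p + 8 * log q)
  linarith

end

end Pool.Agent.H819
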