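import Mathlib
import Pool.Agent.H819.Gasket6
import Pool.Agent.H706R2.NonConc4

set_option autoImplicit false

namespace Pool.Agent.H819

open Finset Real
open Pool.Agent.H706R2 (dZ dZ_le_of_int round_step X X_shift G G_mono G_zero)

/-- numerical consequence of the window inequality for large `K` -/
lemma large_K {l u : ℝ} (hl : 0 < l) (hu : 0 < u) :
    ∃ (c : ℝ) (K0 : ℕ), 0 < c ∧ ∀ K : ℕ, K0 ≤ K → ∀ F : ℝ, 0 ≤ F → ∀ L : ℝ,
      L ≤ 2 * (2 ^ K * l) / u + 1 →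
      (4 / 3) * 3 ^ K * l ^ 2 ≤ (4 * (l * u) + (14 * l + 8 * u) * (u + l)) * F
        + (3 / 2) ^ K * (l * u) + 2 ^ K * (4 * l ^ 2 + 8 * (l * u))
        + (14 * l + 8 * u) * (u + l) * L → c * 3 ^ K ≤ F := by
  set C0 : ℝ := 4 * (l * u) + (14 * l + 8 * u) * (u + l) with hC0
  have hC0p : 0 < C0 := by positivity
  set D : ℝ := l * u + (4 * l ^ 2 + 8 * (l * u)) + (14 * l + 8 * u) * (u + l) * (2 * l / u + 1)
    with hD
  have hDp : 0 < D := by positivity
  obtain ⟨K0, hK0⟩ := exists_pow_lt_of_lt_one (show 0 < l ^ 2 / (3 * D) by positivity)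
    (show (2 / 3 : ℝ) < 1 by norm_num)
  refine ⟨l ^ 2 / C0, K0, by positivity, ?_⟩
  intro K hK F hF L hL h
  have h1 : (3 / 2 : ℝ) ^ K ≤ 2 ^ K := pow_le_pow_left₀ (by norm_num) (by norm_num) K
  have h2 : (1 : ℝ) ≤ 2 ^ K := one_le_pow₀ (by norm_num)
  have h3 : L ≤ 2 ^ K * (2 * l / u + 1) := by
    refine hL.trans ?_
    have e : 2 * (2 ^ K * l) / u = 2 ^ K * (2 * l / u) := by ring
    rw [e, mul_add]; linarith
  have h4 : (3 / 2 : ℝ) ^ K * (l * u) + 2 ^ K * (4 * l ^ 2 + 8 * (l * u))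
        + (14 * l + 8 * u) * (u + l) * L ≤ 2 ^ K * D := by
    have h5 : (3 / 2 : ℝ) ^ K * (l * u) ≤ 2 ^ K * (l * u) :=
      mul_le_mul_of_nonneg_right h1 (by positivity)
    have h6 : (14 * l + 8 * u) * (u + l) * L ≤
        (14 * l + 8 * u) * (u + l) * (2 ^ K * (2 * l / u + 1)) :=
      mul_le_mul_of_nonneg_left h3 (by positivity)
    have e : 2 ^ K * D = 2 ^ K * (l * u) + 2 ^ K * (4 * l ^ 2 + 8 * (l * u))
        + (14 * l + 8 * u) * (u + l) * (2 ^ K * (2 * l / u + 1)) := by rw [hD]; ring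
    linarith
  have h5 : 2 ^ K * D ≤ (1 / 3) * 3 ^ K * l ^ 2 := by
    have h6 : (2 / 3 : ℝ) ^ K < l ^ 2 / (3 * D) :=
      lt_of_le_of_lt (pow_le_pow_of_le_one (by norm_num) (by norm_num) hK) hK0
    rw [lt_div_iff₀ (by positivity)] at h6
    have e : (2 : ℝ) ^ K = (2 / 3) ^ K * 3 ^ K := by rw [← mul_pow]; norm_num
    rw [e]
    have h3K : (0 : ℝ) < 3 ^ K := by positivity
    have h7 := mul_le_mul_of_nonneg_left h6.le h3K.le
    linarith
  have e : l ^ 2 / C0 * 3 ^ K = 3 ^ K * l ^ 2 / C0 := by ring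
  rw [e, div_le_iff₀ hC0p]
  linarith

/-- lower bound for far points: either many, or a large crossing triangle -/
lemma far_or {p q : ℕ} (hp : 2 ≤ p) (hq : 2 ≤ q) (hpq : Nat.Coprime p q) {r : ℝ} (hr : 0 < r)
    (hrp : ((p : ℝ) + 1) * r ≤ 1) (hrq : ((q : ℝ) + 1) * r ≤ 1) :
    ∃ (c : ℝ) (K0 : ℕ), 0 < c ∧ ∀ K : ℕ, K0 ≤ K → ∀ θ : ℝ,
      (∃ L : ℕ, c * 3 ^ K ≤ ((FW p q r θ K L).card : ℝ)) ∨
      ∃ a b : ℕ, Cor p q r θ a b ∧ a < 2 ^ K ∧ (2 : ℝ) ^ K * log p + b * log q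
      < zc p q r θ (2 * (2 ^ K * log p)) a b ∧ 2 ^ K < 32 * (2 ^ K - a) := by
  have hlq : 0 < log q := log_pos (by exact_mod_cast (by omega : 1 < q))
  have hlp : 0 < log p := log_pos (by exact_mod_cast (by omega : 1 < p))
  obtain ⟨c, K0, hc, h⟩ := large_K hlp hlq
  refine ⟨c, K0, hc, ?_⟩
  intro K hK θ
  set L := ⌈2 * (2 ^ K * log p) / log q⌉₊ with hL
  have hL1 : 2 * (2 ^ K * log p) ≤ L * log q := by
    have := Nat.le_ceil (2 * (2 ^ K * log p) / log q)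
    rwa [div_le_iff₀ hlq] at this
  have hL2 : (L : ℝ) ≤ 2 * (2 ^ K * log p) / log q + 1 :=
    (Nat.ceil_lt_add_one (by positivity)).le
  by_cases hcr : ∀ i ∈ IW p q r θ K L, (2 : ℝ) ^ K * log p + i.2 * log q
      < zc p q r θ (2 * (2 ^ K * log p)) i.1 i.2 → 32 * (2 ^ K - i.1) ≤ 2 ^ K
  · left
    have h1 := window_main (θ := θ) hp hq hpq hr hrp hrq hL1 hcr
    exact ⟨L, h K hK _ (Nat.cast_nonneg _) L hL2 h1⟩
  · right
    push Not at hcr
    obtain ⟨i, hi, h1, h2⟩ := hcr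
    rw [mem_IW] at hi
    exact ⟨i.1, i.2, hi.2.2, hi.1.1, h1, h2⟩

/-- lower bound for far points in a window with a blocked side -/
lemma far_blocked {p q : ℕ} (hp : 2 ≤ p) (hq : 2 ≤ q) (hpq : Nat.Coprime p q) {r : ℝ} (hr : 0 < r)
    (hrp : ((p : ℝ) + 1) * r ≤ 1) (hrq : ((q : ℝ) + 1) * r ≤ 1) :
    ∃ (c : ℝ) (K0 : ℕ), 0 < c ∧ ∀ K : ℕ, K0 ≤ K → ∀ θ : ℝ,
      (∀ n : ℕ, (n : ℝ) * log q < 2 ^ K * log p → r ≤ dZ (Y p q θ (2 ^ K - 1) n)) →
      ∃ L : ℕ, c * 3 ^ K ≤ ((FW p q r θ K L).card : ℝ) := by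
  have hlq : 0 < log q := log_pos (by exact_mod_cast (by omega : 1 < q))
  have hlp : 0 < log p := log_pos (by exact_mod_cast (by omega : 1 < p))
  obtain ⟨c, K0, hc, h⟩ := far_or hp hq hpq hr hrp hrq
  refine ⟨c, K0, hc, ?_⟩
  intro K hK θ hblk
  rcases h K hK θ with h1 | ⟨a, b, hcor, ha, hz, -⟩
  · exact h1
  · exfalso
    have h2 := zc_le p q r θ (2 * (2 ^ K * log p)) a b
    have h3 := hblk b (by linarith)
    have hpos : 1 ≤ 2 ^ K := Nat.one_le_two_pow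
    have e : ((2 ^ K - 1 : ℕ) : ℝ) = 2 ^ K - 1 := by rw [Nat.cast_sub hpos]; push_cast; ring
    have h4 := near_of_lt_zc (θ := θ) (Z := 2 * (2 ^ K * log p)) (m := 2 ^ K - 1) (n := b) hp hq hr hrp
      (by omega : a ≤ 2 ^ K - 1) le_rfl (by rw [e]; linarith)
    linarith

lemma X_eq_Y (p q : ℕ) (θ : ℝ) (m n : ℕ) : X p q θ ((m : ℤ), (n : ℤ)) = Y p q θ m n := by
  unfold X Y; simp only [zpow_natCast]

lemma X_swap' (p q : ℕ) (θ : ℝ) (x y : ℤ) : X p q θ (x, y) = X q p θ (y, x) := by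
  unfold X; ring

/-- many far points near a far point -/
lemma many_far {p q : ℕ} (hp : 2 ≤ p) (hq : 2 ≤ q) (hpq : Nat.Coprime p q) {r : ℝ} (hr : 0 < r)
    (hrp : ((p : ℝ) + 1) * r ≤ 1) (hrq : ((q : ℝ) + 1) * r ≤ 1) :
    ∃ (c : ℝ) (K0 : ℕ), 0 < c ∧ ∀ K : ℕ, K0 ≤ K → ∀ N : ℕ, (N : ℝ) ≤ c * 3 ^ K →
      G p q r (4 * (2 ^ K * log p)) N := by
  have hlq : 0 < log q := log_pos (by exact_mod_cast (by omega : 1 < q))
  have hlp : 0 < log p := log_pos (by exact_mod_cast (by omega : 1 < p))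
  obtain ⟨c1, K1, hc1, h1⟩ := far_or hp hq hpq hr hrp hrq
  obtain ⟨c2, K2, hc2, h2⟩ := far_blocked hp hq hpq hr hrp hrq
  obtain ⟨c3, K3, hc3, h3⟩ := far_blocked hq hp hpq.symm hr hrq hrp
  -- comparison of the two logarithms
  obtain ⟨k0, hk0⟩ := pow_unbounded_of_one_lt (log q / log p) (show (1 : ℝ) < 2 by norm_num)
  have hk0' : log q ≤ 2 ^ k0 * log p := by
    rw [div_lt_iff₀ hlp] at hk0; exact hk0.le
  set k := k0 + 5 with hk
  have hk' : log q ≤ 2 ^ k * log p := by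
    refine hk0'.trans (mul_le_mul_of_nonneg_right ?_ hlp.le)
    exact pow_le_pow_right₀ (by norm_num) (by omega)
  set c : ℝ := min c1 (min c2 c3 / 3 ^ k) with hc
  have hcp : 0 < c := lt_min hc1 (div_pos (lt_min hc2 hc3) (by positivity))
  refine ⟨c, K1 + K2 + K3 + k, hcp, ?_⟩
  intro K hK N hN θ hθ
  obtain ⟨K', rfl⟩ : ∃ K', K = K' + k := ⟨K - k, by omega⟩
  set Z : ℝ := 2 * (2 ^ (K' + k) * log p) with hZ
  have hKp : (0 : ℝ) < 2 ^ (K' + k) * log p := by positivity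
  have h3k : (3 : ℝ) ^ (K' + k) = 3 ^ K' * 3 ^ k := pow_add _ _ _
  have hpq2 : (2 : ℝ) ^ (K' + k) = 2 ^ K' * 2 ^ k := pow_add _ _ _
  have hN2 : (N : ℝ) ≤ c2 * 3 ^ K' := by
    refine hN.trans ?_
    have : c ≤ c2 / 3 ^ k := (min_le_right _ _).trans
      (div_le_div_of_nonneg_right (min_le_left _ _) (by positivity))
    calc c * 3 ^ (K' + k) ≤ c2 / 3 ^ k * 3 ^ (K' + k) :=
          mul_le_mul_of_nonneg_right this (by positivity)
      _ = c2 * 3 ^ K' := by rw [h3k]; field_simp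
  have hN3 : (N : ℝ) ≤ c3 * 3 ^ K' := by
    refine hN.trans ?_
    have : c ≤ c3 / 3 ^ k := (min_le_right _ _).trans
      (div_le_div_of_nonneg_right (min_le_right _ _) (by positivity))
    calc c * 3 ^ (K' + k) ≤ c3 / 3 ^ k * 3 ^ (K' + k) :=
          mul_le_mul_of_nonneg_right this (by positivity)
      _ = c3 * 3 ^ K' := by rw [h3k]; field_simp
  have hN1 : (N : ℝ) ≤ c1 * 3 ^ (K' + k) :=
    hN.trans (mul_le_mul_of_nonneg_right (min_le_left _ _) (by positivity))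
  have hkp : (0 : ℝ) < 2 ^ K' * log p := by positivity
  have hkk : 32 * (2 ^ K' * log p) ≤ 2 ^ (K' + k) * log p := by
    rw [hpq2, hk, pow_add]
    have : (1 : ℝ) ≤ 2 ^ k0 := one_le_pow₀ (by norm_num)
    nlinarith
  have hkq : 2 ^ K' * log q ≤ 2 ^ (K' + k) * log p := by
    rw [hpq2, mul_assoc]
    exact mul_le_mul_of_nonneg_left hk' (by positivity)
  rcases h1 (K' + k) (by omega) θ with ⟨L, hL⟩ | ⟨a, b, hcor, ha, hz, h32⟩
  · -- many far points in the main window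
    refine ⟨(FW p q r θ (K' + k) L).map
      ⟨fun c => ((c.1 : ℤ), (c.2 : ℤ)), fun c d h => by
        simp only [Prod.mk.injEq, Nat.cast_inj] at h; exact Prod.ext h.1 h.2⟩, ?_, ?_⟩
    · rw [card_map]; exact_mod_cast hN1.trans hL
    · intro c hc
      rw [mem_map] at hc
      obtain ⟨d, hd, rfl⟩ := hc
      rw [mem_FW] at hd
      obtain ⟨⟨hd1, hd2⟩, hd3, hd4⟩ := hd
      simp only [Function.Embedding.coeFn_mk]
      rw [X_eq_Y]
      have e1 : (0 : ℝ) ≤ d.1 * log p := by positivity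
      have e2 : (0 : ℝ) ≤ d.2 * log q := by positivity
      refine ⟨hd4, ?_, ?_⟩
      · simp only [Int.cast_natCast]; rw [abs_of_nonneg (Nat.cast_nonneg _)]; linarith
      · simp only [Int.cast_natCast]; rw [abs_of_nonneg (Nat.cast_nonneg _)]; linarith
  · have hzle := zc_le p q r θ Z a b
    have hbZ : (b : ℝ) * log q ≤ Z := by linarith
    have haR : (a : ℝ) < 2 ^ (K' + k) := by exact_mod_cast ha
    rcases Nat.eq_zero_or_pos a with ha0 | ha0
    · -- the triangle starts on the left side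
      subst ha0
      have hb0 : b ≠ 0 := by
        rintro rfl
        have := hcor.1
        have e : Y p q θ 0 0 = θ := by unfold Y; simp
        rw [e] at this
        linarith
      obtain ⟨b0, rfl⟩ : ∃ b0, b = b0 + 1 := ⟨b - 1, by omega⟩
      set θ' : ℝ := X q p θ ((b0 : ℤ) + 1 - 2 ^ K', 0) with hθ'
      have hval : ∀ m n : ℕ, Y q p θ' n m = X p q θ ((m : ℤ), (b0 : ℤ) + 1 - 2 ^ K' + n) := by
        intro m n
        rw [← X_eq_Y, hθ', X_shift (by omega) (by omega), X_swap' p q]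
        simp
      obtain ⟨L, hL⟩ := h3 K' (by omega) θ' (by
        intro m hm
        rw [hval]
        have h1 : (1 : ℕ) ≤ 2 ^ K' := Nat.one_le_two_pow
        have e : (b0 : ℤ) + 1 - 2 ^ K' + ((2 ^ K' - 1 : ℕ) : ℤ) = ((b0 : ℕ) : ℤ) := by
          rw [Nat.cast_sub h1]; push_cast; ring
        rw [e, X_eq_Y]
        have h4 := bottom_far (Z := Z) hp hq hpq hr hrq hcor m (by
          push_cast at hz ⊢
          linarith)
        rwa [Nat.zero_add] at h4)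
      refine ⟨(FW q p r θ' K' L).map
        ⟨fun c => ((c.2 : ℤ), (b0 : ℤ) + 1 - 2 ^ K' + c.1), fun c d h => by
          simp only [Prod.mk.injEq, Nat.cast_inj, add_right_inj] at h; exact Prod.ext h.2 h.1⟩,
          ?_, ?_⟩
      · rw [card_map]; exact_mod_cast hN3.trans hL
      · intro c hc
        rw [mem_map] at hc
        obtain ⟨d, hd, rfl⟩ := hc
        rw [mem_FW] at hd
        obtain ⟨⟨hd1, hd2⟩, hd3, hd4⟩ := hd
        simp only [Function.Embedding.coeFn_mk]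
        rw [← hval]
        have e1 : (0 : ℝ) ≤ d.1 * log q := by positivity
        have e2 : (0 : ℝ) ≤ d.2 * log p := by positivity
        have e3 : (0 : ℝ) ≤ b0 * log q := by positivity
        have e4 : (d.1 : ℝ) < 2 ^ K' := by exact_mod_cast hd1
        have e5 : (0 : ℝ) ≤ d.1 := Nat.cast_nonneg _
        refine ⟨hd4, ?_, ?_⟩
        · simp only [Int.cast_natCast]; rw [abs_of_nonneg (Nat.cast_nonneg _)]
          linarith
        · push_cast
          push_cast at hbZ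
          have h5 : |(b0 : ℝ) + 1 - 2 ^ K' + d.1| ≤ (b0 + 1) + 2 ^ K' := by
            have hb0 : (0 : ℝ) ≤ b0 := Nat.cast_nonneg _
            rw [abs_le]; constructor <;> linarith
          have h6 := mul_le_mul_of_nonneg_right h5 hlq.le
          nlinarith
    · -- the left side of the triangle is blocked
      obtain ⟨a0, rfl⟩ : ∃ a0, a = a0 + 1 := ⟨a - 1, by omega⟩
      set θ' : ℝ := X p q θ ((a0 : ℤ) + 1 - 2 ^ K', (b : ℤ)) with hθ'
      have hval : ∀ m n : ℕ, Y p q θ' m n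
          = X p q θ ((a0 : ℤ) + 1 - 2 ^ K' + m, (b : ℤ) + n) := by
        intro m n
        rw [← X_eq_Y, hθ', X_shift (by omega) (by omega)]
        simp
      have hKa : 2 ^ K' + (a0 + 1) ≤ 2 ^ (K' + k) := by
        have e : 2 ^ (K' + k) = 2 ^ K' * 2 ^ k0 * 32 := by rw [hk, pow_add, pow_add]; norm_num; ring
        have e2 : 1 ≤ 2 ^ k0 := Nat.one_le_two_pow
        have e3 : 2 ^ K' ≤ 2 ^ K' * 2 ^ k0 := Nat.le_mul_of_pos_right _ (by omega)
        omega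
      have hKaR : (2 : ℝ) ^ K' + (a0 + 1) ≤ 2 ^ (K' + k) := by exact_mod_cast hKa
      obtain ⟨L, hL⟩ := h2 K' (by omega) θ' (by
        intro n hn
        rw [hval]
        have h1 : (1 : ℕ) ≤ 2 ^ K' := Nat.one_le_two_pow
        have e : (a0 : ℤ) + 1 - 2 ^ K' + ((2 ^ K' - 1 : ℕ) : ℤ) = ((a0 : ℕ) : ℤ) := by
          rw [Nat.cast_sub h1]; push_cast; ring
        have e2 : (b : ℤ) + n = ((b + n : ℕ) : ℤ) := by push_cast; ring
        rw [e, e2, X_eq_Y]
        refine left_far (Z := Z) hp hq hpq hr hrp hcor n ?_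
        have h5 := mul_le_mul_of_nonneg_right hKaR hlp.le
        push_cast
        nlinarith)
      refine ⟨(FW p q r θ' K' L).map
        ⟨fun c => ((a0 : ℤ) + 1 - 2 ^ K' + c.1, (b : ℤ) + c.2), fun c d h => by
          simp only [Prod.mk.injEq, Nat.cast_inj, add_right_inj] at h; exact Prod.ext h.1 h.2⟩,
          ?_, ?_⟩
      · rw [card_map]; exact_mod_cast hN2.trans hL
      · intro c hc
        rw [mem_map] at hc
        obtain ⟨d, hd, rfl⟩ := hc
        rw [mem_FW] at hd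
        obtain ⟨⟨hd1, hd2⟩, hd3, hd4⟩ := hd
        simp only [Function.Embedding.coeFn_mk]
        rw [← hval]
        have e1 : (0 : ℝ) ≤ d.1 * log p := by positivity
        have e2 : (0 : ℝ) ≤ d.2 * log q := by positivity
        have e4 : (d.1 : ℝ) < 2 ^ K' := by exact_mod_cast hd1
        have e5 : (0 : ℝ) ≤ d.1 := Nat.cast_nonneg _
        refine ⟨hd4, ?_, ?_⟩
        · push_cast
          have h5 : |(a0 : ℝ) + 1 - 2 ^ K' + d.1| ≤ 2 ^ (K' + k) := by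
            have ha0 : (0 : ℝ) ≤ a0 := Nat.cast_nonneg _
            rw [abs_le]; constructor <;> linarith
          have h6 := mul_le_mul_of_nonneg_right h5 hlp.le
          linarith
        · push_cast
          rw [abs_of_nonneg (by positivity)]
          nlinarith

/-- Growth with the exponent `log 3 / log 2`. -/
theorem gasket_growth {p q : ℕ} (hp : 2 ≤ p) (hq : 2 ≤ q) (hpq : Nat.Coprime p q) {r : ℝ}
    (hr : 0 < r) (hrp : ((p : ℝ) + 1) * r ≤ 1) (hrq : ((q : ℝ) + 1) * r ≤ 1) :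
    ∃ c : ℝ, 0 < c ∧ ∀ j : ℕ, G p q r (c * (((2 : ℕ) : ℝ) ^ j - 1)) ((2 + 1) ^ j) := by
  have hlp : 0 < log p := log_pos (by exact_mod_cast (by omega : 1 < p))
  obtain ⟨c, K0, hc, h⟩ := many_far hp hq hpq hr hrp hrq
  obtain ⟨j0, hj0⟩ := pow_unbounded_of_one_lt (1 / c) (show (1 : ℝ) < 3 by norm_num)
  rw [div_lt_iff₀ hc] at hj0
  refine ⟨8 * (2 ^ (K0 + j0) * log p), by positivity, ?_⟩
  intro j
  rcases Nat.eq_zero_or_pos j with rfl | hj
  · simpa using G_zero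
  · have h1 := h (K0 + j0 + j) (by omega) ((2 + 1) ^ j) (by
      have e0 : (((2 + 1) ^ j : ℕ) : ℝ) = 3 ^ j := by push_cast; norm_num
      have e : (3 : ℝ) ^ (K0 + j0 + j) = 3 ^ K0 * 3 ^ j0 * 3 ^ j := by rw [pow_add, pow_add]
      rw [e, e0]
      have h2 : (1 : ℝ) ≤ 3 ^ K0 := one_le_pow₀ (by norm_num)
      have h3 : (0 : ℝ) < 3 ^ j := by positivity
      have h4 : (1 : ℝ) ≤ c * (3 ^ K0 * 3 ^ j0) := by nlinarith
      calc (3 : ℝ) ^ j = 1 * 3 ^ j := by ring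
        _ ≤ c * (3 ^ K0 * 3 ^ j0) * 3 ^ j := mul_le_mul_of_nonneg_right h4 h3.le
        _ = c * (3 ^ K0 * 3 ^ j0 * 3 ^ j) := by ring)
    refine G_mono h1 ?_ le_rfl
    have e : (2 : ℝ) ^ (K0 + j0 + j) = 2 ^ (K0 + j0) * 2 ^ j := pow_add _ _ _
    rw [e]
    have h2 : (2 : ℝ) ≤ 2 ^ j := by
      calc (2 : ℝ) = 2 ^ 1 := by norm_num
        _ ≤ 2 ^ j := pow_le_pow_right₀ (by norm_num) hj
    have h3 : (0 : ℝ) < 2 ^ (K0 + j0) * log p := by positivity
    push_cast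
    nlinarith

end Pool.Agent.H819
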