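import Mathlib
import Pool.Agent.H706R2.DigitChange3
import Pool.Agent.H819.Gasket7

set_option autoImplicit false

open MeasureTheory Real Filter

namespace Pool.Agent.H819

open Pool.Agent.H706R2 (dZ dZ_le_of_int round_step X X_shift G G_mono G_zero escape norm_coe_eq_dZ mp_pow2 measurable_norm_set pow_bracket dig changes_lower liouville_bound)

/-- growth predicate with two radii -/
def G2 (p q : ℕ) (r r' R : ℝ) (N : ℕ) : Prop :=
  ∀ θ : ℝ, r ≤ dZ θ → ∃ S : Finset (ℤ × ℤ), N ≤ S.card ∧ ∀ c ∈ S, r' ≤ dZ (X p q θ c) ∧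
    |(c.1 : ℝ)| * log p ≤ R ∧ |(c.2 : ℝ)| * log q ≤ R

lemma count_far2 {p q : ℕ} (hp : 2 ≤ p) (hq : 2 ≤ q) {r r' R t : ℝ} {N : ℕ}
    (hrp : ((p : ℝ) + 1) * r ≤ 1) (hG : G2 p q r r' R N) {A B I : ℕ} (hA : R < (A + 1) * log p)
    (hB : R < (B + 1) * log q) (hI : t ≤ I * log p) (y : UnitAddCircle)
    (hy : exp (-t) ≤ ‖(p ^ A * q ^ B) • y‖) :
    N ≤ ((Finset.range (2 * A + I + 1) ×ˢ Finset.range (2 * B + 1)).filter
      (fun u => r' ≤ ‖(p ^ u.1 * q ^ u.2) • y‖)).card := by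
  have hlq : 0 < log q := log_pos (by exact_mod_cast (by omega : 1 < q))
  have hlp : 0 < log p := log_pos (by exact_mod_cast (by omega : 1 < p))
  have hpR : (p : ℝ) ≠ 0 := by positivity
  have hqR : (q : ℝ) ≠ 0 := by positivity
  obtain ⟨y', rfl⟩ := QuotientAddGroup.mk_surjective y
  have hsm : ∀ n : ℕ, n • ((y' : ℝ) : UnitAddCircle) = ((n * y' : ℝ) : UnitAddCircle) := by
    intro n
    rw [← AddCircle.coe_nsmul, nsmul_eq_mul]
  change exp (-t) ≤ ‖(p ^ A * q ^ B) • ((y' : ℝ) : UnitAddCircle)‖ at hy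
  rw [hsm, norm_coe_eq_dZ] at hy
  obtain ⟨i, hi, hfar⟩ := escape hp hrp hy hI
  obtain ⟨S, hS1, hS2⟩ := hG _ hfar
  set θ : ℝ := (p : ℝ) ^ i * (((p ^ A * q ^ B : ℕ) : ℝ) * y') with hθ
  have hb1 : ∀ c ∈ S, |c.1| ≤ (A : ℤ) := by
    intro c hc
    have h1 := (hS2 c hc).2.1
    have h2 : |(c.1 : ℝ)| * log p < (A + 1) * log p := lt_of_le_of_lt h1 hA
    have h3 : |(c.1 : ℝ)| < A + 1 := lt_of_mul_lt_mul_right h2 hlp.le
    have h4 : |c.1| < (A : ℤ) + 1 := by exact_mod_cast h3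
    omega
  have hb2 : ∀ c ∈ S, |c.2| ≤ (B : ℤ) := by
    intro c hc
    have h1 := (hS2 c hc).2.2
    have h2 : |(c.2 : ℝ)| * log q < (B + 1) * log q := lt_of_le_of_lt h1 hB
    have h3 : |(c.2 : ℝ)| < B + 1 := lt_of_mul_lt_mul_right h2 hlq.le
    have h4 : |c.2| < (B : ℤ) + 1 := by exact_mod_cast h3
    omega
  refine hS1.trans ?_
  refine Finset.card_le_card_of_injOn (fun c => ((A + i + c.1).toNat, (B + c.2).toNat)) ?_ ?_
  · intro c hc
    have hc' : c ∈ S := hc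
    have h1 := abs_le.mp (hb1 c hc')
    have h2 := abs_le.mp (hb2 c hc')
    simp only [Finset.coe_filter, Set.mem_ofPred_eq, Finset.mem_product, Finset.mem_range]
    refine ⟨⟨by omega, by omega⟩, ?_⟩
    change r' ≤ ‖(p ^ (A + i + c.1).toNat * q ^ (B + c.2).toNat) • ((y' : ℝ) : UnitAddCircle)‖
    rw [hsm, norm_coe_eq_dZ]
    have h3 := (hS2 c hc').1
    have e : X p q θ c
        = ((p ^ (A + i + c.1).toNat * q ^ (B + c.2).toNat : ℕ) : ℝ) * y' := by
      unfold X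
      rw [hθ]
      push_cast
      have e1 : (p : ℝ) ^ (A + i + c.1).toNat = (p : ℝ) ^ A * (p : ℝ) ^ i * (p : ℝ) ^ c.1 := by
        rw [← zpow_natCast, Int.toNat_of_nonneg (by omega), zpow_add₀ hpR, zpow_add₀ hpR,
          zpow_natCast, zpow_natCast]
      have e2 : (q : ℝ) ^ (B + c.2).toNat = (q : ℝ) ^ B * (q : ℝ) ^ c.2 := by
        rw [← zpow_natCast, Int.toNat_of_nonneg (by omega), zpow_add₀ hqR, zpow_natCast]
      rw [e1, e2]; ring
    rw [← e]; exact h3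
  · intro c hc d hd hcd
    have hc' : c ∈ S := hc
    have hd' : d ∈ S := hd
    have h1 := abs_le.mp (hb1 c hc')
    have h2 := abs_le.mp (hb2 c hc')
    have h3 := abs_le.mp (hb1 d hd')
    have h4 := abs_le.mp (hb2 d hd')
    simp only [Prod.mk.injEq] at hcd
    ext
    · omega
    · omega

lemma measure_ineq2 {p q : ℕ} (hp : 2 ≤ p) (hq : 2 ≤ q) {r r' R t : ℝ} {N : ℕ}
    (hrp : ((p : ℝ) + 1) * r ≤ 1) (hG : G2 p q r r' R N) {A B I : ℕ} (hA : R < (A + 1) * log p)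
    (hB : R < (B + 1) * log q) (hI : t ≤ I * log p) (μ : Measure UnitAddCircle)
    [IsProbabilityMeasure μ]
    (hμp : MeasurePreserving (fun x : UnitAddCircle => p • x) μ μ)
    (hμq : MeasurePreserving (fun x : UnitAddCircle => q • x) μ μ) :
    (N : ℝ) * μ.real {x | exp (-t) ≤ ‖x‖} ≤
      ((2 * A + I + 1) * (2 * B + 1)) * μ.real {x | r' ≤ ‖x‖} := by
  set E : Set UnitAddCircle := {x | exp (-t) ≤ ‖x‖} with hE
  set F : Set UnitAddCircle := {x | r' ≤ ‖x‖} with hF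
  have hEm : MeasurableSet E := measurable_norm_set _
  have hFm : MeasurableSet F := measurable_norm_set _
  set P := Finset.range (2 * A + I + 1) ×ˢ Finset.range (2 * B + 1) with hP
  have key : (N : ENNReal) * μ E ≤ (P.card : ENNReal) * μ F := by
    have h1 : ∀ y : UnitAddCircle,
        ((fun x : UnitAddCircle => (p ^ A * q ^ B) • x) ⁻¹' E).indicator (fun _ => (N : ENNReal)) y
        ≤ ∑ u ∈ P, ((fun x : UnitAddCircle => (p ^ u.1 * q ^ u.2) • x) ⁻¹' F).indicator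
            (fun _ => (1 : ENNReal)) y := by
      intro y
      by_cases hy : y ∈ (fun x : UnitAddCircle => (p ^ A * q ^ B) • x) ⁻¹' E
      · rw [Set.indicator_of_mem hy]
        have h2 := count_far2 hp hq hrp hG hA hB hI y hy
        have h3 : ∑ u ∈ P, ((fun x : UnitAddCircle => (p ^ u.1 * q ^ u.2) • x) ⁻¹' F).indicator
            (fun _ => (1 : ENNReal)) y
            = ((P.filter (fun u => r' ≤ ‖(p ^ u.1 * q ^ u.2) • y‖)).card : ENNReal) := by
          rw [Finset.card_eq_sum_ones, Finset.sum_filter, Nat.cast_sum]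
          refine Finset.sum_congr rfl (fun u _ => ?_)
          by_cases hu : r' ≤ ‖(p ^ u.1 * q ^ u.2) • y‖
          · rw [Set.indicator_of_mem (by exact hu), if_pos hu]; simp
          · rw [Set.indicator_of_notMem (by exact hu), if_neg hu]; simp
        rw [h3]
        exact_mod_cast h2
      · rw [Set.indicator_of_notMem hy]; exact bot_le
    have h2 := lintegral_mono (μ := μ) h1
    rw [lintegral_indicator_const ((mp_pow2 hμp hμq A B).measurable hEm),
      (mp_pow2 hμp hμq A B).measure_preimage hEm.nullMeasurableSet,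
      lintegral_finsetSum _ (fun u _ => by
        exact (measurable_const.indicator ((mp_pow2 hμp hμq u.1 u.2).measurable hFm)))] at h2
    refine h2.trans ?_
    have h3 : ∀ u ∈ P, ∫⁻ y, ((fun x : UnitAddCircle => (p ^ u.1 * q ^ u.2) • x) ⁻¹' F).indicator
            (fun _ => (1 : ENNReal)) y ∂μ = μ F := by
      intro u _
      rw [lintegral_indicator_const ((mp_pow2 hμp hμq u.1 u.2).measurable hFm),
        (mp_pow2 hμp hμq u.1 u.2).measure_preimage hFm.nullMeasurableSet, one_mul]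
    rw [Finset.sum_congr rfl h3, Finset.sum_const, nsmul_eq_mul]
  have hcard : (P.card : ℝ) = (2 * A + I + 1) * (2 * B + 1) := by
    rw [hP, Finset.card_product, Finset.card_range, Finset.card_range]; push_cast; ring
  have h4 := ENNReal.toReal_mono (by finiteness) key
  rw [ENNReal.toReal_mul, ENNReal.toReal_mul, ENNReal.toReal_natCast, ENNReal.toReal_natCast,
    hcard] at h4
  exact h4

lemma main_of_growth {p q : ℕ} (hp : 2 ≤ p) (hq : 2 ≤ q) {r r' : ℝ}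
    (hrp : ((p : ℝ) + 1) * r ≤ 1) {C : ℕ} {c : ℝ} (hC : 2 ≤ C) (hc : 0 ≤ c)
    (hsc : ∀ j : ℕ, G2 p q r r' (c * ((C : ℝ) ^ j - 1)) ((C + 1) ^ j)) :
    ∃ D : ℝ, ∀ μ : Measure UnitAddCircle, IsProbabilityMeasure μ →
      MeasurePreserving (fun x : UnitAddCircle => p • x) μ μ →
      MeasurePreserving (fun x : UnitAddCircle => q • x) μ μ →
      ∀ t : ℝ, 1 ≤ t → μ.real {x | exp (-t) ≤ ‖x‖} ≤
        D * t ^ (2 - log (C + 1) / log C) * μ.real {x | r' ≤ ‖x‖} := by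
  have hlq : 0 < log q := log_pos (by exact_mod_cast (by omega : 1 < q))
  have hlp : 0 < log p := log_pos (by exact_mod_cast (by omega : 1 < p))
  have hCR : (2 : ℝ) ≤ C := by exact_mod_cast hC
  have hlC : 0 < log (C : ℝ) := log_pos (by linarith)
  set K1 : ℝ := 2 * c / log p + 1 / log p + 2 with hK1
  set K2 : ℝ := 2 * c / log q + 1 with hK2
  have hK1p : 0 < K1 := by positivity
  have hK2p : 0 < K2 := by positivity
  refine ⟨(C + 1) * (K1 * K2), ?_⟩
  intro μ hμ hμp hμq t ht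
  set j := ⌊log t / log C⌋₊ with hj
  have hlt : 0 ≤ log t := log_nonneg ht
  have hj1 : (C : ℝ) ^ j ≤ t := by
    have h1 : (j : ℝ) ≤ log t / log C := Nat.floor_le (by positivity)
    rw [le_div_iff₀ hlC] at h1
    rw [← log_le_log_iff (by positivity) (by linarith), log_pow]
    exact h1
  have hj2 : log t < (j + 1) * log C := by
    have h1 := Nat.lt_floor_add_one (log t / log C)
    rwa [div_lt_iff₀ hlC] at h1
  set R : ℝ := c * (C ^ j - 1) with hR
  have hR0 : 0 ≤ R := mul_nonneg hc (by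
    have : (1 : ℝ) ≤ (C : ℝ) ^ j := one_le_pow₀ (by linarith)
    linarith)
  have hR1 : R ≤ c * t := by
    rw [hR]; exact mul_le_mul_of_nonneg_left (by linarith) hc
  set A := ⌊R / log p⌋₊ with hA
  set B := ⌊R / log q⌋₊ with hB
  set I := ⌈t / log p⌉₊ with hI
  have hA1 : R < (A + 1) * log p := by
    have := Nat.lt_floor_add_one (R / log p)
    rwa [div_lt_iff₀ hlp] at this
  have hB1 : R < (B + 1) * log q := by
    have := Nat.lt_floor_add_one (R / log q)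
    rwa [div_lt_iff₀ hlq] at this
  have hI1 : t ≤ I * log p := by
    have := Nat.le_ceil (t / log p)
    rwa [div_le_iff₀ hlp] at this
  have hA2 : (A : ℝ) ≤ c * t / log p :=
    (Nat.floor_le (by positivity)).trans (div_le_div_of_nonneg_right hR1 hlp.le)
  have hB2 : (B : ℝ) ≤ c * t / log q :=
    (Nat.floor_le (by positivity)).trans (div_le_div_of_nonneg_right hR1 hlq.le)
  have hI2 : (I : ℝ) ≤ t / log p + 1 := (Nat.ceil_lt_add_one (by positivity)).le
  have h1 := measure_ineq2 hp hq hrp (hsc j) hA1 hB1 hI1 μ hμp hμq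
  have h2 : (2 * (A : ℝ) + I + 1) ≤ K1 * t := by
    have : K1 * t = 2 * (c * t / log p) + t / log p + 2 * t := by rw [hK1]; ring
    rw [this]; linarith
  have h3 : (2 * (B : ℝ) + 1) ≤ K2 * t := by
    have : K2 * t = 2 * (c * t / log q) + t := by rw [hK2]; ring
    rw [this]; linarith
  have h4 : ((2 * (A : ℝ) + I + 1) * (2 * B + 1)) ≤ (K1 * t) * (K2 * t) :=
    mul_le_mul h2 h3 (by positivity) (by positivity)
  have hF0 : 0 ≤ μ.real {x : UnitAddCircle | r' ≤ ‖x‖} := measureReal_nonneg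
  set E := μ.real {x : UnitAddCircle | exp (-t) ≤ ‖x‖} with hEdef
  set F := μ.real {x : UnitAddCircle | r' ≤ ‖x‖} with hFdef
  have h5 : (((C + 1) ^ j : ℕ) : ℝ) * E ≤ (K1 * K2) * t ^ 2 * F := by
    refine h1.trans ?_
    calc _ ≤ (K1 * t) * (K2 * t) * F := mul_le_mul_of_nonneg_right h4 hF0
      _ = _ := by ring
  -- t ^ s ≤ (C+1)^(j+1)
  set s : ℝ := log (C + 1) / log C with hs
  have hlC1 : 0 < log ((C : ℝ) + 1) := log_pos (by linarith)
  have h6 : t ^ s ≤ ((C : ℝ) + 1) ^ (j + 1) := by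
    rw [rpow_def_of_pos (by linarith), ← log_le_log_iff (exp_pos _) (by positivity), log_exp,
      log_pow]
    have h7 : log t * s ≤ ((j : ℝ) + 1) * log C * s :=
      mul_le_mul_of_nonneg_right hj2.le (by positivity)
    have h8 : ((j : ℝ) + 1) * log C * s = ((j : ℝ) + 1) * log (C + 1) := by
      rw [hs]; field_simp
    push_cast
    linarith
  have h9 : t ^ s * E ≤ (C + 1) * ((K1 * K2) * t ^ 2 * F) := by
    have hE0 : 0 ≤ E := measureReal_nonneg
    calc t ^ s * E ≤ ((C : ℝ) + 1) ^ (j + 1) * E := mul_le_mul_of_nonneg_right h6 hE0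
      _ = (C + 1) * ((((C + 1) ^ j : ℕ) : ℝ) * E) := by push_cast; ring
      _ ≤ _ := mul_le_mul_of_nonneg_left h5 (by positivity)
  have hts : 0 < t ^ s := rpow_pos_of_pos (by linarith) _
  have h10 : t ^ (2 - s) = t ^ 2 / t ^ s := by
    rw [rpow_sub (by linarith)]; norm_num
  rw [h10]
  have h11 : E ≤ (C + 1) * ((K1 * K2) * t ^ 2 * F) / t ^ s := by
    rw [le_div_iff₀ hts]; linarith
  refine h11.trans (le_of_eq ?_)
  ring

lemma far_count2 {p q : ℕ} (hp : 2 ≤ p) (hq : 2 ≤ q) {r r' : ℝ} (hrp : ((p : ℝ) + 1) * r ≤ 1)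
    {C : ℕ} {c : ℝ} (hC : 2 ≤ C) (hc : 0 < c) (hsc : ∀ j : ℕ, G2 p q r r' (c * ((C : ℝ) ^ j - 1)) ((C + 1) ^ j)) (y : UnitAddCircle)
    {C1 : ℝ} (hC1 : 0 ≤ C1)
    (hy : ∀ m n : ℕ, exp (-(C1 * (m + n + 1))) ≤ ‖(p ^ m * q ^ n) • y‖) :
    ∃ c' : ℝ, 0 < c' ∧ ∀ᶠ M : ℕ in atTop, c' * (M : ℝ) ^ (log (C + 1) / log C) ≤
      (((Finset.range M ×ˢ Finset.range M).filter
        (fun u => r' ≤ ‖(p ^ u.1 * q ^ u.2) • y‖)).card : ℝ) := by
  have hlq : 0 < log q := log_pos (by exact_mod_cast (by omega : 1 < q))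
  have hlp : 0 < log p := log_pos (by exact_mod_cast (by omega : 1 < p))
  have hCR : (2 : ℝ) ≤ C := by exact_mod_cast hC
  have hlC : 0 < log (C : ℝ) := log_pos (by linarith)
  set s : ℝ := log (C + 1) / log C with hs
  have hs0 : 0 < s := div_pos (log_pos (by linarith)) hlC
  set l : ℝ := min (log p) (log q) with hl
  have hl0 : 0 < l := lt_min hlp hlq
  obtain ⟨K, hK⟩ := exists_nat_gt (3 + 2 * C1 / log p)
  have hK0 : (0 : ℝ) < K := lt_trans (by positivity) hK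
  have hK0' : 0 < K := by exact_mod_cast hK0
  set w : ℝ := l / c with hw
  have hw0 : 0 < w := div_pos hl0 hc
  refine ⟨(w / (2 * K)) ^ s / (C + 1), by positivity, ?_⟩
  -- thresholds
  obtain ⟨N1, hN1⟩ := exists_nat_gt (C1 / log p + 3)
  obtain ⟨N2, hN2⟩ := exists_nat_gt (1 / w)
  filter_upwards [eventually_ge_atTop (K * (N1 + N2 + 1))] with M hM
  set M' := M / K with hM'
  have hM'1 : N1 + N2 + 1 ≤ M' := by
    rw [hM', Nat.le_div_iff_mul_le hK0']
    rw [mul_comm]; exact hM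
  have hM'K : M' * K ≤ M := Nat.div_mul_le_self M K
  have hM'2 : M < (M' + 1) * K := by
    rw [hM']; exact (Nat.div_lt_iff_lt_mul hK0').mp (Nat.lt_succ_self _)
  have hM'R : ((N1 : ℝ) + N2 + 1) ≤ M' := by exact_mod_cast hM'1
  have hN1nn : (0 : ℝ) ≤ N1 := Nat.cast_nonneg _
  have hN2nn : (0 : ℝ) ≤ N2 := Nat.cast_nonneg _
  -- scale
  have ht1 : 1 ≤ w * M' := by
    have h1 : 1 / w < M' := by linarith
    rw [div_lt_iff₀ hw0] at h1
    linarith
  obtain ⟨hj1, hj2⟩ := pow_bracket hC ht1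
  set j := ⌊log (w * M') / log C⌋₊ with hj
  have hG := hsc j
  set R : ℝ := c * (C ^ j - 1) with hR
  have hRle : R ≤ l * M' := by
    have h1 : R ≤ c * (w * M') := by
      rw [hR]; exact mul_le_mul_of_nonneg_left (by linarith) hc.le
    have h2 : c * (w * M') = l * M' := by rw [hw]; field_simp
    linarith
  have hA : R < (M' + 1) * log p := by
    have h1 : l * M' ≤ log p * M' := mul_le_mul_of_nonneg_right (min_le_left _ _) (Nat.cast_nonneg _)
    linarith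
  have hB : R < (M' + 1) * log q := by
    have h1 : l * M' ≤ log q * M' := mul_le_mul_of_nonneg_right (min_le_right _ _) (Nat.cast_nonneg _)
    linarith
  set t : ℝ := C1 * (M' + M' + 1) with ht
  have ht0 : 0 ≤ t := by positivity
  set I := ⌈t / log p⌉₊ with hI
  have hI1 : t ≤ I * log p := by
    have := Nat.le_ceil (t / log p)
    rwa [div_le_iff₀ hlp] at this
  have hI2 : (I : ℝ) < t / log p + 1 := Nat.ceil_lt_add_one (by positivity)
  have hcnt := count_far2 hp hq hrp hG hA hB hI1 y (hy M' M')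
  have hfit : 2 * M' + I + 1 ≤ M := by
    have h1 : (2 * (M' : ℝ) + I + 1) < M := by
      have h2 : t / log p = 2 * C1 / log p * M' + C1 / log p := by
        rw [ht]; field_simp; ring
      have h3 : (M' : ℝ) * K ≤ M := by exact_mod_cast hM'K
      have h4 : (M' : ℝ) * (3 + 2 * C1 / log p) ≤ M' * K :=
        mul_le_mul_of_nonneg_left hK.le (Nat.cast_nonneg _)
      have h5 : (M' : ℝ) * (3 + 2 * C1 / log p) = 3 * M' + 2 * C1 / log p * M' := by ring
      linarith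
    exact_mod_cast h1.le
  have hfit2 : 2 * M' + 1 ≤ M := by omega
  have hsub : ((Finset.range (2 * M' + I + 1) ×ˢ Finset.range (2 * M' + 1)).filter
      (fun u => r' ≤ ‖(p ^ u.1 * q ^ u.2) • y‖)).card ≤
      ((Finset.range M ×ˢ Finset.range M).filter
        (fun u => r' ≤ ‖(p ^ u.1 * q ^ u.2) • y‖)).card := by
    refine Finset.card_le_card (Finset.filter_subset_filter _ (Finset.product_subset_product ?_ ?_))
    · exact Finset.range_subset_range.mpr hfit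
    · exact Finset.range_subset_range.mpr hfit2
  have h6 : ((C : ℝ) + 1) ^ j ≤ (((Finset.range M ×ˢ Finset.range M).filter
        (fun u => r' ≤ ‖(p ^ u.1 * q ^ u.2) • y‖)).card : ℝ) := by
    have := hcnt.trans hsub
    exact_mod_cast this
  refine le_trans ?_ h6
  have h7 : (w / (2 * K)) ^ s * (M : ℝ) ^ s ≤ (w * M') ^ s := by
    rw [← mul_rpow (by positivity) (by positivity)]
    refine rpow_le_rpow (by positivity) ?_ hs0.le
    have h8 : (M : ℝ) ≤ (M' + 1) * K := by exact_mod_cast hM'2.le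
    have h9 : (1 : ℝ) ≤ M' := by linarith
    have h10 : (M : ℝ) ≤ 2 * K * M' := by nlinarith
    calc w / (2 * K) * M ≤ w / (2 * K) * (2 * K * M') :=
          mul_le_mul_of_nonneg_left h10 (by positivity)
      _ = w * M' := by field_simp
  have h11 : (w / (2 * K)) ^ s / (C + 1) * (M : ℝ) ^ s
      = (w / (2 * K)) ^ s * (M : ℝ) ^ s / (C + 1) := by ring
  rw [h11, div_le_iff₀ (by positivity)]
  calc (w / (2 * K)) ^ s * (M : ℝ) ^ s ≤ (w * M') ^ s := h7
    _ ≤ ((C : ℝ) + 1) ^ (j + 1) := hj2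
    _ = ((C : ℝ) + 1) ^ j * (C + 1) := by ring

lemma far_count_diag2 {p q : ℕ} (hp : 2 ≤ p) (hq : 2 ≤ q) {r r' : ℝ} (hrp : ((p : ℝ) + 1) * r ≤ 1)
    {C : ℕ} {c : ℝ} (hC : 2 ≤ C) (hc : 0 < c) (hsc : ∀ j : ℕ, G2 p q r r' (c * ((C : ℝ) ^ j - 1)) ((C + 1) ^ j)) (y : UnitAddCircle)
    {C1 : ℝ} (hC1 : 0 ≤ C1) (M0 : ℕ)
    (hy : ∀ m : ℕ, M0 ≤ m → exp (-(C1 * (m + m + 1))) ≤ ‖(p ^ m * q ^ m) • y‖) :
    ∃ c' : ℝ, 0 < c' ∧ ∀ᶠ M : ℕ in atTop, c' * (M : ℝ) ^ (log (C + 1) / log C) ≤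
      (((Finset.range M ×ˢ Finset.range M).filter
        (fun u => r' ≤ ‖(p ^ u.1 * q ^ u.2) • y‖)).card : ℝ) := by
  have hlq : 0 < log q := log_pos (by exact_mod_cast (by omega : 1 < q))
  have hlp : 0 < log p := log_pos (by exact_mod_cast (by omega : 1 < p))
  have hCR : (2 : ℝ) ≤ C := by exact_mod_cast hC
  have hlC : 0 < log (C : ℝ) := log_pos (by linarith)
  set s : ℝ := log (C + 1) / log C with hs
  have hs0 : 0 < s := div_pos (log_pos (by linarith)) hlC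
  set l : ℝ := min (log p) (log q) with hl
  have hl0 : 0 < l := lt_min hlp hlq
  obtain ⟨K, hK⟩ := exists_nat_gt (3 + 2 * C1 / log p)
  have hK0 : (0 : ℝ) < K := lt_trans (by positivity) hK
  have hK0' : 0 < K := by exact_mod_cast hK0
  set w : ℝ := l / c with hw
  have hw0 : 0 < w := div_pos hl0 hc
  refine ⟨(w / (2 * K)) ^ s / (C + 1), by positivity, ?_⟩
  -- thresholds
  obtain ⟨N1, hN1⟩ := exists_nat_gt (C1 / log p + 3)
  obtain ⟨N2, hN2⟩ := exists_nat_gt (1 / w)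
  filter_upwards [eventually_ge_atTop (K * (N1 + N2 + M0 + 1))] with M hM
  set M' := M / K with hM'
  have hM'1 : N1 + N2 + M0 + 1 ≤ M' := by
    rw [hM', Nat.le_div_iff_mul_le hK0']
    rw [mul_comm]; exact hM
  have hM'K : M' * K ≤ M := Nat.div_mul_le_self M K
  have hM'2 : M < (M' + 1) * K := by
    rw [hM']; exact (Nat.div_lt_iff_lt_mul hK0').mp (Nat.lt_succ_self _)
  have hM'R : ((N1 : ℝ) + N2 + 1) ≤ M' := by exact_mod_cast (by omega : N1 + N2 + 1 ≤ M')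
  have hN1nn : (0 : ℝ) ≤ N1 := Nat.cast_nonneg _
  have hN2nn : (0 : ℝ) ≤ N2 := Nat.cast_nonneg _
  -- scale
  have ht1 : 1 ≤ w * M' := by
    have h1 : 1 / w < M' := by linarith
    rw [div_lt_iff₀ hw0] at h1
    linarith
  obtain ⟨hj1, hj2⟩ := pow_bracket hC ht1
  set j := ⌊log (w * M') / log C⌋₊ with hj
  have hG := hsc j
  set R : ℝ := c * (C ^ j - 1) with hR
  have hRle : R ≤ l * M' := by
    have h1 : R ≤ c * (w * M') := by
      rw [hR]; exact mul_le_mul_of_nonneg_left (by linarith) hc.le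
    have h2 : c * (w * M') = l * M' := by rw [hw]; field_simp
    linarith
  have hA : R < (M' + 1) * log p := by
    have h1 : l * M' ≤ log p * M' := mul_le_mul_of_nonneg_right (min_le_left _ _) (Nat.cast_nonneg _)
    linarith
  have hB : R < (M' + 1) * log q := by
    have h1 : l * M' ≤ log q * M' := mul_le_mul_of_nonneg_right (min_le_right _ _) (Nat.cast_nonneg _)
    linarith
  set t : ℝ := C1 * (M' + M' + 1) with ht
  have ht0 : 0 ≤ t := by positivity
  set I := ⌈t / log p⌉₊ with hI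
  have hI1 : t ≤ I * log p := by
    have := Nat.le_ceil (t / log p)
    rwa [div_le_iff₀ hlp] at this
  have hI2 : (I : ℝ) < t / log p + 1 := Nat.ceil_lt_add_one (by positivity)
  have hcnt := count_far2 hp hq hrp hG hA hB hI1 y (hy M' (by omega))
  have hfit : 2 * M' + I + 1 ≤ M := by
    have h1 : (2 * (M' : ℝ) + I + 1) < M := by
      have h2 : t / log p = 2 * C1 / log p * M' + C1 / log p := by
        rw [ht]; field_simp; ring
      have h3 : (M' : ℝ) * K ≤ M := by exact_mod_cast hM'K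
      have h4 : (M' : ℝ) * (3 + 2 * C1 / log p) ≤ M' * K :=
        mul_le_mul_of_nonneg_left hK.le (Nat.cast_nonneg _)
      have h5 : (M' : ℝ) * (3 + 2 * C1 / log p) = 3 * M' + 2 * C1 / log p * M' := by ring
      linarith
    exact_mod_cast h1.le
  have hfit2 : 2 * M' + 1 ≤ M := by omega
  have hsub : ((Finset.range (2 * M' + I + 1) ×ˢ Finset.range (2 * M' + 1)).filter
      (fun u => r' ≤ ‖(p ^ u.1 * q ^ u.2) • y‖)).card ≤
      ((Finset.range M ×ˢ Finset.range M).filter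
        (fun u => r' ≤ ‖(p ^ u.1 * q ^ u.2) • y‖)).card := by
    refine Finset.card_le_card (Finset.filter_subset_filter _ (Finset.product_subset_product ?_ ?_))
    · exact Finset.range_subset_range.mpr hfit
    · exact Finset.range_subset_range.mpr hfit2
  have h6 : ((C : ℝ) + 1) ^ j ≤ (((Finset.range M ×ˢ Finset.range M).filter
        (fun u => r' ≤ ‖(p ^ u.1 * q ^ u.2) • y‖)).card : ℝ) := by
    have := hcnt.trans hsub
    exact_mod_cast this
  refine le_trans ?_ h6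
  have h7 : (w / (2 * K)) ^ s * (M : ℝ) ^ s ≤ (w * M') ^ s := by
    rw [← mul_rpow (by positivity) (by positivity)]
    refine rpow_le_rpow (by positivity) ?_ hs0.le
    have h8 : (M : ℝ) ≤ (M' + 1) * K := by exact_mod_cast hM'2.le
    have h9 : (1 : ℝ) ≤ M' := by linarith
    have h10 : (M : ℝ) ≤ 2 * K * M' := by nlinarith
    calc w / (2 * K) * M ≤ w / (2 * K) * (2 * K * M') :=
          mul_le_mul_of_nonneg_left h10 (by positivity)
      _ = w * M' := by field_simp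
  have h11 : (w / (2 * K)) ^ s / (C + 1) * (M : ℝ) ^ s
      = (w / (2 * K)) ^ s * (M : ℝ) ^ s / (C + 1) := by ring
  rw [h11, div_le_iff₀ (by positivity)]
  calc (w / (2 * K)) ^ s * (M : ℝ) ^ s ≤ (w * M') ^ s := h7
    _ ≤ ((C : ℝ) + 1) ^ (j + 1) := hj2
    _ = ((C : ℝ) + 1) ^ j * (C + 1) := by ring

lemma changes_main2 {b q : ℕ} (hb : 2 ≤ b) (hq : 2 ≤ q) {r r' : ℝ} (hr : 0 < r')
    (hrb : ((b : ℝ) + 1) * r ≤ 1)
    {C : ℕ} {c : ℝ} (hC : 2 ≤ C) (hc : 0 < c) (hsc : ∀ j : ℕ, G2 b q r r' (c * ((C : ℝ) ^ j - 1)) ((C + 1) ^ j)) {x : ℝ}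
    (hirr : Irrational x) (halg : IsAlgebraic ℚ x) :
    ∃ c' : ℝ, 0 < c' ∧ ∀ᶠ M : ℕ in atTop, c' * (M : ℝ) ^ (log (C + 1) / log C) ≤
      ((∑ n ∈ Finset.range M, ((Finset.range M).filter
      (fun i => dig b ((q : ℝ) ^ n * x) i ≠ dig b ((q : ℝ) ^ n * x) (i + 1))).card : ℕ) : ℝ) := by
  have hbR : (2 : ℝ) ≤ b := by exact_mod_cast hb
  have hCR : (2 : ℝ) ≤ C := by exact_mod_cast hC
  have hlC : 0 < log (C : ℝ) := log_pos (by linarith)
  have hs0 : 0 < log ((C : ℝ) + 1) / log C := div_pos (log_pos (by linarith)) hlC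
  have hy1 : Irrational (((b : ℝ) - 1) * x) := by
    have h1 : ((b : ℝ) - 1) * x = ((b - 1 : ℕ) : ℝ) * x := by
      rw [Nat.cast_sub (by omega)]; push_cast; ring
    rw [h1]
    exact hirr.natCast_mul (by omega)
  have hy2 : IsAlgebraic ℚ (((b : ℝ) - 1) * x) := by
    have h1 : ((b : ℝ) - 1) * x = ((b - 1 : ℕ) : ℝ) * x := by
      rw [Nat.cast_sub (by omega)]; push_cast; ring
    rw [h1]
    exact (isAlgebraic_natCast (R := ℚ) (b - 1)).mul halg
  obtain ⟨C1, hC1, hL1⟩ := liouville_bound hy1 hy2 hb hq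
  obtain ⟨c', hc', hev⟩ := far_count2 hb hq hrb hC hc hsc _ hC1 hL1
  obtain ⟨L, hL⟩ := exists_pow_lt_of_lt_one hr (by
    rw [inv_lt_one₀ (by linarith)]; linarith : ((b : ℝ))⁻¹ < 1)
  have hL' : 1 / (b : ℝ) ^ L ≤ r' := by
    rw [inv_pow] at hL
    rw [one_div]; exact hL.le
  set s := log ((C : ℝ) + 1) / log C with hs
  refine ⟨c' / (L + 1) * (1 / 2 : ℝ) ^ s, by positivity, ?_⟩
  -- shift M by L
  obtain ⟨M0, hM0⟩ := eventually_atTop.mp hev
  filter_upwards [eventually_ge_atTop (M0 + 2 * L)] with M hM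
  obtain ⟨M1, rfl⟩ : ∃ M1, M = M1 + L := ⟨M - L, by omega⟩
  have h1 := hM0 M1 (by omega)
  have h2 := changes_lower (q := q) hb hL' x M1
  set S := ∑ n ∈ Finset.range (M1 + L), ((Finset.range (M1 + L)).filter
      (fun i => dig b ((q : ℝ) ^ n * x) i ≠ dig b ((q : ℝ) ^ n * x) (i + 1))).card with hS
  have h3 : c' * (M1 : ℝ) ^ s ≤ L * S := by
    refine h1.trans ?_
    exact_mod_cast h2
  have h4 : (M1 : ℝ) ≥ 1 / 2 * (M1 + L : ℕ) := by
    push_cast
    have : (L : ℝ) ≤ M1 := by exact_mod_cast (by omega : L ≤ M1)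
    linarith
  have h5 : (1 / 2 : ℝ) ^ s * ((M1 + L : ℕ) : ℝ) ^ s ≤ (M1 : ℝ) ^ s := by
    rw [← mul_rpow (by norm_num) (Nat.cast_nonneg _)]
    exact rpow_le_rpow (by positivity) h4 hs0.le
  have h6 : c' / (L + 1) * (1 / 2 : ℝ) ^ s * ((M1 + L : ℕ) : ℝ) ^ s
      = c' * ((1 / 2 : ℝ) ^ s * ((M1 + L : ℕ) : ℝ) ^ s) / (L + 1) := by ring
  rw [h6, div_le_iff₀ (by positivity)]
  calc c' * ((1 / 2 : ℝ) ^ s * ((M1 + L : ℕ) : ℝ) ^ s) ≤ c' * (M1 : ℝ) ^ s :=
        mul_le_mul_of_nonneg_left h5 hc'.le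
    _ ≤ L * S := h3
    _ ≤ S * (L + 1) := by
        have : (0 : ℝ) ≤ S := Nat.cast_nonneg _
        nlinarith

lemma changes_diag2 {b q : ℕ} (hb : 2 ≤ b) (hq : 2 ≤ q) {r r' : ℝ} (hr : 0 < r')
    (hrb : ((b : ℝ) + 1) * r ≤ 1)
    {C : ℕ} {c : ℝ} (hC : 2 ≤ C) (hc : 0 < c) (hsc : ∀ j : ℕ, G2 b q r r' (c * ((C : ℝ) ^ j - 1)) ((C + 1) ^ j)) {x : ℝ}
    {C1 : ℝ} (hC1 : 0 ≤ C1) (M0 : ℕ)
    (hy : ∀ m : ℕ, M0 ≤ m → exp (-(C1 * (m + m + 1))) ≤
      ‖(b ^ m * q ^ m) • ((((b : ℝ) - 1) * x : ℝ) : UnitAddCircle)‖) :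
    ∃ c' : ℝ, 0 < c' ∧ ∀ᶠ M : ℕ in atTop, c' * (M : ℝ) ^ (log (C + 1) / log C) ≤
      ((∑ n ∈ Finset.range M, ((Finset.range M).filter
      (fun i => dig b ((q : ℝ) ^ n * x) i ≠ dig b ((q : ℝ) ^ n * x) (i + 1))).card : ℕ) : ℝ) := by
  have hbR : (2 : ℝ) ≤ b := by exact_mod_cast hb
  have hCR : (2 : ℝ) ≤ C := by exact_mod_cast hC
  have hlC : 0 < log (C : ℝ) := log_pos (by linarith)
  have hs0 : 0 < log ((C : ℝ) + 1) / log C := div_pos (log_pos (by linarith)) hlC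
  obtain ⟨c', hc', hev⟩ := far_count_diag2 hb hq hrb hC hc hsc _ hC1 M0 hy
  obtain ⟨L, hL⟩ := exists_pow_lt_of_lt_one hr (by
    rw [inv_lt_one₀ (by linarith)]; linarith : ((b : ℝ))⁻¹ < 1)
  have hL' : 1 / (b : ℝ) ^ L ≤ r' := by
    rw [inv_pow] at hL
    rw [one_div]; exact hL.le
  set s := log ((C : ℝ) + 1) / log C with hs
  refine ⟨c' / (L + 1) * (1 / 2 : ℝ) ^ s, by positivity, ?_⟩
  obtain ⟨M2, hM2⟩ := eventually_atTop.mp hev
  filter_upwards [eventually_ge_atTop (M2 + 2 * L)] with M hM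
  obtain ⟨M1, rfl⟩ : ∃ M1, M = M1 + L := ⟨M - L, by omega⟩
  have h1 := hM2 M1 (by omega)
  have h2 := changes_lower (q := q) hb hL' x M1
  set S := ∑ n ∈ Finset.range (M1 + L), ((Finset.range (M1 + L)).filter
      (fun i => dig b ((q : ℝ) ^ n * x) i ≠ dig b ((q : ℝ) ^ n * x) (i + 1))).card with hS
  have h3 : c' * (M1 : ℝ) ^ s ≤ L * S := by
    refine h1.trans ?_
    exact_mod_cast h2
  have h4 : (M1 : ℝ) ≥ 1 / 2 * (M1 + L : ℕ) := by
    push_cast
    have : (L : ℝ) ≤ M1 := by exact_mod_cast (by omega : L ≤ M1)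
    linarith
  have h5 : (1 / 2 : ℝ) ^ s * ((M1 + L : ℕ) : ℝ) ^ s ≤ (M1 : ℝ) ^ s := by
    rw [← mul_rpow (by norm_num) (Nat.cast_nonneg _)]
    exact rpow_le_rpow (by positivity) h4 hs0.le
  have h6 : c' / (L + 1) * (1 / 2 : ℝ) ^ s * ((M1 + L : ℕ) : ℝ) ^ s
      = c' * ((1 / 2 : ℝ) ^ s * ((M1 + L : ℕ) : ℝ) ^ s) / (L + 1) := by ring
  rw [h6, div_le_iff₀ (by positivity)]
  calc c' * ((1 / 2 : ℝ) ^ s * ((M1 + L : ℕ) : ℝ) ^ s) ≤ c' * (M1 : ℝ) ^ s :=
        mul_le_mul_of_nonneg_left h5 hc'.le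
    _ ≤ L * S := h3
    _ ≤ S * (L + 1) := by
        have : (0 : ℝ) ≤ S := Nat.cast_nonneg _
        nlinarith

end Pool.Agent.H819
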