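import Mathlib
import Pool.Agent.H819.Down1

set_option autoImplicit false

open MeasureTheory Real Filter

namespace Pool.Agent.H819

open Pool.Agent.H706R2 (dZ dZ_le_of_int round_step X X_shift G G_mono G_zero)

lemma dZ_nat_mul_le (k : ℕ) (x : ℝ) : dZ (k * x) ≤ k * dZ x := by
  have h := dZ_le_of_int (k * x) (k * round x)
  refine h.trans (le_of_eq ?_)
  unfold dZ
  have e : (k : ℝ) * x - ((k * round x : ℤ) : ℝ) = k * (x - round x) := by push_cast; ring
  rw [e, abs_mul, abs_of_nonneg (Nat.cast_nonneg k)]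

/-- going back at most `D` steps keeps a point far, with a smaller radius -/
lemma back_far {u v : ℕ} (hu : 2 ≤ u) (hv : 2 ≤ v) {r θ : ℝ} {x y : ℤ} {D i j : ℕ}
    (hi : i ≤ D) (hj : j ≤ D) (h : r ≤ dZ (X u v θ (x + i, y + j))) :
    r / ((u * v : ℕ) : ℝ) ^ D ≤ dZ (X u v θ (x, y)) := by
  have huR : (0 : ℝ) < u := by positivity
  have hvR : (0 : ℝ) < v := by positivity
  have e : X u v θ (x + i, y + j) = ((u ^ i * v ^ j : ℕ) : ℝ) * X u v θ (x, y) := by
    unfold X
    simp only
    rw [zpow_add₀ huR.ne', zpow_add₀ hvR.ne']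
    simp only [zpow_natCast]
    push_cast; ring
  rw [e] at h
  have h1 := dZ_nat_mul_le (u ^ i * v ^ j) (X u v θ (x, y))
  have h2 : ((u ^ i * v ^ j : ℕ) : ℝ) ≤ ((u * v : ℕ) : ℝ) ^ D := by
    have : u ^ i * v ^ j ≤ (u * v) ^ D := by
      rw [mul_pow]
      exact Nat.mul_le_mul (Nat.pow_le_pow_right (by omega) hi) (Nat.pow_le_pow_right (by omega) hj)
    exact_mod_cast this
  have h3 : 0 ≤ dZ (X u v θ (x, y)) := dZ_nonneg _
  have h4 : (0 : ℝ) < ((u * v : ℕ) : ℝ) ^ D := by positivity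
  rw [div_le_iff₀ h4]
  calc r ≤ ((u ^ i * v ^ j : ℕ) : ℝ) * dZ (X u v θ (x, y)) := h.trans h1
    _ ≤ ((u * v : ℕ) : ℝ) ^ D * dZ (X u v θ (x, y)) := mul_le_mul_of_nonneg_right h2 h3
    _ = _ := by ring

/-- the change of lattice -/
lemma G2_of_G {u v : ℕ} (hu : 2 ≤ u) (hv : 2 ≤ v) {a b c d D : ℕ} (hD : a * d = b * c + D)
    (hD0 : 0 < D) {r R : ℝ} (hR : 0 ≤ R) {N : ℕ} (h : G u v r R (D ^ 2 * N)) :
    G2 (u ^ a * v ^ b) (u ^ c * v ^ d) r (r / ((u * v : ℕ) : ℝ) ^ D)
      ((R / log u + R / log v + 2) * ((a + b + c + d : ℕ) : ℝ) *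
        (log ((u ^ a * v ^ b : ℕ) : ℝ) + log ((u ^ c * v ^ d : ℕ) : ℝ))) N := by
  classical
  intro θ hθ
  have hlu : 0 < log u := log_pos (by exact_mod_cast (by omega : 1 < u))
  have hlv : 0 < log v := log_pos (by exact_mod_cast (by omega : 1 < v))
  have huR : (0 : ℝ) < u := by positivity
  have hvR : (0 : ℝ) < v := by positivity
  obtain ⟨S, hS1, hS2⟩ := h θ hθ
  -- floor division
  set f : ℤ × ℤ → ℤ × ℤ := fun s => (s.1 / D, s.2 / D) with hf
  have hDZ : (0 : ℤ) < D := by exact_mod_cast hD0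
  have hcard : N ≤ (S.image f).card := by
    have h1 : S.card ≤ D ^ 2 * (S.image f).card := by
      refine Finset.card_le_mul_card_image S (D ^ 2) (fun k _ => ?_)
      have h2 : ((S.filter (fun s => f s = k))).card ≤ (Finset.range D ×ˢ Finset.range D).card := by
        refine Finset.card_le_card_of_injOn (fun s => ((s.1 % D).toNat, (s.2 % D).toNat)) ?_ ?_
        · intro s _
          have e1 := Int.emod_nonneg s.1 hDZ.ne'
          have e2 := Int.emod_lt_of_pos s.1 hDZ
          have e3 := Int.emod_nonneg s.2 hDZ.ne'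
          have e4 := Int.emod_lt_of_pos s.2 hDZ
          simp only [Finset.coe_product, Set.mem_prod, Finset.mem_coe, Finset.mem_range]
          omega
        · intro s hs t ht hst
          simp only [Finset.coe_filter, Set.mem_setOf_eq] at hs ht
          have hfs : f s = f t := hs.2.trans ht.2.symm
          simp only [hf, Prod.mk.injEq] at hfs
          simp only [Prod.mk.injEq] at hst
          have e1 := Int.emod_nonneg s.1 hDZ.ne'
          have e3 := Int.emod_nonneg s.2 hDZ.ne'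
          have e1' := Int.emod_nonneg t.1 hDZ.ne'
          have e3' := Int.emod_nonneg t.2 hDZ.ne'
          have m1 : s.1 % D = t.1 % D := by omega
          have m2 : s.2 % D = t.2 % D := by omega
          have d1 := Int.mul_ediv_add_emod s.1 D
          have d2 := Int.mul_ediv_add_emod t.1 D
          have d3 := Int.mul_ediv_add_emod s.2 D
          have d4 := Int.mul_ediv_add_emod t.2 D
          ext
          · rw [← d1, ← d2, hfs.1, m1]
          · rw [← d3, ← d4, hfs.2, m2]
      rw [Finset.card_product, Finset.card_range, ← sq] at h2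
      exact h2
    have h2 := hS1.trans h1
    exact Nat.le_of_mul_le_mul_left h2 (by positivity)
  -- the linear map
  set T : ℤ × ℤ → ℤ × ℤ := fun k => (d * k.1 - c * k.2, -(b * k.1) + a * k.2) with hT
  have hTdet : ∀ k : ℤ × ℤ, (a : ℤ) * (T k).1 + c * (T k).2 = D * k.1 ∧
      (b : ℤ) * (T k).1 + d * (T k).2 = D * k.2 := by
    intro k
    have hD' : (a : ℤ) * d = b * c + D := by exact_mod_cast hD
    constructor
    · simp only [hT]; linear_combination k.1 * hD'
    · simp only [hT]; linear_combination k.2 * hD'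
  have hTinj : Function.Injective T := by
    intro k l hkl
    have h1 := hTdet k
    have h2 := hTdet l
    rw [hkl] at h1
    ext
    · exact Int.eq_of_mul_eq_mul_left hDZ.ne' (h1.1.symm.trans h2.1)
    · exact Int.eq_of_mul_eq_mul_left hDZ.ne' (h1.2.symm.trans h2.2)
  have hXT : ∀ k : ℤ × ℤ, X (u ^ a * v ^ b) (u ^ c * v ^ d) θ (T k)
      = X u v θ (D * k.1, D * k.2) := by
    intro k
    rw [← (hTdet k).1, ← (hTdet k).2]
    unfold X
    simp only
    rw [zpow_add₀ huR.ne', zpow_add₀ hvR.ne', zpow_mul, zpow_mul, zpow_mul, zpow_mul]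
    simp only [zpow_natCast]
    push_cast
    rw [mul_zpow, mul_zpow]
    ring
  refine ⟨(S.image f).image T, ?_, ?_⟩
  · rw [Finset.card_image_of_injective _ hTinj]; exact hcard
  · intro w hw
    rw [Finset.mem_image] at hw
    obtain ⟨k, hk, rfl⟩ := hw
    rw [Finset.mem_image] at hk
    obtain ⟨s, hs, rfl⟩ := hk
    obtain ⟨h1, h2, h3⟩ := hS2 s hs
    have e1 := Int.emod_nonneg s.1 hDZ.ne'
    have e2 := Int.emod_lt_of_pos s.1 hDZ
    have e3 := Int.emod_nonneg s.2 hDZ.ne'
    have e4 := Int.emod_lt_of_pos s.2 hDZ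
    have d1 := Int.mul_ediv_add_emod s.1 D
    have d3 := Int.mul_ediv_add_emod s.2 D
    refine ⟨?_, ?_⟩
    · rw [hXT]
      refine back_far (i := (s.1 % D).toNat) (j := (s.2 % D).toNat) hu hv (by omega) (by omega) ?_
      have q1 : (D : ℤ) * (f s).1 + ((s.1 % D).toNat : ℕ) = s.1 := by
        rw [Int.toNat_of_nonneg e1]; simp only [hf]; exact d1
      have q2 : (D : ℤ) * (f s).2 + ((s.2 % D).toNat : ℕ) = s.2 := by
        rw [Int.toNat_of_nonneg e3]; simp only [hf]; exact d3
      rw [q1, q2]; exact h1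
    · -- size
      have b1 : |(s.1 : ℝ)| ≤ R / log u := by rw [le_div_iff₀ hlu]; exact h2
      have b2 : |(s.2 : ℝ)| ≤ R / log v := by rw [le_div_iff₀ hlv]; exact h3
      have habs : ∀ t : ℤ, |((t / (D : ℤ) : ℤ) : ℝ)| ≤ |(t : ℝ)| + 1 := by
        intro t
        have h4 : |t / (D : ℤ)| ≤ |t| + 1 := by
          have h5 := Int.mul_ediv_add_emod t D
          have h6 := Int.emod_nonneg t hDZ.ne'
          have h7 := Int.emod_lt_of_pos t hDZ
          rw [abs_le]
          constructor
          · by_contra hcon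
            push Not at hcon
            have h8 := neg_abs_le t
            have h9 : (D : ℤ) * (t / D) ≤ D * (-(|t| + 1) - 1) :=
              mul_le_mul_of_nonneg_left (by omega) hDZ.le
            have h10 : 0 ≤ |t| := abs_nonneg t
            nlinarith
          · by_contra hcon
            push Not at hcon
            have h8 := le_abs_self t
            have h9 : (D : ℤ) * (|t| + 1 + 1) ≤ D * (t / D) :=
              mul_le_mul_of_nonneg_left (by omega) hDZ.le
            have h10 : 0 ≤ |t| := abs_nonneg t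
            nlinarith
        have h5 : ((|t / (D : ℤ)| : ℤ) : ℝ) ≤ ((|t| + 1 : ℤ) : ℝ) := by exact_mod_cast h4
        push_cast at h5
        exact h5
      have c1 := (habs s.1).trans (add_le_add_left b1 1)
      have c2 := (habs s.2).trans (add_le_add_left b2 1)
      set Q : ℝ := R / log u + R / log v + 2 with hQ
      have hR1 : 0 ≤ R / log u := by positivity
      have hR2 : 0 ≤ R / log v := by positivity
      have hsum : |((s.1 / (D : ℤ) : ℤ) : ℝ)| + |((s.2 / (D : ℤ) : ℤ) : ℝ)| ≤ Q := by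
        rw [hQ]; linarith
      have n1 := abs_nonneg (((s.1 / (D : ℤ) : ℤ) : ℝ))
      have n2 := abs_nonneg (((s.2 / (D : ℤ) : ℤ) : ℝ))
      have hQ0 : 0 ≤ Q := by rw [hQ]; linarith
      have ha0 : (0 : ℝ) ≤ a := Nat.cast_nonneg _
      have hb0 : (0 : ℝ) ≤ b := Nat.cast_nonneg _
      have hc0 : (0 : ℝ) ≤ c := Nat.cast_nonneg _
      have hd0 : (0 : ℝ) ≤ d := Nat.cast_nonneg _
      have l1 : 0 ≤ log ((u ^ a * v ^ b : ℕ) : ℝ) := log_natCast_nonneg _
      have l2 : 0 ≤ log ((u ^ c * v ^ d : ℕ) : ℝ) := log_natCast_nonneg _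
      have t1 : |((T (f s)).1 : ℝ)| ≤ Q * ((a + b + c + d : ℕ) : ℝ) := by
        simp only [hT, hf]
        push_cast
        refine (abs_sub _ _).trans ?_
        rw [abs_mul, abs_mul, abs_of_nonneg hd0, abs_of_nonneg hc0]
        nlinarith [mul_nonneg ha0 hQ0, mul_nonneg hb0 hQ0, mul_nonneg hc0 n1, mul_nonneg hd0 n2,
          mul_nonneg hc0 (sub_nonneg.mpr hsum), mul_nonneg hd0 (sub_nonneg.mpr hsum)]
      have t2 : |((T (f s)).2 : ℝ)| ≤ Q * ((a + b + c + d : ℕ) : ℝ) := by
        simp only [hT, hf]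
        push_cast
        refine (abs_add_le _ _).trans ?_
        rw [abs_neg, abs_mul, abs_mul, abs_of_nonneg hb0, abs_of_nonneg ha0]
        nlinarith [mul_nonneg hc0 hQ0, mul_nonneg hd0 hQ0, mul_nonneg ha0 n1, mul_nonneg hb0 n2,
          mul_nonneg ha0 (sub_nonneg.mpr hsum), mul_nonneg hb0 (sub_nonneg.mpr hsum)]
      have hQn : 0 ≤ Q * ((a + b + c + d : ℕ) : ℝ) := by positivity
      constructor
      · calc |((T (f s)).1 : ℝ)| * log ((u ^ a * v ^ b : ℕ) : ℝ)
            ≤ Q * ((a + b + c + d : ℕ) : ℝ) * log ((u ^ a * v ^ b : ℕ) : ℝ) :=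
              mul_le_mul_of_nonneg_right t1 l1
          _ ≤ _ := mul_le_mul_of_nonneg_left (by linarith) hQn
      · calc |((T (f s)).2 : ℝ)| * log ((u ^ c * v ^ d : ℕ) : ℝ)
            ≤ Q * ((a + b + c + d : ℕ) : ℝ) * log ((u ^ c * v ^ d : ℕ) : ℝ) :=
              mul_le_mul_of_nonneg_right t2 l2
          _ ≤ _ := mul_le_mul_of_nonneg_left (by linarith) hQn

end Pool.Agent.H819
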