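import Mathlib
import Pool.Agent.H819.Down2

set_option autoImplicit false

open MeasureTheory Real Filter

namespace Pool.Agent.H819

open Pool.Agent.H706R2 (dZ dZ_le_of_int round_step X X_shift G G_mono G_zero dig)

/-- `p` and `q` are multiplicatively independent products of powers of two coprime integers -/
def TwoGen (p q : ℕ) : Prop :=
  ∃ u v a b c d : ℕ, 2 ≤ u ∧ 2 ≤ v ∧ Nat.Coprime u v ∧ p = u ^ a * v ^ b ∧ q = u ^ c * v ^ d ∧
    a * d ≠ b * c

lemma two_le_of {u v a b : ℕ} (hu : 2 ≤ u) (hv : 2 ≤ v) (h : a ≠ 0 ∨ b ≠ 0) :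
    2 ≤ u ^ a * v ^ b := by
  rcases h with h | h
  · have h1 : 2 ≤ u ^ a := hu.trans (Nat.le_self_pow h u)
    have h2 : 1 ≤ v ^ b := Nat.one_le_pow _ _ (by omega)
    nlinarith
  · have h1 : 2 ≤ v ^ b := hv.trans (Nat.le_self_pow h v)
    have h2 : 1 ≤ u ^ a := Nat.one_le_pow _ _ (by omega)
    nlinarith

lemma TwoGen.two_le_left {p q : ℕ} (h : TwoGen p q) : 2 ≤ p := by
  obtain ⟨u, v, a, b, c, d, hu, hv, -, rfl, -, hne⟩ := h
  refine two_le_of hu hv ?_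
  by_contra hcon
  push Not at hcon
  obtain ⟨rfl, rfl⟩ := hcon
  simp at hne

lemma TwoGen.two_le_right {p q : ℕ} (h : TwoGen p q) : 2 ≤ q := by
  obtain ⟨u, v, a, b, c, d, hu, hv, -, -, rfl, hne⟩ := h
  refine two_le_of hu hv ?_
  by_contra hcon
  push Not at hcon
  obtain ⟨rfl, rfl⟩ := hcon
  simp at hne

lemma twoGen_of_coprime {p q : ℕ} (hp : 2 ≤ p) (hq : 2 ≤ q) (h : Nat.Coprime p q) : TwoGen p q :=
  ⟨p, q, 1, 0, 0, 1, hp, hq, h, by simp, by simp, by norm_num⟩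

lemma growth2_aux {u v : ℕ} (hu : 2 ≤ u) (hv : 2 ≤ v) (huv : Nat.Coprime u v) {a b c d D : ℕ}
    (hD : a * d = b * c + D) (hD0 : 0 < D) {r : ℝ} (hr : 0 < r) (hru : ((u : ℝ) + 1) * r ≤ 1)
    (hrv : ((v : ℝ) + 1) * r ≤ 1) :
    ∃ r' c' : ℝ, 0 < r' ∧ r' ≤ r ∧ 0 < c' ∧ ∀ j : ℕ,
      G2 (u ^ a * v ^ b) (u ^ c * v ^ d) r r' (c' * (((2 : ℕ) : ℝ) ^ j - 1)) ((2 + 1) ^ j) := by
  have hlu : 0 < log u := log_pos (by exact_mod_cast (by omega : 1 < u))
  have hlv : 0 < log v := log_pos (by exact_mod_cast (by omega : 1 < v))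
  obtain ⟨c0, hc0, hG⟩ := gasket_growth hu hv huv hr hru hrv
  obtain ⟨j1, hj1⟩ := pow_unbounded_of_one_lt ((D : ℝ) ^ 2) (show (1 : ℝ) < 3 by norm_num)
  have hj1' : D ^ 2 ≤ 3 ^ j1 := by
    have : (D : ℝ) ^ 2 < ((3 ^ j1 : ℕ) : ℝ) := by push_cast; exact hj1
    exact_mod_cast this.le
  set P : ℝ := ((u * v : ℕ) : ℝ) ^ D with hP
  have hP1 : 1 ≤ P := one_le_pow₀ (by exact_mod_cast (by nlinarith : 1 ≤ u * v))
  set W : ℝ := ((a + b + c + d : ℕ) : ℝ) *
        (log ((u ^ a * v ^ b : ℕ) : ℝ) + log ((u ^ c * v ^ d : ℕ) : ℝ)) with hW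
  have hW0 : 0 ≤ W := by
    have l1 : 0 ≤ log ((u ^ a * v ^ b : ℕ) : ℝ) := log_natCast_nonneg _
    have l2 : 0 ≤ log ((u ^ c * v ^ d : ℕ) : ℝ) := log_natCast_nonneg _
    positivity
  set B : ℝ := c0 * 2 ^ j1 / log u + c0 * 2 ^ j1 / log v + 2 with hB
  have hB0 : 0 < B := by positivity
  refine ⟨r / P, 2 * (B * W + 1), by positivity, div_le_self hr.le hP1, by positivity, ?_⟩
  intro j
  rcases Nat.eq_zero_or_pos j with rfl | hj
  · intro θ hθ
    refine ⟨{(0, 0)}, by simp, ?_⟩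
    intro s hs
    rw [Finset.mem_singleton] at hs
    subst hs
    have h1 : r / P ≤ r := div_le_self hr.le hP1
    simp [X]
    exact h1.trans hθ
  · have h1 := hG (j + j1)
    have h2j : (2 : ℝ) ≤ 2 ^ j := by
      calc (2 : ℝ) = 2 ^ 1 := by norm_num
        _ ≤ 2 ^ j := pow_le_pow_right₀ (by norm_num) hj
    have h2 : G u v r (c0 * 2 ^ (j + j1)) (D ^ 2 * 3 ^ j) := by
      refine G_mono h1 ?_ ?_
      · push_cast
        exact mul_le_mul_of_nonneg_left (by linarith) hc0.le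
      · calc D ^ 2 * 3 ^ j ≤ 3 ^ j1 * 3 ^ j := Nat.mul_le_mul_right _ hj1'
          _ = (2 + 1) ^ (j + j1) := by rw [pow_add]; ring
    have h3 := G2_of_G hu hv hD hD0 (by positivity) h2
    intro θ hθ
    obtain ⟨S, hS1, hS2⟩ := h3 θ hθ
    refine ⟨S, hS1, fun s hs => ?_⟩
    obtain ⟨e1, e2, e3⟩ := hS2 s hs
    have hle : (c0 * 2 ^ (j + j1) / log u + c0 * 2 ^ (j + j1) / log v + 2) *
        ((a + b + c + d : ℕ) : ℝ) *
        (log ((u ^ a * v ^ b : ℕ) : ℝ) + log ((u ^ c * v ^ d : ℕ) : ℝ)) ≤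
        2 * (B * W + 1) * (((2 : ℕ) : ℝ) ^ j - 1) := by
      rw [mul_assoc, ← hW]
      have e4 : c0 * 2 ^ (j + j1) / log u + c0 * 2 ^ (j + j1) / log v + 2 ≤ 2 ^ j * B := by
        rw [hB, pow_add]
        have : 2 ^ j * (c0 * 2 ^ j1 / log u + c0 * 2 ^ j1 / log v + 2)
            = c0 * (2 ^ j * 2 ^ j1) / log u + c0 * (2 ^ j * 2 ^ j1) / log v + 2 * 2 ^ j := by ring
        rw [this]; linarith
      have e5 := mul_le_mul_of_nonneg_right e4 hW0
      push_cast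
      nlinarith [mul_nonneg hB0.le hW0]
    exact ⟨e1, e2.trans hle, e3.trans hle⟩

lemma TwoGen.growth {p q : ℕ} (h : TwoGen p q) :
    ∃ r r' c : ℝ, 0 < r' ∧ ((p : ℝ) + 1) * r ≤ 1 ∧ 0 < c ∧ ∀ j : ℕ,
      G2 p q r r' (c * (((2 : ℕ) : ℝ) ^ j - 1)) ((2 + 1) ^ j) := by
  have hp := h.two_le_left
  obtain ⟨u, v, a, b, c, d, hu, hv, huv, hpe, hqe, hne⟩ := h
  set r : ℝ := 1 / (1 + p + u + v) with hr
  have hden : (0 : ℝ) < 1 + p + u + v := by positivity
  have hr0 : 0 < r := by positivity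
  have hrp : ((p : ℝ) + 1) * r ≤ 1 := by
    rw [hr, mul_one_div, div_le_one hden]
    have h1 : (0 : ℝ) ≤ u := Nat.cast_nonneg _
    have h2 : (0 : ℝ) ≤ v := Nat.cast_nonneg _
    linarith
  have hru : ((u : ℝ) + 1) * r ≤ 1 := by
    rw [hr, mul_one_div, div_le_one hden]
    have h1 : (0 : ℝ) ≤ p := Nat.cast_nonneg _
    have h2 : (0 : ℝ) ≤ v := Nat.cast_nonneg _
    linarith
  have hrv : ((v : ℝ) + 1) * r ≤ 1 := by
    rw [hr, mul_one_div, div_le_one hden]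
    have h1 : (0 : ℝ) ≤ p := Nat.cast_nonneg _
    have h2 : (0 : ℝ) ≤ u := Nat.cast_nonneg _
    linarith
  rcases lt_or_gt_of_ne hne with hlt | hlt
  · obtain ⟨D, hD⟩ := Nat.exists_eq_add_of_lt hlt
    obtain ⟨r', c', h1, _, h2, h3⟩ := growth2_aux hv hu huv.symm (a := b) (b := a) (c := d) (d := c)
      (D := D + 1) (by omega) (by omega) hr0 hrv hru
    refine ⟨r, r', c', h1, hrp, h2, ?_⟩
    rw [hpe, hqe, mul_comm (u ^ a), mul_comm (u ^ c)]
    exact h3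
  · obtain ⟨D, hD⟩ := Nat.exists_eq_add_of_lt hlt
    obtain ⟨r', c', h1, _, h2, h3⟩ := growth2_aux hu hv huv (a := a) (b := b) (c := c) (d := d)
      (D := D + 1) (by omega) (by omega) hr0 hru hrv
    refine ⟨r, r', c', h1, hrp, h2, ?_⟩
    rw [hpe, hqe]
    exact h3

/-- digit changes of multiples for algebraic irrationals -/
theorem changes_alg {b q : ℕ} (h : TwoGen b q) {x : ℝ} (hirr : Irrational x)
    (halg : IsAlgebraic ℚ x) :
    ∃ c' : ℝ, 0 < c' ∧ ∀ᶠ M : ℕ in atTop, c' * (M : ℝ) ^ (log 3 / log 2) ≤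
      ((∑ n ∈ Finset.range M, ((Finset.range M).filter
      (fun i => dig b ((q : ℝ) ^ n * x) i ≠ dig b ((q : ℝ) ^ n * x) (i + 1))).card : ℕ) : ℝ) := by
  obtain ⟨r, r', c, hr', hrp, hc, hG⟩ := h.growth
  have e : log (((2 : ℕ) : ℝ) + 1) / log ((2 : ℕ) : ℝ) = log 3 / log 2 := by norm_num
  have := changes_main2 h.two_le_left h.two_le_right hr' hrp le_rfl hc hG hirr halg
  rw [e] at this
  exact this

/-- digit changes of multiples for numbers which are not too well approximable -/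
theorem changes_dio {b q : ℕ} (h : TwoGen b q) {x κ : ℝ} (hκ : 0 ≤ κ) (Q0 : ℕ)
    (hx : ∀ Q : ℕ, Q0 ≤ Q → ∀ P : ℤ, (Q : ℝ) ^ (-κ) ≤ |Q * x - P|) :
    ∃ c' : ℝ, 0 < c' ∧ ∀ᶠ M : ℕ in atTop, c' * (M : ℝ) ^ (log 3 / log 2) ≤
      ((∑ n ∈ Finset.range M, ((Finset.range M).filter
      (fun i => dig b ((q : ℝ) ^ n * x) i ≠ dig b ((q : ℝ) ^ n * x) (i + 1))).card : ℕ) : ℝ) := by
  obtain ⟨r, r', c, hr', hrp, hc, hG⟩ := h.growth
  have hb := h.two_le_left
  have hq := h.two_le_right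
  have hlb : 0 < log (b : ℝ) := log_pos (by exact_mod_cast (by omega : 1 < b))
  have hlq : 0 < log (q : ℝ) := log_pos (by exact_mod_cast (by omega : 1 < q))
  have e : log (((2 : ℕ) : ℝ) + 1) / log ((2 : ℕ) : ℝ) = log 3 / log 2 := by norm_num
  set C1 : ℝ := κ * (log b + log q) with hC1
  have hC1' : 0 ≤ C1 := by positivity
  have := changes_diag2 hb hq hr' hrp le_rfl hc hG (x := x) (C1 := C1) hC1' Q0 (by
    intro m hm
    set Q : ℕ := (b - 1) * (b ^ m * q ^ m) with hQ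
    have hmlt : m < b ^ m := Nat.lt_pow_self (by omega)
    have hq1 : 1 ≤ q ^ m := Nat.one_le_pow _ _ (by omega)
    have hb1 : 1 ≤ b - 1 := by omega
    have hQm : Q0 ≤ Q := by
      have h1 : b ^ m * 1 ≤ b ^ m * q ^ m := Nat.mul_le_mul_left _ hq1
      have h2 : 1 * (b ^ m * q ^ m) ≤ (b - 1) * (b ^ m * q ^ m) := Nat.mul_le_mul_right _ hb1
      omega
    have hQpos : 0 < Q := by positivity
    have key := hx Q hQm (round ((Q : ℝ) * x))
    have e1 : (b ^ m * q ^ m) • ((((b : ℝ) - 1) * x : ℝ) : UnitAddCircle)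
        = (((Q : ℝ) * x : ℝ) : UnitAddCircle) := by
      rw [← AddCircle.coe_nsmul, nsmul_eq_mul]
      congr 1
      rw [hQ]
      push_cast
      rw [Nat.cast_sub (by omega)]
      push_cast; ring
    rw [e1, Pool.Agent.H706R2.norm_coe_eq_dZ]
    unfold dZ
    refine le_trans ?_ key
    rw [rpow_def_of_pos (by exact_mod_cast hQpos)]
    refine exp_le_exp.mpr ?_
    have hlQ : log (Q : ℝ) ≤ (m + 1) * log b + m * log q := by
      have h1 : (Q : ℝ) ≤ (b : ℝ) ^ (m + 1) * (q : ℝ) ^ m := by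
        have h2 : Q ≤ b ^ (m + 1) * q ^ m := by
          rw [hQ, pow_succ']
          calc (b - 1) * (b ^ m * q ^ m) ≤ b * (b ^ m * q ^ m) :=
                Nat.mul_le_mul_right _ (by omega)
            _ = b * b ^ m * q ^ m := by ring
        exact_mod_cast h2
      have h2 := log_le_log (by exact_mod_cast hQpos) h1
      rw [log_mul (by positivity) (by positivity), log_pow, log_pow] at h2
      push_cast at h2
      exact h2
    have hm0 : (0 : ℝ) ≤ m := Nat.cast_nonneg _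
    have h3 := mul_le_mul_of_nonneg_left hlQ hκ
    have h4 : C1 * ((m : ℝ) + m + 1) = κ * ((m + 1) * log b + m * log q)
        + κ * (m * log b + (m + 1) * log q) := by rw [hC1]; ring
    have h5 : 0 ≤ κ * (m * log b + (m + 1) * log q) := by positivity
    linarith)
  rw [e] at this
  exact this

end Pool.Agent.H819
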