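import Mathlib
import Pool.Agent.H819.Down3
import Pool.Agent.H326R2.Pi.Top
import Pool.Agent.H43R2.Cplx.EFinal

set_option autoImplicit false

open Real Filter

namespace Pool.Agent.H819

open Pool.Agent.H706R2 (dig)

lemma dio_pi : ∃ Q0 : ℕ, ∀ Q : ℕ, Q0 ≤ Q → ∀ P : ℤ, (Q : ℝ) ^ (-(6.05 : ℝ)) ≤ |Q * Real.pi - P| := by
  obtain ⟨q0, h⟩ := Pool.Agent.H326R2.Pi.main
  refine ⟨max q0 1, fun Q hQ P => ?_⟩
  have h1 : q0 ≤ Q := (le_max_left _ _).trans hQ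
  have h2 : 1 ≤ Q := (le_max_right _ _).trans hQ
  have hQ1 : (1 : ℝ) ≤ Q := by exact_mod_cast h2
  have hQ0 : (0 : ℝ) < Q := by linarith
  have h3 := h Q h1 P
  have e : (Q : ℝ) * Real.pi - P = Q * (Real.pi - P / Q) := by field_simp
  rw [e, abs_mul, abs_of_pos hQ0]
  calc (Q : ℝ) ^ (-(6.05 : ℝ)) ≤ |Real.pi - P / Q| := h3
    _ = 1 * |Real.pi - P / Q| := by ring
    _ ≤ Q * |Real.pi - P / Q| := mul_le_mul_of_nonneg_right hQ1 (abs_nonneg _)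

lemma dio_e : ∃ Q0 : ℕ, ∀ Q : ℕ, Q0 ≤ Q → ∀ P : ℤ, (Q : ℝ) ^ (-(3 : ℝ)) ≤ |Q * Real.exp 1 - P| := by
  obtain ⟨c, hc, h⟩ := Pool.Agent.H43R2.Cplx.exp2_e 1 one_pos
  obtain ⟨N, hN⟩ := exists_nat_ge (1 / c)
  refine ⟨max N 1, fun Q hQ P => ?_⟩
  have h1 : N ≤ Q := (le_max_left _ _).trans hQ
  have h2 : 1 ≤ Q := (le_max_right _ _).trans hQ
  have hQ1 : (1 : ℝ) ≤ Q := by exact_mod_cast h2
  have hQ0 : (0 : ℝ) < Q := by linarith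
  have h3 := h Q h2 P
  have e1 : (Q : ℝ) ^ ((1 : ℝ) + 1) = Q ^ 2 := by
    rw [show (1 : ℝ) + 1 = ((2 : ℕ) : ℝ) by norm_num, rpow_natCast]
  have e2 : (Q : ℝ) ^ (-(3 : ℝ)) = 1 / Q ^ 3 := by
    rw [rpow_neg hQ0.le, show (3 : ℝ) = ((3 : ℕ) : ℝ) by norm_num, rpow_natCast, one_div]
  rw [e1] at h3
  rw [e2, div_le_iff₀ (by positivity)]
  have h4 : 1 ≤ c * Q := by
    have : 1 / c ≤ Q := hN.trans (by exact_mod_cast h1)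
    rwa [div_le_iff₀ hc, mul_comm] at this
  calc (1 : ℝ) ≤ c * Q := h4
    _ ≤ (Q ^ 2 * |Q * Real.exp 1 - P|) * Q := mul_le_mul_of_nonneg_right h3 hQ0.le
    _ = |Q * Real.exp 1 - P| * Q ^ 3 := by ring

theorem changes_pi {b q : ℕ} (h : TwoGen b q) :
    ∃ c' : ℝ, 0 < c' ∧ ∀ᶠ M : ℕ in atTop, c' * (M : ℝ) ^ (log 3 / log 2) ≤
      ((∑ n ∈ Finset.range M, ((Finset.range M).filter
      (fun i => dig b ((q : ℝ) ^ n * Real.pi) i ≠ dig b ((q : ℝ) ^ n * Real.pi) (i + 1))).card : ℕ)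
        : ℝ) := by
  obtain ⟨Q0, hQ⟩ := dio_pi
  exact changes_dio h (by norm_num) Q0 hQ

theorem changes_e {b q : ℕ} (h : TwoGen b q) :
    ∃ c' : ℝ, 0 < c' ∧ ∀ᶠ M : ℕ in atTop, c' * (M : ℝ) ^ (log 3 / log 2) ≤
      ((∑ n ∈ Finset.range M, ((Finset.range M).filter
      (fun i => dig b ((q : ℝ) ^ n * Real.exp 1) i ≠ dig b ((q : ℝ) ^ n * Real.exp 1) (i + 1))).card
        : ℕ) : ℝ) := by
  obtain ⟨Q0, hQ⟩ := dio_e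
  exact changes_dio h (by norm_num) Q0 hQ

end Pool.Agent.H819
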