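import Mathlib
import Pool.Agent.H819.Down3
import Pool.Agent.H346R2.L2.Final

set_option autoImplicit false

open MeasureTheory Real Filter

namespace Pool.Agent.H819

open Pool.Agent.H706R2 (dZ dZ_le_of_int round_step X X_shift G G_mono G_zero dig)

theorem changes_dio2 {b q : ℕ} (h : TwoGen b q) {x κ : ℝ} (hκ : 0 ≤ κ) (Q0 : ℕ)
    (hx : ∀ m : ℕ, Q0 ≤ m → ∀ P : ℤ, (((b - 1) * (b ^ m * q ^ m) : ℕ) : ℝ) ^ (-κ) ≤
      |(((b - 1) * (b ^ m * q ^ m) : ℕ) : ℝ) * x - P|) :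
    ∃ c' : ℝ, 0 < c' ∧ ∀ᶠ M : ℕ in atTop, c' * (M : ℝ) ^ (log 3 / log 2) ≤
      ((∑ n ∈ Finset.range M, ((Finset.range M).filter
      (fun i => dig b ((q : ℝ) ^ n * x) i ≠ dig b ((q : ℝ) ^ n * x) (i + 1))).card : ℕ) : ℝ) := by
  obtain ⟨r, r', c, hr', hrp, hc, hG⟩ := h.growth
  have hb := h.two_le_left
  have hq := h.two_le_right
  have hlb : 0 < log (b : ℝ) := log_pos (by exact_mod_cast (by omega : 1 < b))
  have hlq : 0 < log (q : ℝ) := log_pos (by exact_mod_cast (by omega : 1 < q))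
  have e : log (((2 : ℕ) : ℝ) + 1) / log ((2 : ℕ) : ℝ) = log 3 / log 2 := by norm_num
  set C1 : ℝ := κ * (log b + log q) with hC1
  have hC1' : 0 ≤ C1 := by positivity
  have := changes_diag2 hb hq hr' hrp le_rfl hc hG (x := x) (C1 := C1) hC1' Q0 (by
    intro m hm
    set Q : ℕ := (b - 1) * (b ^ m * q ^ m) with hQ
    have hb1 : 1 ≤ b - 1 := by omega
    have hq1 : 1 ≤ q ^ m := Nat.one_le_pow _ _ (by omega)
    have hbm1 : 1 ≤ b ^ m := Nat.one_le_pow _ _ (by omega)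
    have hQpos : 0 < Q := by positivity
    have key := hx m hm (round ((Q : ℝ) * x))
    have e1 : (b ^ m * q ^ m) • ((((b : ℝ) - 1) * x : ℝ) : UnitAddCircle)
        = (((Q : ℝ) * x : ℝ) : UnitAddCircle) := by
      rw [← AddCircle.coe_nsmul, nsmul_eq_mul]
      congr 1
      rw [hQ]
      push_cast
      rw [Nat.cast_sub (by omega)]
      push_cast; ring
    rw [e1, Pool.Agent.H706R2.norm_coe_eq_dZ]
    unfold dZ
    refine le_trans ?_ key
    rw [rpow_def_of_pos (by exact_mod_cast hQpos)]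
    refine exp_le_exp.mpr ?_
    have hlQ : log (Q : ℝ) ≤ (m + 1) * log b + m * log q := by
      have h1 : (Q : ℝ) ≤ (b : ℝ) ^ (m + 1) * (q : ℝ) ^ m := by
        have h2 : Q ≤ b ^ (m + 1) * q ^ m := by
          rw [hQ, pow_succ']
          calc (b - 1) * (b ^ m * q ^ m) ≤ b * (b ^ m * q ^ m) :=
                Nat.mul_le_mul_right _ (by omega)
            _ = b * b ^ m * q ^ m := by ring
        exact_mod_cast h2
      have h2 := log_le_log (by exact_mod_cast hQpos) h1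
      rw [log_mul (by positivity) (by positivity), log_pow, log_pow] at h2
      push_cast at h2
      exact h2
    have hm0 : (0 : ℝ) ≤ m := Nat.cast_nonneg _
    have h3 := mul_le_mul_of_nonneg_left hlQ hκ
    have h4 : C1 * ((m : ℝ) + m + 1) = κ * ((m + 1) * log b + m * log q)
        + κ * (m * log b + (m + 1) * log q) := by rw [hC1]; ring
    have h5 : 0 ≤ κ * (m * log b + (m + 1) * log q) := by positivity
    linarith)
  rw [e] at this
  exact this

theorem changes_ln2 {b q w : ℕ} (h : TwoGen b q) (hw : 2 ^ w ∣ b * q) (hlt : b * q < 29 ^ w) :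
    ∃ c' : ℝ, 0 < c' ∧ ∀ᶠ M : ℕ in atTop, c' * (M : ℝ) ^ (log 3 / log 2) ≤
      ((∑ n ∈ Finset.range M, ((Finset.range M).filter
      (fun i => dig b ((q : ℝ) ^ n * Real.log 2) i ≠ dig b ((q : ℝ) ^ n * Real.log 2) (i + 1))).card
        : ℕ) : ℝ) := by
  obtain ⟨q0, hq0⟩ := Pool.Agent.H346R2.L2.dioph
  have hb := h.two_le_left
  have hq := h.two_le_right
  -- `(b - 1) (b q)^m ≤ 29^(w m)` for large `m`
  have hev : ∀ᶠ m : ℕ in atTop, (b - 1) * (b ^ m * q ^ m) ≤ 29 ^ (w * m) := by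
    have hbq : (0 : ℝ) < ((b * q : ℕ) : ℝ) := by
      have : 0 < b * q := by positivity
      exact_mod_cast this
    have hr : 1 < ((29 ^ w : ℕ) : ℝ) / ((b * q : ℕ) : ℝ) := by
      rw [one_lt_div hbq]
      exact_mod_cast hlt
    have ht := tendsto_pow_atTop_atTop_of_one_lt hr
    filter_upwards [ht.eventually_ge_atTop ((b - 1 : ℕ) : ℝ)] with m hm
    rw [div_pow, le_div_iff₀ (by positivity)] at hm
    have h1 : (b - 1) * (b * q) ^ m ≤ (29 ^ w) ^ m := by exact_mod_cast hm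
    rw [mul_pow, ← pow_mul] at h1
    exact h1
  obtain ⟨M1, hM1⟩ := eventually_atTop.mp hev
  refine changes_dio2 h (κ := 3.35) (by norm_num) (max q0 M1) (fun m hm P => ?_)
  have hmq : q0 ≤ m := (le_max_left _ _).trans hm
  have hmM : M1 ≤ m := (le_max_right _ _).trans hm
  set Q : ℕ := (b - 1) * (b ^ m * q ^ m) with hQ
  have hmlt : m < b ^ m := Nat.lt_pow_self (by omega)
  have hq1 : 1 ≤ q ^ m := Nat.one_le_pow _ _ (by omega)
  have hb1 : 1 ≤ b - 1 := by omega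
  have hQm : m ≤ Q := by
    have h1 : b ^ m * 1 ≤ b ^ m * q ^ m := Nat.mul_le_mul_left _ hq1
    have h2 : 1 * (b ^ m * q ^ m) ≤ (b - 1) * (b ^ m * q ^ m) := Nat.mul_le_mul_right _ hb1
    omega
  have hQpos : 1 ≤ Q := by
    have hbm1 : 1 ≤ b ^ m := Nat.one_le_pow _ _ (by omega)
    have : 0 < Q := by positivity
    omega
  have hd : 2 ^ (w * m) ∣ Q := by
    rw [hQ, pow_mul, ← mul_pow]
    exact (pow_dvd_pow_of_dvd hw m).mul_left _
  have key := hq0 Q (hmq.trans hQm) (w * m) hd (hM1 m hmM) P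
  have hQ1 : (1 : ℝ) ≤ Q := by exact_mod_cast hQpos
  have hQ0 : (0 : ℝ) < Q := by linarith
  have e : (Q : ℝ) * Real.log 2 - P = Q * (Real.log 2 - P / Q) := by field_simp
  rw [e, abs_mul, abs_of_pos hQ0]
  calc (Q : ℝ) ^ (-(3.35 : ℝ)) ≤ |Real.log 2 - P / Q| := key
    _ = 1 * |Real.log 2 - P / Q| := by ring
    _ ≤ Q * |Real.log 2 - P / Q| := mul_le_mul_of_nonneg_right hQ1 (abs_nonneg _)

end Pool.Agent.H819
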