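import Mathlib
import Pool.Agent.H819.Down3

set_option autoImplicit false

open MeasureTheory Real Filter

namespace Pool.Agent.H819

open Pool.Agent.H706R2 (dZ dZ_le_of_int dig pow_bracket changes_lower)

lemma dZ_frac {a D : ℕ} (hD : 0 < D) (h : ¬ D ∣ a) : 1 / (D : ℝ) ≤ dZ ((a : ℝ) / D) := by
  unfold dZ
  set k := round ((a : ℝ) / D) with hk
  have h1 : (a : ℤ) - D * k ≠ 0 := by
    intro h0
    apply h
    have : (D : ℤ) ∣ a := ⟨k, by linarith⟩
    exact_mod_cast this
  have h2 : (1 : ℝ) ≤ |(a : ℝ) - D * k| := by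
    have := Int.one_le_abs h1
    exact_mod_cast this
  have hDR : (0 : ℝ) < D := by exact_mod_cast hD
  have h3 : (a : ℝ) / D - k = (a - D * k) / D := by field_simp
  rw [h3, abs_div, abs_of_pos hDR]
  exact div_le_div_of_nonneg_right h2 hDR.le

lemma dig_pow {b q n K i k : ℕ} (hb : 2 ≤ b) (h : i + 1 + k = K) :
    dig b ((q : ℝ) ^ n * (1 / (b : ℝ) ^ K)) i = ((q ^ n / b ^ k % b : ℕ) : ℤ) := by
  have hb0 : (b : ℝ) ≠ 0 := by positivity
  unfold dig
  have e : (b : ℝ) ^ (i + 1) * ((q : ℝ) ^ n * (1 / (b : ℝ) ^ K))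
      = ((q ^ n : ℕ) : ℝ) / ((b ^ k : ℕ) : ℝ) := by
    rw [← h, pow_add _ (i + 1) k]
    push_cast
    field_simp
  rw [e, ← Int.natCast_floor_eq_floor (by positivity), Nat.floor_div_eq_div]
  push_cast
  rfl

lemma dig_pow_zero {b q n K i : ℕ} (hb : 2 ≤ b) (h : K ≤ i) :
    dig b ((q : ℝ) ^ n * (1 / (b : ℝ) ^ K)) i = 0 := by
  have hb0 : (b : ℝ) ≠ 0 := by positivity
  obtain ⟨e, rfl⟩ := Nat.exists_eq_add_of_le h
  unfold dig
  have e1 : (b : ℝ) ^ (K + e + 1) * ((q : ℝ) ^ n * (1 / (b : ℝ) ^ K))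
      = (((b : ℤ) * (b ^ e * q ^ n) : ℤ) : ℝ) := by
    rw [add_assoc, pow_add _ K (e + 1), pow_succ]
    push_cast
    field_simp
  rw [e1, Int.floor_intCast]
  exact Int.mul_emod_right _ _

lemma sum_aux {N M' : ℕ} (hle : M' ≤ N) (f g : ℕ → ℕ) (h : ∀ n, f n ≤ 1 + g n) :
    ∑ n ∈ Finset.range M', f n ≤ N + ∑ n ∈ Finset.range N, g n := by
  have h1 : ∑ n ∈ Finset.range M', f n ≤ ∑ n ∈ Finset.range N, f n :=
    Finset.sum_le_sum_of_subset (Finset.range_subset_range.mpr hle)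
  have h2 : ∑ n ∈ Finset.range N, f n ≤ ∑ n ∈ Finset.range N, (1 + g n) :=
    Finset.sum_le_sum (fun n _ => h n)
  rw [Finset.sum_add_distrib, Finset.sum_const, Finset.card_range, smul_eq_mul, mul_one] at h2
  exact h1.trans h2

lemma cast_aux {L N S j : ℕ} (h : (2 + 1) ^ j ≤ L * (N + S)) : (3 : ℝ) ^ j ≤ L * (N + S) := by
  have h7 : (((2 + 1) ^ j : ℕ) : ℝ) ≤ ((L * (N + S) : ℕ) : ℝ) := by exact_mod_cast h
  push_cast at h7
  norm_num at h7
  exact h7

lemma final_aux {w s : ℝ} {L j N M S : ℕ} (hw0 : 0 < w) (hs1 : 1 < s)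
    (h5 : (3 : ℝ) ^ j ≤ L * (N + S)) (hj2 : (w * M) ^ s ≤ (((2 : ℕ) : ℝ) + 1) ^ (j + 1))
    (hNM : N ≤ 12 * M) (hNlin : (N : ℝ) ≤ (w / 12) ^ s / 3 / (L + 1) / 2 * (N : ℝ) ^ s) :
    (w / 12) ^ s / 3 / (L + 1) / 2 * (N : ℝ) ^ s ≤ S := by
  have h8 : (w / 12) ^ s * (N : ℝ) ^ s ≤ (w * M) ^ s := by
    rw [← mul_rpow (by positivity) (by positivity)]
    refine rpow_le_rpow (by positivity) ?_ (by linarith)
    have h9 : (N : ℝ) ≤ 12 * M := by exact_mod_cast hNM
    calc w / 12 * N ≤ w / 12 * (12 * M) := mul_le_mul_of_nonneg_left h9 (by positivity)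
      _ = w * M := by ring
  have h0 : (0 : ℝ) ≤ (N : ℝ) + S := by positivity
  have h10 : (w / 12) ^ s * (N : ℝ) ^ s ≤ 3 * ((L + 1) * (N + S)) := by
    have e3 : (((2 : ℕ) : ℝ) + 1) ^ (j + 1) = 3 * (3 : ℝ) ^ j := by
      rw [pow_succ]; norm_num; ring
    rw [e3] at hj2
    have e4 : (L : ℝ) * (N + S) ≤ (L + 1) * (N + S) :=
      mul_le_mul_of_nonneg_right (by linarith) h0
    linarith
  have e2 : (w / 12) ^ s / 3 / (L + 1) / 2 * (N : ℝ) ^ s
      = (w / 12) ^ s * (N : ℝ) ^ s / (3 * (L + 1)) / 2 := by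
    field_simp
  have h11 : (w / 12) ^ s * (N : ℝ) ^ s / (3 * (L + 1)) ≤ N + S := by
    rw [div_le_iff₀ (by positivity)]
    linarith
  rw [e2] at hNlin ⊢
  linarith

/-- digit changes of the powers `q^n` in base `b` -/
theorem pow_changes {b q : ℕ} (hb : 2 ≤ b) (hq : 2 ≤ q) (hco : Nat.Coprime b q) :
    ∃ c' : ℝ, 0 < c' ∧ ∀ᶠ N : ℕ in atTop, c' * (N : ℝ) ^ (log 3 / log 2) ≤
      ((∑ n ∈ Finset.range N, ((Finset.range N).filter
      (fun k => q ^ n / b ^ k % b ≠ q ^ n / b ^ (k + 1) % b)).card : ℕ) : ℝ) := by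
  obtain ⟨r, r', c, hr', hrp, hc, hG⟩ := (twoGen_of_coprime hb hq hco).growth
  have hbR : (2 : ℝ) ≤ b := by exact_mod_cast hb
  have hlb : 0 < log (b : ℝ) := log_pos (by exact_mod_cast (by omega : 1 < b))
  have hlq : 0 < log (q : ℝ) := log_pos (by exact_mod_cast (by omega : 1 < q))
  obtain ⟨L, hL⟩ := exists_pow_lt_of_lt_one hr' (by
    rw [inv_lt_one₀ (by linarith)]; linarith : ((b : ℝ))⁻¹ < 1)
  have hL' : 1 / (b : ℝ) ^ L ≤ r' := by
    rw [inv_pow] at hL
    rw [one_div]; exact hL.le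
  have es : log (((2 : ℕ) : ℝ) + 1) / log ((2 : ℕ) : ℝ) = log 3 / log 2 := by norm_num
  set s : ℝ := log 3 / log 2 with hs
  have hl2 : 0 < log (2 : ℝ) := log_pos (by norm_num)
  have hs1 : 1 < s := by
    rw [hs, one_lt_div hl2]
    exact log_lt_log (by norm_num) (by norm_num)
  have hs0 : 0 < s := by linarith
  set l : ℝ := min (log b) (log q) with hl
  have hl0 : 0 < l := lt_min hlb hlq
  set w : ℝ := l / c with hw
  have hw0 : 0 < w := div_pos hl0 hc
  obtain ⟨N2, hN2⟩ := exists_nat_gt (1 / w)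
  set c1 : ℝ := (w / 12) ^ s / 3 / (L + 1) with hc1
  have hc10 : 0 < c1 := by positivity
  -- the linear term is negligible
  have hlin : ∀ᶠ N : ℕ in atTop, (N : ℝ) ≤ c1 / 2 * (N : ℝ) ^ s := by
    have ht := (tendsto_rpow_atTop (by linarith : 0 < s - 1)).comp
      (tendsto_natCast_atTop_atTop (R := ℝ))
    filter_upwards [ht.eventually_ge_atTop (2 / c1), eventually_ge_atTop 1] with N hN h1
    have hNR : (1 : ℝ) ≤ N := by exact_mod_cast h1
    have hN0 : (0 : ℝ) < N := by linarith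
    have h2 : 2 / c1 ≤ (N : ℝ) ^ (s - 1) := hN
    have h3 : (N : ℝ) ^ s = (N : ℝ) ^ (s - 1) * N := by
      rw [← rpow_add_one hN0.ne']; ring_nf
    rw [h3]
    have h4 : 1 ≤ c1 / 2 * (N : ℝ) ^ (s - 1) := by
      rw [div_le_iff₀ hc10] at h2
      linarith
    nlinarith
  refine ⟨c1 / 2, by positivity, ?_⟩
  filter_upwards [hlin, eventually_ge_atTop (6 * (L + N2 + 2))] with N hNlin hN
  set M := N / 6 with hM
  have hM1 : L + N2 + 2 ≤ M := by omega
  have hM2 : N < 6 * M + 6 := by omega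
  have hNM : N ≤ 12 * M := by omega
  have hMR : ((N2 : ℝ)) ≤ M := by exact_mod_cast (by omega : N2 ≤ M)
  have ht1 : 1 ≤ w * M := by
    have h1 : 1 / w < M := by linarith
    rw [div_lt_iff₀ hw0] at h1
    linarith
  obtain ⟨hj1, hj2⟩ := pow_bracket (le_refl 2) ht1
  set j := ⌊log (w * M) / log ((2 : ℕ) : ℝ)⌋₊ with hj
  have hGj := hG j
  set R : ℝ := c * (((2 : ℕ) : ℝ) ^ j - 1) with hR
  have hRle : R ≤ l * M := by
    have h1 : R ≤ c * (w * M) := by
      rw [hR]; exact mul_le_mul_of_nonneg_left (by linarith) hc.le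
    have h2 : c * (w * M) = l * M := by rw [hw]; field_simp
    linarith
  have hM0 : (0 : ℝ) ≤ M := Nat.cast_nonneg _
  have hA : R < (M + 1) * log b := by
    have h1 : l * M ≤ log b * M := mul_le_mul_of_nonneg_right (min_le_left _ _) hM0
    linarith
  have hB : R < (M + 1) * log q := by
    have h1 : l * M ≤ log q * M := mul_le_mul_of_nonneg_right (min_le_right _ _) hM0
    linarith
  set x : ℝ := 1 / (b : ℝ) ^ (2 * M) with hx
  set y : UnitAddCircle := ((((b : ℝ) - 1) * x : ℝ) : UnitAddCircle) with hy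
  have hnd : ¬ (b ^ M) ∣ (b - 1) * q ^ M := by
    intro hdvd
    have hc1 : Nat.Coprime (b ^ M) (q ^ M) := Nat.Coprime.pow _ _ hco
    have hc2 : Nat.Coprime b (b - 1) := by
      have := Nat.coprime_self_sub_right (n := b) (m := 1) (by omega)
      rw [this]; exact Nat.coprime_one_right _
    have h1 : b ^ M ∣ (b - 1) := hc1.dvd_of_dvd_mul_right hdvd
    have h2 : Nat.Coprime (b ^ M) (b - 1) := Nat.Coprime.pow_left _ hc2
    have h3 : b ^ M = 1 := Nat.Coprime.eq_one_of_dvd h2 h1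
    have h4 : 1 < b ^ M := Nat.one_lt_pow (by omega) (by omega)
    omega
  have hyM : exp (-(M * log b)) ≤ ‖(b ^ M * q ^ M) • y‖ := by
    have e1 : (b ^ M * q ^ M) • y
        = (((((b - 1) * q ^ M : ℕ) : ℝ) / ((b ^ M : ℕ) : ℝ) : ℝ) : UnitAddCircle) := by
      rw [hy, ← AddCircle.coe_nsmul, nsmul_eq_mul]
      congr 1
      rw [hx, two_mul, pow_add]
      push_cast
      rw [Nat.cast_sub (by omega)]
      push_cast
      have : (b : ℝ) ≠ 0 := by positivity
      field_simp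
    rw [e1, Pool.Agent.H706R2.norm_coe_eq_dZ]
    refine le_trans (le_of_eq ?_) (dZ_frac (by positivity) hnd)
    rw [exp_neg, exp_nat_mul, exp_log (by positivity)]
    push_cast
    rw [one_div]
  have hcnt := count_far2 (I := M) hb hq hrp hGj hA hB le_rfl y hyM
  have hsub : ((Finset.range (2 * M + M + 1) ×ˢ Finset.range (2 * M + 1)).filter
      (fun u => r' ≤ ‖(b ^ u.1 * q ^ u.2) • y‖)).card ≤
      ((Finset.range (3 * M + 1) ×ˢ Finset.range (3 * M + 1)).filter
        (fun u => r' ≤ ‖(b ^ u.1 * q ^ u.2) • y‖)).card := by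
    refine Finset.card_le_card (Finset.filter_subset_filter _ (Finset.product_subset_product ?_ ?_))
    · exact Finset.range_subset_range.mpr (by omega)
    · exact Finset.range_subset_range.mpr (by omega)
  have h2 := changes_lower (q := q) hb hL' x (3 * M + 1)
  -- comparison of the digit changes
  have hcomp : ∑ n ∈ Finset.range (3 * M + 1 + L), ((Finset.range (3 * M + 1 + L)).filter
      (fun i => dig b ((q : ℝ) ^ n * x) i ≠ dig b ((q : ℝ) ^ n * x) (i + 1))).card ≤
      N + ∑ n ∈ Finset.range N, ((Finset.range N).filter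
        (fun k => q ^ n / b ^ k % b ≠ q ^ n / b ^ (k + 1) % b)).card := by
    have h3 : ∀ n : ℕ, ((Finset.range (3 * M + 1 + L)).filter
        (fun i => dig b ((q : ℝ) ^ n * x) i ≠ dig b ((q : ℝ) ^ n * x) (i + 1))).card ≤
        1 + ((Finset.range N).filter
        (fun k => q ^ n / b ^ k % b ≠ q ^ n / b ^ (k + 1) % b)).card := by
      intro n
      have hss : (Finset.range (3 * M + 1 + L)).filter
          (fun i => dig b ((q : ℝ) ^ n * x) i ≠ dig b ((q : ℝ) ^ n * x) (i + 1)) ⊆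
          insert (2 * M - 1) (((Finset.range N).filter
          (fun k => q ^ n / b ^ k % b ≠ q ^ n / b ^ (k + 1) % b)).image
            (fun k => 2 * M - 2 - k)) := by
        intro i hi
        rw [Finset.mem_filter] at hi
        rw [Finset.mem_insert, Finset.mem_image]
        rcases Nat.lt_or_ge i (2 * M) with hlt | hge
        · rcases Nat.lt_or_ge i (2 * M - 1) with hlt2 | hge2
          · right
            refine ⟨2 * M - 2 - i, ?_, by omega⟩
            rw [Finset.mem_filter, Finset.mem_range]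
            refine ⟨by omega, ?_⟩
            have h4 := hi.2
            rw [hx, dig_pow hb (k := 2 * M - 2 - i + 1) (by omega),
              dig_pow hb (k := 2 * M - 2 - i) (by omega)] at h4
            intro h5
            exact h4 (by rw [h5])
          · left; omega
        · exfalso
          apply hi.2
          rw [hx, dig_pow_zero hb hge, dig_pow_zero hb (by omega)]
      refine (Finset.card_le_card hss).trans ((Finset.card_insert_le _ _).trans ?_)
      rw [add_comm]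
      exact Nat.add_le_add_left Finset.card_image_le _
    exact sum_aux (by omega) _ _ h3
  set S := ∑ n ∈ Finset.range N, ((Finset.range N).filter
        (fun k => q ^ n / b ^ k % b ≠ q ^ n / b ^ (k + 1) % b)).card with hS
  have h6 : (2 + 1) ^ j ≤ L * (N + S) :=
    (hcnt.trans hsub).trans (h2.trans (Nat.mul_le_mul_left _ hcomp))
  rw [es] at hj2
  exact final_aux hw0 hs1 (cast_aux h6) hj2 hNM hNlin

end Pool.Agent.H819
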